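import Mathlib

set_option autoImplicit false

namespace Pool.Agent.ThF

/-- order automorphisms of the rationals -/
abbrev Q := ℚ ≃o ℚ

lemma inv_of_eq {f : Q} {x y : ℚ} (h : f x = y) : f⁻¹ y = x := by
  rw [← h]; exact RelIso.inv_apply_self _ _

/-- vertices: the interval [i/2^n, (i+1)/2^n] -/
@[ext] structure Vx where
  n : ℤ
  i : ℤ
deriving DecidableEq

namespace Vx

/-- the point of the interval with coordinate t -/
def pt (v : Vx) (t : ℚ) : ℚ := ((v.i : ℚ) + t) * (2:ℚ) ^ (-v.n)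

def lo (v : Vx) : ℚ := v.pt 0
def hi (v : Vx) : ℚ := v.pt 1

def c0 (v : Vx) : Vx := ⟨v.n + 1, 2 * v.i⟩
def c1 (v : Vx) : Vx := ⟨v.n + 1, 2 * v.i + 1⟩

/-- descendant of level k with index j -/
def desc (v : Vx) (k : ℕ) (j : ℤ) : Vx := ⟨v.n + k, v.i * 2 ^ k + j⟩

lemma two_zpow_pos (n : ℤ) : (0:ℚ) < (2:ℚ) ^ n := by positivity

lemma pt_desc (v : Vx) (k : ℕ) (j : ℤ) (t : ℚ) :
    (v.desc k j).pt t = v.pt (((j:ℚ) + t) / 2 ^ k) := by
  simp only [pt, desc]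
  have h : (2:ℚ) ^ (-(v.n + (k:ℤ))) = (2:ℚ) ^ (-v.n) / 2 ^ k := by
    rw [neg_add, zpow_add₀ (by norm_num), zpow_neg _ (k:ℤ), zpow_natCast, div_eq_mul_inv]
  rw [h]
  push_cast
  field_simp
  ring

lemma pt_c0 (v : Vx) (t : ℚ) : v.c0.pt t = v.pt (t / 2) := by
  have := pt_desc v 1 0 t
  simp only [desc, pow_one, Int.cast_zero, zero_add, Nat.cast_one, add_zero] at this
  rw [← this, c0, mul_comm]

lemma pt_c1 (v : Vx) (t : ℚ) : v.c1.pt t = v.pt ((1 + t) / 2) := by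
  have := pt_desc v 1 1 t
  simp only [desc, pow_one, Int.cast_one, Nat.cast_one] at this
  rw [← this, c1, mul_comm]

lemma pt_lt_pt (v : Vx) {s t : ℚ} : v.pt s < v.pt t ↔ s < t := by
  simp only [pt]
  rw [mul_lt_mul_iff_left₀ (two_zpow_pos _)]
  constructor <;> intro h <;> linarith

lemma pt_le_pt (v : Vx) {s t : ℚ} : v.pt s ≤ v.pt t ↔ s ≤ t := by
  simp only [pt]
  rw [mul_le_mul_iff_left₀ (two_zpow_pos _)]
  constructor <;> intro h <;> linarith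

lemma pt_inj (v : Vx) {s t : ℚ} : v.pt s = v.pt t ↔ s = t := by
  constructor
  · intro h
    exact le_antisymm ((pt_le_pt v).1 h.le) ((pt_le_pt v).1 h.ge)
  · rintro rfl; rfl

lemma lo_lt_hi (v : Vx) : v.lo < v.hi := (pt_lt_pt v).2 (by norm_num)

/-- coordinate of a point -/
def co (v : Vx) (x : ℚ) : ℚ := x * (2:ℚ) ^ v.n - v.i

lemma pt_co (v : Vx) (x : ℚ) : v.pt (v.co x) = x := by
  simp only [pt, co]
  rw [add_sub_cancel, mul_assoc, ← zpow_add₀ (by norm_num), add_neg_cancel, zpow_zero, mul_one]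

lemma co_pt (v : Vx) (t : ℚ) : v.co (v.pt t) = t := by
  rw [← v.pt_inj, pt_co]

lemma c0_lo (v : Vx) : v.c0.lo = v.lo := by simp [lo, pt_c0]
lemma c1_hi (v : Vx) : v.c1.hi = v.hi := by rw [hi, hi, pt_c1]; norm_num
lemma c0_hi (v : Vx) : v.c0.hi = v.pt (1/2) := by rw [hi, pt_c0]
lemma c1_lo (v : Vx) : v.c1.lo = v.pt (1/2) := by rw [lo, pt_c1]; norm_num
lemma c0_hi_eq (v : Vx) : v.c0.hi = v.c1.lo := by rw [c0_hi, c1_lo]

lemma hi_sub_lo (v : Vx) : v.hi - v.lo = (2:ℚ) ^ (-v.n) := by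
  simp only [hi, lo, pt]; ring

lemma eq_of_lo_hi {v w : Vx} (h0 : v.lo = w.lo) (h1 : v.hi = w.hi) : v = w := by
  have h : (2:ℚ) ^ (-v.n) = (2:ℚ) ^ (-w.n) := by rw [← hi_sub_lo, ← hi_sub_lo, h0, h1]
  have hn : v.n = w.n := by
    have := zpow_right_injective₀ (a := (2:ℚ)) (by norm_num) (by norm_num) h
    linarith
  have h2 : (v.i : ℚ) = w.i := by
    have : ((v.i : ℚ) + 0) * (2:ℚ) ^ (-v.n) = ((w.i : ℚ) + 0) * (2:ℚ) ^ (-w.n) := h0
    rw [h] at this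
    have := mul_right_cancel₀ (two_zpow_pos _).ne' this
    linarith
  ext
  · exact hn
  · exact_mod_cast h2

/-- membership in the closed interval -/
def mem (v : Vx) (x : ℚ) : Prop := v.lo ≤ x ∧ x ≤ v.hi

lemma mem_iff (v : Vx) (x : ℚ) : v.mem x ↔ ∃ t, 0 ≤ t ∧ t ≤ 1 ∧ v.pt t = x := by
  constructor
  · rintro ⟨h0, h1⟩
    refine ⟨v.co x, ?_, ?_, pt_co v x⟩
    · rw [← v.pt_le_pt, pt_co]; exact h0
    · rw [← v.pt_le_pt, pt_co]; exact h1
  · rintro ⟨t, h0, h1, rfl⟩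
    exact ⟨v.pt_le_pt.2 h0, v.pt_le_pt.2 h1⟩

end Vx

open Vx

/-- `f` maps `[v]` affinely onto `[w]` -/
def Lin (f : Q) (v w : Vx) : Prop := ∀ t, 0 ≤ t → t ≤ 1 → f (v.pt t) = w.pt t

lemma Lin.lo {f : Q} {v w : Vx} (h : Lin f v w) : f v.lo = w.lo := h 0 le_rfl zero_le_one
lemma Lin.hi {f : Q} {v w : Vx} (h : Lin f v w) : f v.hi = w.hi := h 1 zero_le_one le_rfl

lemma Lin.unique {f : Q} {v w w' : Vx} (h : Lin f v w) (h' : Lin f v w') : w = w' :=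
  eq_of_lo_hi (by rw [← h.lo, ← h'.lo]) (by rw [← h.hi, ← h'.hi])

lemma Lin.one (v : Vx) : Lin 1 v v := fun _ _ _ => rfl

lemma Lin.mul {f g : Q} {u v w : Vx} (hf : Lin f v w) (hg : Lin g u v) : Lin (f * g) u w := by
  intro t h0 h1
  rw [RelIso.mul_apply, hg t h0 h1, hf t h0 h1]

lemma Lin.inv {f : Q} {v w : Vx} (h : Lin f v w) : Lin f⁻¹ w v := by
  intro t h0 h1
  rw [← h t h0 h1]; exact RelIso.inv_apply_self _ _

lemma Lin.desc {f : Q} {v w : Vx} (h : Lin f v w) (k : ℕ) (j : ℤ) (hj0 : 0 ≤ j) (hj : j < 2 ^ k) :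
    Lin f (v.desc k j) (w.desc k j) := by
  intro t h0 h1
  rw [pt_desc, pt_desc]
  have hj0' : (0:ℚ) ≤ j := by exact_mod_cast hj0
  have hj' : (j:ℚ) + 1 ≤ 2 ^ k := by exact_mod_cast hj
  apply h
  · positivity
  · rw [div_le_one (by positivity)]; linarith

lemma Lin.c0 {f : Q} {v w : Vx} (h : Lin f v w) : Lin f v.c0 w.c0 := by
  intro t h0 h1
  rw [pt_c0, pt_c0]; exact h _ (by positivity) (by linarith)

lemma Lin.c1 {f : Q} {v w : Vx} (h : Lin f v w) : Lin f v.c1 w.c1 := by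
  intro t h0 h1
  rw [pt_c1, pt_c1]; exact h _ (by positivity) (by linarith)

lemma Lin.of_children {f : Q} {v w : Vx} (h0 : Lin f v.c0 w.c0) (h1 : Lin f v.c1 w.c1) :
    Lin f v w := by
  intro t ht0 ht1
  rcases le_total t (1/2) with h | h
  · have := h0 (2 * t) (by linarith) (by linarith)
    rwa [pt_c0, pt_c0, mul_div_cancel_left₀ _ (by norm_num)] at this
  · have := h1 (2 * t - 1) (by linarith) (by linarith)
    rwa [pt_c1, pt_c1, show (1 + (2 * t - 1)) / 2 = t by ring] at this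

/-- dyadic rationals -/
def Dy (x : ℚ) : Prop := ∃ v : Vx, v.lo = x

lemma Dy.level {x : ℚ} (h : Dy x) : ∃ N : ℤ, ∀ n : ℤ, N ≤ n → ∃ i : ℤ, Vx.lo ⟨n, i⟩ = x := by
  obtain ⟨v, rfl⟩ := h
  refine ⟨v.n, fun n hn => ?_⟩
  obtain ⟨k, rfl⟩ := Int.le.dest hn
  refine ⟨v.i * 2 ^ k, ?_⟩
  have := pt_desc v k 0 0
  simp only [Vx.desc, Int.cast_zero, add_zero, zero_div] at this
  exact this

lemma Vx.dy_lo (v : Vx) : Dy v.lo := ⟨v, rfl⟩

lemma Vx.dy_hi (v : Vx) : Dy v.hi := ⟨⟨v.n, v.i + 1⟩, by simp [Vx.lo, Vx.hi, Vx.pt]⟩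

/-- two vertices are nested or have disjoint interiors -/
lemma Vx.desc_of_lo_mem {v w : Vx} (hn : v.n ≤ w.n) (h0 : v.lo ≤ w.lo) (h1 : w.lo < v.hi) :
    ∃ k : ℕ, ∃ j : ℤ, 0 ≤ j ∧ j < 2 ^ k ∧ w = v.desc k j := by
  obtain ⟨k, hk⟩ := Int.le.dest hn
  refine ⟨k, w.i - v.i * 2 ^ k, ?_, ?_, ?_⟩
  · have h2 : v.pt 0 ≤ w.pt 0 := h0
    simp only [Vx.pt, ← hk, add_zero] at h2
    rw [neg_add, zpow_add₀ (by norm_num), zpow_neg _ (k:ℤ), zpow_natCast, ← mul_assoc,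
      mul_comm (w.i : ℚ), mul_assoc, mul_comm (v.i : ℚ), mul_le_mul_iff_right₀ (two_zpow_pos _),
      ← div_eq_mul_inv, le_div_iff₀ (by positivity)] at h2
    have : v.i * 2 ^ k ≤ w.i := by exact_mod_cast h2
    linarith
  · have h2 : w.pt 0 < v.pt 1 := h1
    simp only [Vx.pt, ← hk, add_zero] at h2
    rw [neg_add, zpow_add₀ (by norm_num), zpow_neg _ (k:ℤ), zpow_natCast, ← mul_assoc,
      mul_comm (w.i : ℚ), mul_assoc, mul_comm ((v.i : ℚ) + 1), mul_lt_mul_iff_right₀ (two_zpow_pos _),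
      ← div_eq_mul_inv, div_lt_iff₀ (by positivity)] at h2
    have : w.i < (v.i + 1) * 2 ^ k := by exact_mod_cast h2
    linarith
  · ext
    · simp [Vx.desc, hk]
    · simp [Vx.desc]

lemma Vx.exists_mem (n : ℤ) (x : ℚ) : ∃ v : Vx, v.n = n ∧ v.lo ≤ x ∧ x < v.hi := by
  refine ⟨⟨n, ⌊x * 2 ^ n⌋⟩, rfl, ?_, ?_⟩
  · simp only [Vx.lo, Vx.pt, add_zero]
    rw [zpow_neg, ← div_eq_mul_inv, div_le_iff₀ (two_zpow_pos _)]
    exact Int.floor_le _
  · simp only [Vx.hi, Vx.pt]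
    rw [zpow_neg, ← div_eq_mul_inv, lt_div_iff₀ (two_zpow_pos _)]
    exact Int.lt_floor_add_one _

/-- a fine vertex lies on one side of a dyadic point -/
lemma Dy.side {a : ℚ} (h : Dy a) : ∃ N : ℤ, ∀ v : Vx, N ≤ v.n → v.hi ≤ a ∨ a ≤ v.lo := by
  obtain ⟨N, hN⟩ := h.level
  refine ⟨N, fun v hv => ?_⟩
  obtain ⟨i, hi⟩ := hN v.n hv
  rcases lt_or_ge v.i i with h | h
  · left
    rw [← hi]
    simp only [Vx.lo, Vx.hi, Vx.pt, add_zero]
    rw [mul_le_mul_iff_left₀ (two_zpow_pos _)]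
    exact_mod_cast h
  · right
    rw [← hi]
    simp only [Vx.lo, Vx.pt, add_zero]
    rw [mul_le_mul_iff_left₀ (two_zpow_pos _)]
    exact_mod_cast h

/-- the group of dyadic piecewise linear homeomorphisms of the line with bounded slopes -/
def P : Subgroup Q where
  carrier := {f | ∃ N K : ℤ, ∀ v : Vx, N ≤ v.n → ∃ w, Lin f v w ∧ |w.n - v.n| ≤ K}
  one_mem' := ⟨0, 0, fun v _ => ⟨v, Lin.one v, by simp⟩⟩
  mul_mem' := by
    rintro f g ⟨N, K, hf⟩ ⟨N', K', hg⟩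
    refine ⟨max N' (N + K'), K + K', fun v hv => ?_⟩
    obtain ⟨w, hw, hwK⟩ := hg v (le_trans (le_max_left _ _) hv)
    have h1 := le_trans (le_max_right N' (N + K')) hv
    have h2 := abs_le.1 hwK
    obtain ⟨u, hu, huK⟩ := hf w (by linarith)
    refine ⟨u, hu.mul hw, ?_⟩
    calc |u.n - v.n| = |(u.n - w.n) + (w.n - v.n)| := by ring_nf
      _ ≤ |u.n - w.n| + |w.n - v.n| := abs_add_le _ _
      _ ≤ K + K' := by linarith
  inv_mem' := by
    rintro f ⟨N, K, hf⟩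
    refine ⟨N + K, K, fun w hw => ?_⟩
    obtain ⟨v, hv, h0, h1⟩ := Vx.exists_mem N (f⁻¹ w.lo)
    obtain ⟨u, hu, huK⟩ := hf v hv.ge
    have h2 := abs_le.1 huK
    have h3 : u.lo ≤ w.lo := by
      rw [← hu.lo, ← RelIso.apply_inv_self f w.lo]
      exact f.monotone h0
    have h4 : w.lo < u.hi := by
      rw [← hu.hi, ← RelIso.apply_inv_self f w.lo]
      exact f.strictMono h1
    obtain ⟨k, j, hj0, hj1, rfl⟩ := Vx.desc_of_lo_mem (by linarith) h3 h4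
    refine ⟨v.desc k j, (hu.desc k j hj0 hj1).inv, ?_⟩
    simp only [Vx.desc]
    rw [show v.n + (k:ℤ) - (u.n + k) = -(u.n - v.n) by ring, abs_neg]
    exact huK

lemma mem_P_iff {f : Q} : f ∈ P ↔ ∃ N K : ℤ, ∀ v : Vx, N ≤ v.n → ∃ w, Lin f v w ∧ |w.n - v.n| ≤ K :=
  Iff.rfl

lemma P.level {f : Q} (hf : f ∈ P) : ∃ N : ℤ, ∀ v : Vx, N ≤ v.n → ∃ w, Lin f v w := by
  obtain ⟨N, K, h⟩ := hf
  exact ⟨N, fun v hv => (h v hv).imp fun _ h => h.1⟩

/-- images of fine vertices are fine -/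
lemma P.level_level {f : Q} (hf : f ∈ P) (L : ℤ) :
    ∃ N : ℤ, ∀ v : Vx, N ≤ v.n → ∃ w, Lin f v w ∧ L ≤ w.n := by
  obtain ⟨N, K, h⟩ := hf
  refine ⟨max N (L + K), fun v hv => ?_⟩
  obtain ⟨w, hw, hwK⟩ := h v (le_trans (le_max_left _ _) hv)
  have h1 := le_trans (le_max_right N (L + K)) hv
  have h2 := abs_le.1 hwK
  exact ⟨w, hw, by linarith⟩

lemma P.dy {f : Q} (hf : f ∈ P) {x : ℚ} (hx : Dy x) : Dy (f x) := by
  obtain ⟨N, hN⟩ := P.level hf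
  obtain ⟨N', hN'⟩ := hx.level
  obtain ⟨i, hi⟩ := hN' (max N N') (le_max_right _ _)
  obtain ⟨w, hw⟩ := hN ⟨max N N', i⟩ (le_max_left _ _)
  rw [← hi, hw.lo]
  exact w.dy_lo

lemma P.dy_iff {f : Q} (hf : f ∈ P) {x : ℚ} : Dy (f x) ↔ Dy x := by
  constructor
  · intro h
    have := P.dy (P.inv_mem hf) h
    rwa [RelIso.inv_apply_self] at this
  · exact P.dy hf

/-- glue two automorphisms at a point -/
noncomputable def glue (f g : Q) (a : ℚ) (h : f a = g a) : Q :=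
  StrictMono.orderIsoOfSurjective (fun x => if x ≤ a then f x else g x)
    (by
      intro x y hxy
      dsimp only
      split_ifs with h1 h2 h2
      · exact f.strictMono hxy
      · have h3 : f x ≤ f a := f.monotone h1
        have h4 : g a < g y := g.strictMono (not_le.1 h2)
        rw [h] at h3
        exact lt_of_le_of_lt h3 h4
      · exact absurd (hxy.le.trans h2) h1
      · exact g.strictMono hxy)
    (by
      intro y
      rcases le_or_gt y (f a) with h1 | h1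
      · refine ⟨f⁻¹ y, ?_⟩
        have h2 : f⁻¹ y ≤ a := by
          rw [← RelIso.inv_apply_self f a]
          exact (f⁻¹).monotone h1
        simp only [h2, if_true, RelIso.apply_inv_self]
      · refine ⟨g⁻¹ y, ?_⟩
        have h2 : ¬ g⁻¹ y ≤ a := by
          rw [not_le, ← RelIso.inv_apply_self g a, ← h]
          exact (g⁻¹).strictMono h1
        simp only [h2, if_false, RelIso.apply_inv_self])

lemma glue_apply (f g : Q) (a : ℚ) (h : f a = g a) (x : ℚ) :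
    glue f g a h x = if x ≤ a then f x else g x := rfl

lemma glue_of_le {f g : Q} {a : ℚ} (h : f a = g a) {x : ℚ} (hx : x ≤ a) :
    glue f g a h x = f x := by rw [glue_apply, if_pos hx]

lemma glue_of_ge {f g : Q} {a : ℚ} (h : f a = g a) {x : ℚ} (hx : a ≤ x) :
    glue f g a h x = g x := by
  rw [glue_apply]
  split_ifs with h1
  · rw [le_antisymm h1 hx, h]
  · rfl

lemma glue_mem_P {f g : Q} {a : ℚ} (h : f a = g a) (hf : f ∈ P) (hg : g ∈ P) (ha : Dy a) :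
    glue f g a h ∈ P := by
  obtain ⟨N, K, hf⟩ := hf
  obtain ⟨N', K', hg⟩ := hg
  obtain ⟨L, hL⟩ := ha.side
  refine ⟨max (max N N') L, max K K', fun v hv => ?_⟩
  have h1 : N ≤ v.n := le_trans (le_trans (le_max_left _ _) (le_max_left _ _)) hv
  have h2 : N' ≤ v.n := le_trans (le_trans (le_max_right _ _) (le_max_left _ _)) hv
  have h3 : L ≤ v.n := le_trans (le_max_right _ _) hv
  rcases hL v h3 with h4 | h4
  · obtain ⟨w, hw, hwK⟩ := hf v h1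
    refine ⟨w, fun t ht0 ht1 => ?_, hwK.trans (le_max_left _ _)⟩
    rw [glue_of_le h ((v.pt_le_pt.2 ht1).trans h4), hw t ht0 ht1]
  · obtain ⟨w, hw, hwK⟩ := hg v h2
    refine ⟨w, fun t ht0 ht1 => ?_, hwK.trans (le_max_right _ _)⟩
    rw [glue_of_ge h (h4.trans (v.pt_le_pt.2 ht0)), hw t ht0 ht1]

/-- Thompson's group F acting on the rationals -/
def F : Subgroup Q where
  carrier := {f | f ∈ P ∧ (∀ x, x ≤ 0 → f x = x) ∧ (∀ x, 1 ≤ x → f x = x)}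
  one_mem' := ⟨P.one_mem, fun _ _ => rfl, fun _ _ => rfl⟩
  mul_mem' := by
    rintro f g ⟨hf, hf0, hf1⟩ ⟨hg, hg0, hg1⟩
    refine ⟨P.mul_mem hf hg, fun x hx => ?_, fun x hx => ?_⟩
    · rw [RelIso.mul_apply, hg0 x hx, hf0 x hx]
    · rw [RelIso.mul_apply, hg1 x hx, hf1 x hx]
  inv_mem' := by
    rintro f ⟨hf, hf0, hf1⟩
    refine ⟨P.inv_mem hf, fun x hx => ?_, fun x hx => ?_⟩
    · conv_lhs => rw [← hf0 x hx]
      exact RelIso.inv_apply_self _ _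
    · conv_lhs => rw [← hf1 x hx]
      exact RelIso.inv_apply_self _ _

lemma F.le_P : F ≤ P := fun _ h => h.1
lemma F.zero {f : Q} (hf : f ∈ F) {x : ℚ} (hx : x ≤ 0) : f x = x := hf.2.1 x hx
lemma F.one {f : Q} (hf : f ∈ F) {x : ℚ} (hx : 1 ≤ x) : f x = x := hf.2.2 x hx
lemma mem_F {f : Q} (h : f ∈ P) (h0 : ∀ x, x ≤ 0 → f x = x) (h1 : ∀ x, 1 ≤ x → f x = x) : f ∈ F :=
  ⟨h, h0, h1⟩

lemma F.pos {f : Q} (hf : f ∈ F) {x : ℚ} (hx : 0 < x) : 0 < f x := by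
  rw [← F.zero hf (le_refl 0)]; exact f.strictMono hx
lemma F.lt_one {f : Q} (hf : f ∈ F) {x : ℚ} (hx : x < 1) : f x < 1 := by
  rw [← F.one hf (le_refl 1)]; exact f.strictMono hx

lemma glue_mem_F {f g : Q} {a : ℚ} (h : f a = g a) (hf : f ∈ F) (hg : g ∈ F) (ha : Dy a) :
    glue f g a h ∈ F := by
  refine mem_F (glue_mem_P h (F.le_P hf) (F.le_P hg) ha) (fun x hx => ?_) (fun x hx => ?_)
  · rw [glue_apply, F.zero hf hx, F.zero hg hx, ite_self]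
  · rw [glue_apply, F.one hf hx, F.one hg hx, ite_self]

end Pool.Agent.ThF
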