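import Pool.Agent.Lib.MP_a06c1e_al.Max

set_option autoImplicit false

namespace Pool.Agent.ThF
open Vx

lemma Lin.mem {f : Q} {v w : Vx} (h : Lin f v w) {x : ℚ} (hx : v.mem x) : w.mem (f x) := by
  rw [Vx.mem_iff] at hx ⊢
  obtain ⟨t, h0, h1, rfl⟩ := hx
  exact ⟨t, h0, h1, (h t h0 h1).symm⟩

/-- dyadic-piecewise-M elements of F -/
def Cl (M : Subgroup Q) : Subgroup Q where
  carrier := {f | f ∈ F ∧ ∃ N : ℤ, ∀ v : Vx, N ≤ v.n → ∃ m ∈ M, ∀ x, v.mem x → f x = m x}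
  one_mem' := ⟨F.one_mem, 0, fun _ _ => ⟨1, M.one_mem, fun _ _ => rfl⟩⟩
  mul_mem' := by
    rintro f g ⟨hf, N, hfN⟩ ⟨hg, N', hgN⟩
    obtain ⟨L, hL⟩ := P.level_level (F.le_P hg) N
    refine ⟨F.mul_mem hf hg, max N' L, fun v hv => ?_⟩
    obtain ⟨m', hm', h1⟩ := hgN v (le_trans (le_max_left _ _) hv)
    obtain ⟨w, hw, hwN⟩ := hL v (le_trans (le_max_right _ _) hv)
    obtain ⟨m, hm, h2⟩ := hfN w hwN
    refine ⟨m * m', M.mul_mem hm hm', fun x hx => ?_⟩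
    rw [RelIso.mul_apply, RelIso.mul_apply, h2 _ (hw.mem hx), h1 x hx]
  inv_mem' := by
    rintro f ⟨hf, N, hfN⟩
    obtain ⟨L, hL⟩ := P.level_level (P.inv_mem (F.le_P hf)) N
    refine ⟨F.inv_mem hf, L, fun w hw => ?_⟩
    obtain ⟨v, hv, hvN⟩ := hL w hw
    obtain ⟨m, hm, h1⟩ := hfN v hvN
    refine ⟨m⁻¹, M.inv_mem hm, fun x hx => ?_⟩
    have h2 := h1 _ (hv.mem hx)
    rw [RelIso.apply_inv_self] at h2
    conv_rhs => rw [h2]
    rw [RelIso.inv_apply_self]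

lemma Cl.le_F (M : Subgroup Q) : Cl M ≤ F := fun _ h => h.1

lemma le_Cl {M : Subgroup Q} (hM : M ≤ F) : M ≤ Cl M :=
  fun m hm => ⟨hM hm, 0, fun _ _ => ⟨m, hm, fun _ _ => rfl⟩⟩

lemma glue_mem_Cl {M : Subgroup Q} {f g : Q} {a : ℚ} (h : f a = g a) (hf : f ∈ Cl M)
    (hg : g ∈ Cl M) (ha : Dy a) : glue f g a h ∈ Cl M := by
  obtain ⟨hf, N, hfN⟩ := hf
  obtain ⟨hg, N', hgN⟩ := hg
  obtain ⟨L, hL⟩ := ha.side
  refine ⟨glue_mem_F h hf hg ha, max (max N N') L, fun v hv => ?_⟩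
  have h1 : N ≤ v.n := le_trans (le_trans (le_max_left _ _) (le_max_left _ _)) hv
  have h2 : N' ≤ v.n := le_trans (le_trans (le_max_right _ _) (le_max_left _ _)) hv
  have h3 : L ≤ v.n := le_trans (le_max_right _ _) hv
  rcases hL v h3 with h4 | h4
  · obtain ⟨m, hm, h5⟩ := hfN v h1
    exact ⟨m, hm, fun x hx => by rw [glue_of_le h (hx.2.trans h4), h5 x hx]⟩
  · obtain ⟨m, hm, h5⟩ := hgN v h2
    exact ⟨m, hm, fun x hx => by rw [glue_of_ge h (h4.trans hx.1), h5 x hx]⟩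

section
variable {M : Subgroup Q}

lemma Cl.right {f : Q} (hf : f ∈ Cl M) (a : ℚ) : ∃ m ∈ M, ∃ b, a < b ∧ ∀ x, a ≤ x → x ≤ b → f x = m x := by
  obtain ⟨-, N, h⟩ := hf
  obtain ⟨v, hv, h0, h1⟩ := Vx.exists_mem N a
  obtain ⟨m, hm, h2⟩ := h v hv.ge
  exact ⟨m, hm, v.hi, h1, fun x hx hx' => h2 x ⟨h0.trans hx, hx'⟩⟩

/-- elements of Cl M preserve block equivalence for convex blocks -/
lemma Cl.sameBlock {B : Set ℚ} (hB : IsBlock M B) (hc : B.OrdConnected) {f : Q} (hf : f ∈ Cl M)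
    {x y : ℚ} (h : SameBlock M B x y) : SameBlock M B (f x) (f y) := by
  obtain ⟨-, N, hN⟩ := hf
  have conv : ∀ {x y z : ℚ}, SameBlock M B x y → x ≤ z → z ≤ y → SameBlock M B x z ∧
      SameBlock M B z y := by
    rintro x y z ⟨m, hm, h1, h2⟩ h3 h4
    have h5 : m z ∈ B := hc.out h1 h2 ⟨m.monotone h3, m.monotone h4⟩
    exact ⟨⟨m, hm, h1, h5⟩, ⟨m, hm, h5, h2⟩⟩
  have piece : ∀ v : Vx, N ≤ v.n → ∀ x y, v.mem x → v.mem y → SameBlock M B x y →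
      SameBlock M B (f x) (f y) := by
    intro v hv x y hx hy h
    obtain ⟨m, hm, h1⟩ := hN v hv
    rw [h1 x hx, h1 y hy]
    exact h.map hm
  -- grid induction
  have grid : ∀ n : ℕ, ∀ i : ℤ, ∀ y, Vx.lo ⟨N, i⟩ ≤ y → y ≤ Vx.lo ⟨N, i + n⟩ →
      SameBlock M B (Vx.lo ⟨N, i⟩) y → SameBlock M B (f (Vx.lo ⟨N, i⟩)) (f y) := by
    intro n
    induction n with
    | zero =>
      intro i y h1 h2 h3
      simp only [Nat.cast_zero, add_zero] at h2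
      have := le_antisymm h1 h2
      subst this
      have h4 := h3
      exact piece ⟨N, i⟩ le_rfl _ _ ⟨le_rfl, (Vx.lo_lt_hi _).le⟩ ⟨le_rfl, (Vx.lo_lt_hi _).le⟩ h4
    | succ n ih =>
      intro i y h1 h2 h3
      have e : Vx.hi ⟨N, i⟩ = Vx.lo ⟨N, i + 1⟩ := by simp [Vx.hi, Vx.lo, Vx.pt]
      rcases le_total y (Vx.hi ⟨N, i⟩) with h | h
      · exact piece ⟨N, i⟩ le_rfl _ _ ⟨le_rfl, (Vx.lo_lt_hi _).le⟩ ⟨h1, h⟩ h3
      · obtain ⟨h4, h5⟩ := conv h3 (Vx.lo_lt_hi ⟨N, i⟩).le h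
        have h6 := piece ⟨N, i⟩ le_rfl _ _ ⟨le_rfl, (Vx.lo_lt_hi _).le⟩
          ⟨(Vx.lo_lt_hi _).le, le_rfl⟩ h4
        rw [e] at h5 h6 h
        have h7 := ih (i + 1) y h (by
          rw [show i + 1 + (n:ℤ) = i + ((n + 1 : ℕ) : ℤ) by push_cast; ring]; exact h2) h5
        exact h6.trans hB h7
  have main : ∀ x y, x ≤ y → SameBlock M B x y → SameBlock M B (f x) (f y) := by
    intro x y hxy h
    obtain ⟨v, hv, h0, h1⟩ := Vx.exists_mem N x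
    rcases le_total y v.hi with h2 | h2
    · exact piece v hv.ge _ _ ⟨h0, h1.le⟩ ⟨h0.trans hxy, h2⟩ h
    · obtain ⟨h4, h5⟩ := conv h h1.le h2
      have h6 := piece v hv.ge _ _ ⟨h0, h1.le⟩ ⟨(Vx.lo_lt_hi _).le, le_rfl⟩ h4
      have e : v.hi = Vx.lo ⟨N, v.i + 1⟩ := by simp [Vx.hi, Vx.lo, Vx.pt, hv]
      obtain ⟨w, hw, hw0, hw1⟩ := Vx.exists_mem N y
      have e2 : w.hi = Vx.lo ⟨N, w.i + 1⟩ := by simp [Vx.hi, Vx.lo, Vx.pt, hw]
      have h8 : v.i + 1 ≤ w.i + 1 := by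
        have h9 : Vx.lo ⟨N, v.i + 1⟩ < Vx.lo ⟨N, w.i + 1⟩ := by
          rw [← e, ← e2]; exact lt_of_le_of_lt h2 hw1
        simp only [Vx.lo, Vx.pt, add_zero] at h9
        rw [mul_lt_mul_iff_left₀ (two_zpow_pos _)] at h9
        exact_mod_cast h9.le
      obtain ⟨n, hn⟩ := Int.le.dest h8
      rw [e] at h5 h6 h2
      have h7 := grid n (v.i + 1) y h2 (by rw [hn, ← e2]; exact hw1.le) h5
      exact h6.trans hB h7
  rcases le_total x y with h1 | h1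
  · exact main x y h1 h
  · exact (main y x h1 h.symm).symm

/-- if M is dense then it has no nontrivial convex block -/
lemma no_block (hCl : Cl M = F) {B : Set ℚ} (hB : IsBlock M B) (hc : B.OrdConnected)
    {b1 b2 d : ℚ} (hb1 : Dy b1) (hb2 : Dy b2) (hd : Dy d) (h0 : 0 < b1) (h1 : b1 < b2)
    (h2 : b2 < 1) (b1B : b1 ∈ B) (b2B : b2 ∈ B) (d0 : 0 < d) (d1 : d < 1) (dB : d ∉ B) : False := by
  obtain ⟨g, hg, hg'⟩ := exists_F_sep hb1 hb2 hd h0 h1 h2 d0 d1 (fun h => dB (h ▸ b1B))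
  rw [← hCl] at hg
  have s12 : SameBlock M B b1 b2 := ⟨1, M.one_mem, b1B, b2B⟩
  have := Cl.sameBlock hB hc hg s12
  rcases hg' with ⟨e1, e2⟩ | ⟨e1, e2⟩
  · rw [e1, e2] at this
    exact dB ((hB.same_iff_of_mem b1B).1 this)
  · rw [e1, e2] at this
    exact dB ((hB.same_iff_of_mem b2B).1 this.symm)

lemma exists_two_dy {x y : ℚ} (h : x < y) : ∃ a b, Dy a ∧ Dy b ∧ x < a ∧ a < b ∧ b < y := by
  obtain ⟨b, hb, h1, h2⟩ := exists_dy_between h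
  obtain ⟨a, ha, h3, h4⟩ := exists_dy_between h1
  exact ⟨a, b, ha, hb, h3, h4, h2⟩

/-- elements of M trivial on a neighbourhood of (-∞, a] -/
def Wp (M : Subgroup Q) (a : ℚ) : Subgroup Q where
  carrier := {m | m ∈ M ∧ ∃ b, a < b ∧ ∀ x, x ≤ b → m x = x}
  one_mem' := ⟨M.one_mem, a + 1, by linarith, fun _ _ => rfl⟩
  mul_mem' := by
    rintro f g ⟨hf, b, hb, hfb⟩ ⟨hg, c, hc, hgc⟩
    refine ⟨M.mul_mem hf hg, min b c, lt_min hb hc, fun x hx => ?_⟩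
    rw [RelIso.mul_apply, hgc x (hx.trans (min_le_right _ _)), hfb x (hx.trans (min_le_left _ _))]
  inv_mem' := by
    rintro f ⟨hf, b, hb, hfb⟩
    refine ⟨M.inv_mem hf, b, hb, fun x hx => ?_⟩
    conv_lhs => rw [← hfb x hx]
    exact RelIso.inv_apply_self _ _

lemma Wp.fam (M : Subgroup Q) : Fam M (Wp M) where
  le a := fun m hm => hm.1
  anti a b hab := by
    rintro m ⟨hm, c, hc, h⟩
    exact ⟨hm, c, lt_of_le_of_lt hab hc, h⟩
  conj a m hm w hw := by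
    obtain ⟨hw, b, hb, h⟩ := hw
    refine ⟨M.mul_mem (M.mul_mem hm hw) (M.inv_mem hm), m b, m.strictMono hb, fun x hx => ?_⟩
    have h1 : m⁻¹ x ≤ b := by
      rw [← RelIso.inv_apply_self m b]; exact (m⁻¹).monotone hx
    rw [RelIso.mul_apply, RelIso.mul_apply, h _ h1, RelIso.apply_inv_self]
  fix a w hw := by
    obtain ⟨-, b, hb, h⟩ := hw
    exact h a hb.le

/-- equivariance of equality of the groups of a family -/
lemma Fam.eq_map {W : ℚ → Subgroup Q} (hW : Fam M W) {a b : ℚ} (h : W a = W b) {m : Q} (hm : m ∈ M) :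
    W (m a) = W (m b) := by
  have key : ∀ a b, W a = W b → W (m a) ≤ W (m b) := by
    intro a b h w hw
    have h1 := hW.conj _ m⁻¹ (M.inv_mem hm) w hw
    rw [inv_inv, RelIso.inv_apply_self, h] at h1
    have h2 := hW.conj _ m hm _ h1
    have e : m * (m⁻¹ * w * m) * m⁻¹ = w := by group
    rwa [e] at h2
  exact le_antisymm (key a b h) (key b a h.symm)

/-- a monotone equivariant labelling gives blocks -/
lemma label_block {τ : Type*} (L : ℚ → τ) (hL : ∀ m ∈ M, ∀ a b, L a = L b → L (m a) = L (m b))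
    (a : ℚ) : IsBlock M {x | L x = L a} := by
  intro m hm x hx hmx y hy
  have h1 : L y = L x := Eq.trans hy (Eq.symm hx)
  have h2 := hL m hm y x h1
  exact h2.trans hmx

end

end Pool.Agent.ThF
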