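import Pool.Agent.Lib.MP_a06c1e_al.Tree

set_option autoImplicit false

namespace Pool.Agent.ThF
open Vx BT

/-- the concrete data of homeomorphisms attached to vertices and colours -/
structure Conc {S : Type*} (G : Subgroup Q) (c : Vx → S) (A Z : S → Q) (H K : Vx → Q) :
    Prop where
  hHK : ∀ v : Vx, v.In → H v = A (c v) * K v
  hinv : ∀ g ∈ G, ∀ v w : Vx, v.In → Lin g v w → ∀ x, v.mem x → K w (g x) = K v x
  hZ0 : ∀ v : Vx, v.In → ∀ x, v.c0.mem x → Z (c v) (K v x) = K v.c0 x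
  hZ1 : ∀ v : Vx, v.In → ∀ x, v.c1.mem x → A (c v.c0) (Z (c v) (K v x)) = K v.c1 x
  b1 : ∀ v : Vx, v.In → H v.c0 v.c0.hi = K v.c1 v.c1.lo
  b2 : ∀ v : Vx, v.In → K v.c0 v.c0.lo = K v v.lo
  b3 : ∀ v : Vx, v.In → H v.c1 v.c1.hi = H v v.hi
  zm : ∀ v : Vx, v.In → ∀ x, x ≤ K v v.lo → Z (c v) x = x
  mp : ∀ v : Vx, v.In → ∀ x, H v v.hi ≤ x →
    A (c v.c1) (A (c v.c0) (Z (c v) ((A (c v))⁻¹ x))) = x
  AF : ∀ s, A s ∈ F
  ZF : ∀ s, Z s ∈ F
  KF : K root ∈ F

section
variable {S : Type*} {s0 s1 : S → S} {G : Subgroup Q} {c : Vx → S} {A Z : S → Q} {H K : Vx → Q}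

lemma Conc.ii (C : Conc G c A Z H K) (hc : Coloring G s0 s1 c) : ∀ (T : BT) (v : Vx), v.In →
    ∀ x, H v v.hi ≤ x → Om s0 s1 A Z (c v) T ((A (c v))⁻¹ x) = x
  | lf, v, hv, x, hx => by rw [Om, RelIso.apply_inv_self]
  | nd a b, v, hv, x, hx => by
    rw [Om, RelIso.mul_apply, RelIso.mul_apply, ← hc.c0 v hv, ← hc.c1 v hv]
    have hm := C.mp v hv x hx
    obtain ⟨y, hy⟩ : ∃ y, y = Z (c v) ((A (c v))⁻¹ x) := ⟨_, rfl⟩
    rw [← hy] at hm ⊢
    have h1 : H v.c1 v.c1.hi ≤ x := by rw [C.b3 v hv]; exact hx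
    have h2 : A (c v.c0) y = (A (c v.c1))⁻¹ x := (inv_of_eq hm).symm
    have h3 : H v.c0 v.c0.hi ≤ A (c v.c0) y := by
      rw [h2, C.b1 v hv]
      have h4 : K v.c1 v.c1.hi ≤ (A (c v.c1))⁻¹ x := by
        have h5 := (A (c v.c1))⁻¹.monotone h1
        rw [C.hHK v.c1 hv.c1, RelIso.mul_apply, RelIso.inv_apply_self] at h5
        exact h5
      exact ((K v.c1).monotone v.c1.lo_lt_hi.le).trans h4
    have h6 := C.ii hc a v.c0 hv.c0 _ h3
    rw [RelIso.inv_apply_self] at h6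
    rw [h6, h2]
    exact C.ii hc b v.c1 hv.c1 x h1

/-- the image of the right endpoint -/
lemma Conc.right (C : Conc G c A Z H K) (hc : Coloring G s0 s1 c) (T : BT) (v : Vx) (hv : v.In) :
    Om s0 s1 A Z (c v) T (K v v.hi) = H v v.hi := by
  have h := C.ii hc T v hv _ le_rfl
  rw [C.hHK v hv, RelIso.mul_apply, RelIso.inv_apply_self] at h
  rw [h, C.hHK v hv, RelIso.mul_apply]

lemma Conc.i (C : Conc G c A Z H K) (hc : Coloring G s0 s1 c) : ∀ (T : BT) (v : Vx), v.In →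
    ∀ x, x ≤ K v v.lo → Om s0 s1 A Z (c v) T x = Ap A (lab s0 s1 (c v) T) x
  | lf, v, hv, x, hx => by rw [Om, lab, Ap, Ap, one_mul]
  | nd a b, v, hv, x, hx => by
    rw [Om, lab, Ap_append, RelIso.mul_apply, RelIso.mul_apply, RelIso.mul_apply,
      ← hc.c0 v hv, ← hc.c1 v hv, C.zm v hv x hx]
    have h1 : x ≤ K v.c0 v.c0.lo := by rw [C.b2 v hv]; exact hx
    have h2 := C.i hc a v.c0 hv.c0 x h1
    have h3 : Om s0 s1 A Z (c v.c0) a x ≤ K v.c1 v.c1.lo := by
      rw [← C.b1 v hv, ← C.right hc a v.c0 hv.c0]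
      exact (Om s0 s1 A Z (c v.c0) a).monotone
        (h1.trans ((K v.c0).monotone v.c0.lo_lt_hi.le))
    rw [C.i hc b v.c1 hv.c1 _ h3, h2]

lemma Conc.iii (C : Conc G c A Z H K) (hc : Coloring G s0 s1 c) : ∀ (T : BT) (v : Vx), v.In →
    ∀ (L0 : List Vx) (w : Vx) (L1 : List Vx), leaves v T = L0 ++ w :: L1 → ∀ x, w.mem x →
      Om s0 s1 A Z (c v) T (K v x) = Ap A (L1.map c) (H w x)
  | lf, v, hv, L0, w, L1, h, x, hx => by
    have h1 : L0 = [] ∧ w = v ∧ L1 = [] := by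
      rw [leaves] at h
      cases L0 with
      | nil =>
        simp only [List.nil_append, List.cons.injEq] at h
        exact ⟨rfl, h.1.symm, h.2.symm⟩
      | cons y L0 =>
        exfalso
        have := congrArg List.length h
        simp at this
    obtain ⟨rfl, rfl, rfl⟩ := h1
    rw [Om, List.map_nil, Ap, RelIso.one_apply, C.hHK w hv, RelIso.mul_apply]
  | nd a b, v, hv, L0, w, L1, h, x, hx => by
    rw [Om, RelIso.mul_apply, RelIso.mul_apply, ← hc.c0 v hv, ← hc.c1 v hv]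
    rw [leaves] at h
    have rightcase : ∀ L0' : List Vx, leaves v.c1 b = L0' ++ w :: L1 →
        Om s0 s1 A Z (c v.c1) b (Om s0 s1 A Z (c v.c0) a (Z (c v) (K v x))) =
          Ap A (L1.map c) (H w x) := by
      intro L0' h'
      have hb := (leaves_chain b v.c1).bounds w (by rw [h']; simp)
      have hx1 : v.c1.mem x := ⟨hb.1.trans hx.1, hx.2.trans hb.2⟩
      have h1 := C.hZ1 v hv x hx1
      have h2 : H v.c0 v.c0.hi ≤ K v.c1 x := by
        rw [C.b1 v hv]; exact (K v.c1).monotone hx1.1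
      have h3 := C.ii hc a v.c0 hv.c0 _ h2
      rw [← h1, RelIso.inv_apply_self, h1] at h3
      rw [h3]
      exact C.iii hc b v.c1 hv.c1 L0' w L1 h' x hx
    rcases List.append_eq_append_iff.1 h with ⟨a', h1, h2⟩ | ⟨c', h1, h2⟩
    · exact rightcase a' h2
    · cases c' with
      | nil => exact rightcase [] (by rw [List.nil_append] at h2 ⊢; exact h2.symm)
      | cons y c'' =>
        rw [List.cons_append, List.cons.injEq] at h2
        obtain ⟨rfl, rfl⟩ := h2
        have hb := (leaves_chain a v.c0).bounds w (by rw [h1]; simp)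
        have hx0 : v.c0.mem x := ⟨hb.1.trans hx.1, hx.2.trans hb.2⟩
        rw [C.hZ0 v hv x hx0]
        have h3 := C.iii hc a v.c0 hv.c0 L0 w c'' h1 x hx
        have h4 : Om s0 s1 A Z (c v.c0) a (K v.c0 x) ≤ K v.c1 v.c1.lo := by
          rw [← C.b1 v hv, ← C.right hc a v.c0 hv.c0]
          exact (Om s0 s1 A Z (c v.c0) a).monotone ((K v.c0).monotone hx0.2)
        rw [C.i hc b v.c1 hv.c1 _ h4, h3, List.map_append, Ap_append, RelIso.mul_apply,
          hc.lab_eq b _ hv.c1]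

lemma forall2_split {R : Vx → Vx → Prop} : ∀ {L0 : List Vx} {w : Vx} {L1 L' : List Vx},
    List.Forall₂ R (L0 ++ w :: L1) L' → ∃ L0' w' L1', L' = L0' ++ w' :: L1' ∧ R w w' ∧
      List.Forall₂ R L1 L1'
  | [], w, L1, _, .cons h hs => ⟨[], _, _, rfl, h, hs⟩
  | y :: L0, w, L1, _, .cons h hs => by
    obtain ⟨L0', w', L1', rfl, h1, h2⟩ := forall2_split hs
    exact ⟨_ :: L0', w', L1', rfl, h1, h2⟩

lemma Om_mem_F (hA : ∀ s, A s ∈ F) (hZ : ∀ s, Z s ∈ F) : ∀ (T : BT) (s : S),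
    Om s0 s1 A Z s T ∈ F
  | lf, s => hA s
  | nd a b, s => F.mul_mem (F.mul_mem (Om_mem_F hA hZ b _) (Om_mem_F hA hZ a _)) (hZ s)

/-- the concrete lemma -/
theorem Conc.main (C : Conc G c A Z H K) (hc : Coloring G s0 s1 c) {g : Q} (hg : g ∈ G)
    {T T' : BT} (h : Maps g T T') : tv s0 s1 A Z c T T' = K root * g * (K root)⁻¹ := by
  have key : Om s0 s1 A Z (c root) T * K root = Om s0 s1 A Z (c root) T' * K root * g := by
    have hgF := hc.le hg
    have o1 : Om s0 s1 A Z (c root) T ∈ F := Om_mem_F C.AF C.ZF T _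
    have o2 : Om s0 s1 A Z (c root) T' ∈ F := Om_mem_F C.AF C.ZF T' _
    have e1 := F.mul_mem o1 C.KF
    have e2 := F.mul_mem (F.mul_mem o2 C.KF) hgF
    ext x
    rcases lt_or_ge x 0 with h0 | h0
    · rw [F.zero e1 h0.le, F.zero e2 h0.le]
    · rcases lt_or_ge x 1 with h1 | h1
      · obtain ⟨w, hw, hw0, hw1⟩ := (leaves_chain T root).exists_mem x (by rw [root_lo]; exact h0)
          (by rw [root_hi]; exact h1)
        obtain ⟨L0, L1, hL⟩ := List.append_of_mem hw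
        have h' : List.Forall₂ (Lin g) (L0 ++ w :: L1) (leaves root T') := by
          rw [← hL]; exact h
        obtain ⟨L0', w', L1', hL', hww, hr⟩ := forall2_split h'
        have hx : w.mem x := ⟨hw0, hw1.le⟩
        have hx' : w'.mem (g x) := hww.mem hx
        have hwin : w.In := leaves_in T root root_in w hw
        have hwin' : w'.In := leaves_in T' root root_in w' (by rw [hL']; simp)
        rw [RelIso.mul_apply, RelIso.mul_apply, RelIso.mul_apply,
          C.iii hc T root root_in L0 w L1 hL x hx,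
          C.iii hc T' root root_in L0' w' L1' hL' _ hx']
        have e3 : L1.map c = L1'.map c := hc.map_eq hg (fun v hv =>
          leaves_in T root root_in v (by rw [hL]; simp [hv])) hr
        rw [e3, C.hHK w hwin, C.hHK w' hwin', RelIso.mul_apply, RelIso.mul_apply,
          C.hinv g hg w w' hwin hww x hx, hc.inv g hg w w' hwin hww]
      · rw [F.one e1 h1, F.one e2 h1]
  rw [tv]
  have e : (Om s0 s1 A Z (c root) T')⁻¹ * (Om s0 s1 A Z (c root) T * K root) = K root * g := by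
    rw [key, mul_assoc, inv_mul_cancel_left]
  rw [← e]
  simp only [mul_assoc, mul_inv_cancel, mul_one]

end

end Pool.Agent.ThF
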