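import Pool.Agent.Lib.MP_a06c1e_al.Concrete

set_option autoImplicit false

namespace Pool.Agent.ThF
open Vx BT

/-- the group G is closed under gluing at dyadic points -/
def Glu (G : Subgroup Q) : Prop :=
  ∀ (f g : Q) (a : ℚ) (h : f a = g a), f ∈ G → g ∈ G → Dy a → glue f g a h ∈ G

/-- vertices in [0,1] -/
abbrev VI := {v : Vx // v.In}

/-- the orbit setoid -/
def vset (G : Subgroup Q) : Setoid VI where
  r v w := VRel G v.1 w.1
  iseqv := ⟨fun v => VRel.refl G v.1, fun h => h.symm, fun h h' => h.trans h'⟩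

/-- colours -/
def Co (G : Subgroup Q) : Type := Quotient (vset G)

variable {G : Subgroup Q}

lemma co_finite (h : FinV G Vx.In) : Finite (Co G) := by
  obtain ⟨ι, hι, c, hc⟩ := h
  refine Finite.of_injective (fun s : Co G => c (Quotient.out s).1) ?_
  intro s t hst
  have h1 := hc _ _ (Quotient.out s).2 (Quotient.out t).2 hst
  have h2 : (⟦Quotient.out s⟧ : Quotient (vset G)) = ⟦Quotient.out t⟧ := Quotient.sound h1
  rw [Quotient.out_eq, Quotient.out_eq] at h2
  exact h2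

/-- the colour -/
noncomputable def col (G : Subgroup Q) (v : Vx) : Co G := by
  classical
  exact if h : v.In then Quotient.mk (vset G) ⟨v, h⟩ else Quotient.mk (vset G) ⟨root, root_in⟩

lemma col_of_in {v : Vx} (h : v.In) : col G v = Quotient.mk (vset G) ⟨v, h⟩ := by
  rw [col, dif_pos h]

/-- representative vertex -/
noncomputable def rep (s : Co G) : Vx := (Quotient.out s).1

lemma rep_in (s : Co G) : (rep s).In := (Quotient.out s).2

lemma col_rep (s : Co G) : col G (rep s) = s := by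
  rw [col_of_in (rep_in s)]
  exact Quotient.out_eq s

lemma col_eq {v w : Vx} (hv : v.In) (hw : w.In) (h : VRel G v w) : col G v = col G w := by
  rw [col_of_in hv, col_of_in hw]
  exact Quotient.sound h

lemma rel_of_col {v w : Vx} (hv : v.In) (hw : w.In) (h : col G v = col G w) : VRel G v w := by
  rw [col_of_in hv, col_of_in hw] at h
  exact Quotient.exact h

lemma rel_rep {v : Vx} (hv : v.In) : VRel G v (rep (col G v)) :=
  rel_of_col hv (rep_in _) (col_rep _).symm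

/-- left child on colours -/
noncomputable def t0 (s : Co G) : Co G := col G (rep s).c0
/-- right child on colours -/
noncomputable def t1 (s : Co G) : Co G := col G (rep s).c1

lemma coloring (hG : G ≤ F) : Coloring G t0 t1 (col G) where
  le := hG
  c0 v hv := by
    obtain ⟨g, hg, hgl⟩ := rel_rep (G := G) hv
    exact col_eq hv.c0 (rep_in _).c0 ⟨g, hg, hgl.c0⟩
  c1 v hv := by
    obtain ⟨g, hg, hgl⟩ := rel_rep (G := G) hv
    exact col_eq hv.c1 (rep_in _).c1 ⟨g, hg, hgl.c1⟩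
  inv g hg v w hv h := col_eq hv (h.in (hG hg) hv) ⟨g, hg, h⟩

/-- base point of an orbit -/
noncomputable def bs (G : Subgroup Q) (x : ℚ) : ℚ := Classical.epsilon (fun y => ∃ g ∈ G, g x = y)

lemma bs_spec (G : Subgroup Q) (x : ℚ) : ∃ g ∈ G, g x = bs G x :=
  Classical.epsilon_spec (p := fun y => ∃ g ∈ G, g x = y) ⟨x, 1, G.one_mem, rfl⟩

lemma bs_eq {g : Q} (hg : g ∈ G) (x : ℚ) : bs G (g x) = bs G x := by
  rw [bs, bs]
  congr 1
  ext y
  constructor
  · rintro ⟨h, hh, rfl⟩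
    exact ⟨h * g, G.mul_mem hh hg, rfl⟩
  · rintro ⟨h, hh, rfl⟩
    exact ⟨h * g⁻¹, G.mul_mem hh (G.inv_mem hg), by rw [RelIso.mul_apply, RelIso.inv_apply_self]⟩

/-- element moving a point to its base point -/
noncomputable def rh (G : Subgroup Q) (x : ℚ) : Q := Classical.choose (bs_spec G x)

lemma rh_mem (G : Subgroup Q) (x : ℚ) : rh G x ∈ G := (Classical.choose_spec (bs_spec G x)).1
lemma rh_apply (G : Subgroup Q) (x : ℚ) : rh G x x = bs G x := (Classical.choose_spec (bs_spec G x)).2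

/-- linear element to the representative -/
noncomputable def em (G : Subgroup Q) (v : Vx) : Q := by
  classical
  exact if h : v.In then Classical.choose (rel_rep (G := G) h) else 1

lemma em_mem (G : Subgroup Q) (v : Vx) : em G v ∈ G := by
  rw [em]
  split_ifs with h
  · exact (Classical.choose_spec (rel_rep (G := G) h)).1
  · exact G.one_mem

lemma em_lin {v : Vx} (h : v.In) : Lin (em G v) v (rep (col G v)) := by
  rw [em, dif_pos h]
  exact (Classical.choose_spec (rel_rep (G := G) h)).2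

/-- h_s -/
noncomputable def hs (s : Co G) : Q := rh G (rep s).hi
/-- k_s -/
noncomputable def ks (s : Co G) : Q := rh G (rep s).lo
/-- A_s -/
noncomputable def As (s : Co G) : Q := hs s * (ks s)⁻¹
/-- H_v -/
noncomputable def HH (G : Subgroup Q) (v : Vx) : Q := hs (col G v) * em G v
/-- K_v -/
noncomputable def KK (G : Subgroup Q) (v : Vx) : Q := ks (col G v) * em G v

lemma As_mem (s : Co G) : As s ∈ G := G.mul_mem (rh_mem G _) (G.inv_mem (rh_mem G _))
lemma HH_mem (G : Subgroup Q) (v : Vx) : HH G v ∈ G := G.mul_mem (rh_mem G _) (em_mem G v)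
lemma KK_mem (G : Subgroup Q) (v : Vx) : KK G v ∈ G := G.mul_mem (rh_mem G _) (em_mem G v)

lemma HH_eq (v : Vx) : HH G v = As (col G v) * KK G v := by
  rw [HH, As, KK]; simp only [mul_assoc, inv_mul_cancel_left]

lemma KK_lo {v : Vx} (hv : v.In) : KK G v v.lo = bs G v.lo := by
  rw [KK, RelIso.mul_apply, (em_lin hv).lo, ks, rh_apply, ← (em_lin (G := G) hv).lo,
    bs_eq (em_mem G v)]

lemma HH_hi {v : Vx} (hv : v.In) : HH G v v.hi = bs G v.hi := by
  rw [HH, RelIso.mul_apply, (em_lin hv).hi, hs, rh_apply, ← (em_lin (G := G) hv).hi,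
    bs_eq (em_mem G v)]

lemma KK_inv (hG : G ≤ F) {g : Q} (hg : g ∈ G) {v w : Vx} (hv : v.In) (h : Lin g v w) {x : ℚ}
    (hx : v.mem x) : KK G w (g x) = KK G v x := by
  have hw : w.In := h.in (hG hg) hv
  have hc : col G v = col G w := col_eq hv hw ⟨g, hg, h⟩
  obtain ⟨t, h0, h1, rfl⟩ := (v.mem_iff x).1 hx
  rw [KK, KK, RelIso.mul_apply, RelIso.mul_apply, h t h0 h1, em_lin hw t h0 h1,
    em_lin hv t h0 h1, hc]

lemma Vx.In.mid_dy (v : Vx) : Dy v.c0.hi := by rw [c0_hi_eq]; exact v.c1.dy_lo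

/-- existence of the element Q_v -/
lemma exists_Qv (hgl : Glu G) {v : Vx} (hv : v.In) : ∃ q ∈ G,
    (∀ x, x ≤ v.lo → q x = KK G v x) ∧ (∀ x, v.c0.mem x → q x = KK G v.c0 x) ∧
    (∀ x, v.c1.mem x → q x = (As (col G v.c0))⁻¹ (KK G v.c1 x)) ∧
    (∀ x, v.hi ≤ x → q x = (As (col G v.c0))⁻¹ ((As (col G v.c1))⁻¹ (HH G v x))) := by
  have e1 : KK G v v.lo = KK G v.c0 v.lo := by
    have := KK_lo (G := G) hv.c0
    rw [c0_lo] at this
    rw [this, KK_lo hv]
  have e2 : KK G v.c0 v.c0.hi = ((As (col G v.c0))⁻¹ * KK G v.c1) v.c0.hi := by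
    rw [RelIso.mul_apply]
    symm
    apply inv_of_eq
    rw [← RelIso.mul_apply, ← HH_eq, HH_hi hv.c0, c0_hi_eq, KK_lo hv.c1]
  have e3 : ((As (col G v.c0))⁻¹ * KK G v.c1) v.hi =
      ((As (col G v.c0))⁻¹ * ((As (col G v.c1))⁻¹ * HH G v)) v.hi := by
    rw [RelIso.mul_apply, RelIso.mul_apply, RelIso.mul_apply]
    congr 1
    symm
    apply inv_of_eq
    rw [← RelIso.mul_apply, ← HH_eq, HH_hi hv]
    have := HH_hi (G := G) hv.c1
    rw [c1_hi] at this
    rw [this]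
  have hlm : v.lo ≤ v.c0.hi := by rw [← c0_lo]; exact v.c0.lo_lt_hi.le
  have hmh : v.c0.hi ≤ v.hi := by rw [c0_hi_eq, ← c1_hi]; exact v.c1.lo_lt_hi.le
  -- glue the last two
  obtain ⟨q3, hq3, hq3a, hq3b⟩ : ∃ q ∈ G,
      (∀ x, x ≤ v.hi → q x = ((As (col G v.c0))⁻¹ * KK G v.c1) x) ∧
      (∀ x, v.hi ≤ x → q x = ((As (col G v.c0))⁻¹ * ((As (col G v.c1))⁻¹ * HH G v)) x) :=
    ⟨glue _ _ v.hi e3, hgl _ _ _ _ (G.mul_mem (G.inv_mem (As_mem _)) (KK_mem G _))
      (G.mul_mem (G.inv_mem (As_mem _)) (G.mul_mem (G.inv_mem (As_mem _)) (HH_mem G _))) v.dy_hi,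
      fun x hx => glue_of_le e3 hx, fun x hx => glue_of_ge e3 hx⟩
  have e2' : KK G v.c0 v.c0.hi = q3 v.c0.hi := by rw [hq3a _ hmh, e2]
  obtain ⟨q2, hq2, hq2a, hq2b⟩ : ∃ q ∈ G, (∀ x, x ≤ v.c0.hi → q x = KK G v.c0 x) ∧
      (∀ x, v.c0.hi ≤ x → q x = q3 x) :=
    ⟨glue _ _ v.c0.hi e2', hgl _ _ _ _ (KK_mem G _) hq3 (Vx.In.mid_dy v),
      fun x hx => glue_of_le e2' hx, fun x hx => glue_of_ge e2' hx⟩
  have e1' : KK G v v.lo = q2 v.lo := by rw [hq2a _ hlm, e1]
  refine ⟨glue _ _ v.lo e1', hgl _ _ _ _ (KK_mem G _) hq2 v.dy_lo, fun x hx => glue_of_le _ hx,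
    fun x hx => ?_, fun x hx => ?_, fun x hx => ?_⟩
  · obtain ⟨h1, h2⟩ := hx
    rw [c0_lo] at h1
    rw [glue_of_ge _ h1, hq2a x h2]
  · obtain ⟨h1, h2⟩ := hx
    rw [← c0_hi_eq] at h1
    rw [c1_hi] at h2
    rw [glue_of_ge _ (hlm.trans h1), hq2b x h1, hq3a x h2]; rfl
  · rw [glue_of_ge _ (hlm.trans (hmh.trans hx)), hq2b x (hmh.trans hx), hq3b x hx]; rfl

/-- the elements Z_s exist -/
lemma exists_Zs (hG : G ≤ F) (hgl : Glu G) : ∃ Z : Co G → Q, (∀ s, Z s ∈ G) ∧
    Conc G (col G) As Z (HH G) (KK G) := by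
  have hex : ∀ s : Co G, ∃ q ∈ G, _ := fun s => exists_Qv hgl (rep_in s)
  choose q hq hq1 hq2 hq3 hq4 using hex
  have hc := coloring hG
  have hZG : ∀ s, q s * (KK G (rep s))⁻¹ ∈ G := fun s => G.mul_mem (hq s) (G.inv_mem (KK_mem G _))
  refine ⟨fun s => q s * (KK G (rep s))⁻¹, hZG, ?_⟩
  have kinv : ∀ v : Vx, v.In → ∀ x, v.mem x →
      (KK G (rep (col G v)))⁻¹ (KK G v x) = em G v x := by
    intro v hv x hx
    apply inv_of_eq
    exact KK_inv hG (em_mem G v) hv (em_lin hv) hx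
  have sub0 : ∀ v : Vx, ∀ x, v.c0.mem x → v.mem x := by
    rintro v x ⟨h1, h2⟩
    refine ⟨by rwa [c0_lo] at h1, h2.trans ?_⟩
    rw [c0_hi_eq, ← c1_hi]; exact v.c1.lo_lt_hi.le
  have sub1 : ∀ v : Vx, ∀ x, v.c1.mem x → v.mem x := by
    rintro v x ⟨h1, h2⟩
    refine ⟨le_trans ?_ h1, by rwa [c1_hi] at h2⟩
    rw [← c0_hi_eq, ← c0_lo]; exact v.c0.lo_lt_hi.le
  have klo : ∀ v : Vx, v.In → KK G v v.lo = KK G (rep (col G v)) (rep (col G v)).lo := by
    intro v hv
    rw [← KK_inv hG (em_mem G v) hv (em_lin hv) ⟨le_rfl, v.lo_lt_hi.le⟩, (em_lin hv).lo]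
  have hhi : ∀ v : Vx, v.In → HH G v v.hi = HH G (rep (col G v)) (rep (col G v)).hi := by
    intro v hv
    rw [HH_hi hv, HH_hi (rep_in _), ← (em_lin (G := G) hv).hi, bs_eq (em_mem G v)]
  exact {
    hHK := fun v _ => HH_eq v
    hinv := fun g hg v w hv h x hx => KK_inv hG hg hv h hx
    hZ0 := fun v hv x hx => by
      rw [RelIso.mul_apply, kinv v hv x (sub0 v x hx), hq2 _ _ ((em_lin hv).c0.mem hx)]
      exact KK_inv hG (em_mem G v) hv.c0 (em_lin hv).c0 hx
    hZ1 := fun v hv x hx => by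
      rw [RelIso.mul_apply, kinv v hv x (sub1 v x hx), hq3 _ _ ((em_lin hv).c1.mem hx)]
      have e : col G v.c0 = col G (rep (col G v)).c0 := hc.c0 v hv
      rw [e, RelIso.apply_inv_self]
      exact KK_inv hG (em_mem G v) hv.c1 (em_lin hv).c1 hx
    b1 := fun v hv => by rw [HH_hi hv.c0, KK_lo hv.c1, c0_hi_eq]
    b2 := fun v hv => by rw [KK_lo hv.c0, KK_lo hv, c0_lo]
    b3 := fun v hv => by rw [HH_hi hv.c1, HH_hi hv, c1_hi]
    zm := fun v hv x hx => by
      rw [klo v hv] at hx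
      have h1 : (KK G (rep (col G v)))⁻¹ x ≤ (rep (col G v)).lo := by
        have := (KK G (rep (col G v)))⁻¹.monotone hx
        rwa [RelIso.inv_apply_self] at this
      rw [RelIso.mul_apply, hq1 _ _ h1, RelIso.apply_inv_self]
    mp := fun v hv x hx => by
      rw [hhi v hv] at hx
      have h1 : (rep (col G v)).hi ≤ (HH G (rep (col G v)))⁻¹ x := by
        have := (HH G (rep (col G v)))⁻¹.monotone hx
        rwa [RelIso.inv_apply_self] at this
      have h2 : (KK G (rep (col G v)))⁻¹ ((As (col G v))⁻¹ x) = (HH G (rep (col G v)))⁻¹ x := by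
        rw [HH_eq, col_rep, mul_inv_rev, RelIso.mul_apply]
      have e0 : col G v.c0 = col G (rep (col G v)).c0 := hc.c0 v hv
      have e1 : col G v.c1 = col G (rep (col G v)).c1 := hc.c1 v hv
      rw [RelIso.mul_apply, h2, hq4 _ _ h1, RelIso.apply_inv_self, e0, e1, RelIso.apply_inv_self,
        RelIso.apply_inv_self]
    AF := fun s => hG (As_mem s)
    ZF := fun s => hG (hZG s)
    KF := hG (KK_mem G _) }

/-- the goodness of the concrete data -/
lemma good_concrete (hG : G ≤ F) {Z : Co G → Q} (hZ : ∀ s, Z s ∈ G)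
    (C : Conc G (col G) As Z (HH G) (KK G)) :
    Good t0 t1 As Z (fun s => Vg G (bs G (rep s).lo)) (fun s => Vg G (bs G (rep s).hi)) := by
  have hc := coloring hG
  have lo_eq : ∀ v : Vx, v.In → bs G (rep (col G v)).lo = bs G v.lo := fun v hv => by
    rw [← (em_lin (G := G) hv).lo, bs_eq (em_mem G v)]
  have hi_eq : ∀ v : Vx, v.In → bs G (rep (col G v)).hi = bs G v.hi := fun v hv => by
    rw [← (em_lin (G := G) hv).hi, bs_eq (em_mem G v)]
  refine ⟨fun s => ?_, fun s => ?_, fun s => ?_, fun s v hv => ?_, fun s v hv => ?_, fun s => ?_⟩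
  · rw [t0, lo_eq _ (rep_in s).c0, c0_lo]
  · rw [t0, t1, hi_eq _ (rep_in s).c0, lo_eq _ (rep_in s).c1, c0_hi_eq]
  · rw [t1, hi_eq _ (rep_in s).c1, c1_hi]
  · refine ⟨G.mul_mem (G.mul_mem (As_mem s) hv.1) (G.inv_mem (As_mem s)), fun x hx => ?_⟩
    have h1 : bs G (rep s).lo ≤ (As s)⁻¹ x := by
      have h2 : As s (bs G (rep s).lo) ≤ x := by
        refine le_trans ?_ hx
        have h3 : As s (bs G (rep s).lo) = HH G (rep s) (rep s).lo := by
          rw [HH_eq, col_rep, RelIso.mul_apply, KK_lo (rep_in s)]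
        rw [h3, ← HH_hi (rep_in s)]
        exact (HH G (rep s)).monotone (rep s).lo_lt_hi.le
      have := (As s)⁻¹.monotone h2
      rwa [RelIso.inv_apply_self] at this
    rw [RelIso.mul_apply, RelIso.mul_apply, hv.2 _ h1, RelIso.apply_inv_self]
  · have hzm := C.zm (rep s) (rep_in s)
    rw [KK_lo (rep_in s), col_rep] at hzm
    obtain ⟨hvG, hv1⟩ := hv
    ext x
    rw [RelIso.mul_apply, RelIso.mul_apply]
    rcases le_total x (bs G (rep s).lo) with hx | hx
    · have h1 : v x ≤ bs G (rep s).lo := by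
        rw [← hv1 _ le_rfl]; exact v.monotone hx
      rw [hzm _ h1, hzm _ hx]
    · have h1 : bs G (rep s).lo ≤ Z s x := by
        rw [← hzm _ le_rfl]; exact (Z s).monotone hx
      rw [hv1 _ hx, hv1 _ h1]
  · refine ⟨G.mul_mem (G.mul_mem (G.mul_mem (As_mem _) (As_mem _)) (hZ s)) (G.inv_mem (As_mem s)),
      fun x hx => ?_⟩
    have := C.mp (rep s) (rep_in s) x (by rw [HH_hi (rep_in s)]; exact hx)
    rw [col_rep, hc.c0 _ (rep_in s), hc.c1 _ (rep_in s), col_rep] at this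
    exact this

end Pool.Agent.ThF
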