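import Pool.Agent.Lib.MP_a06c1e_al.Data

set_option autoImplicit false

namespace Pool.Agent.ThF
open Vx BT

lemma Om_mem {S E : Type*} [Group E] {s0 s1 : S → S} {A Z : S → E} {D : Subgroup E}
    (hA : ∀ s, A s ∈ D) (hZ : ∀ s, Z s ∈ D) : ∀ (T : BT) (s : S), Om s0 s1 A Z s T ∈ D
  | lf, s => hA s
  | nd a b, s => D.mul_mem (D.mul_mem (Om_mem hA hZ b _) (Om_mem hA hZ a _)) (hZ s)

/-- FG lemma: a glueing-closed subgroup with finitely many orbits of vertices is f.g. -/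
theorem fg_of_finV {G : Subgroup Q} (hG : G ≤ F) (hgl : Glu G) (hfin : FinV G Vx.In) : G.FG := by
  haveI : Finite (Co G) := co_finite hfin
  obtain ⟨Z, hZ, C⟩ := exists_Zs hG hgl
  have hc := coloring hG
  rw [Subgroup.fg_iff]
  refine ⟨Set.range (As (G := G)) ∪ Set.range Z ∪ {KK G root}, ?_,
    ((Set.finite_range _).union (Set.finite_range _)).union (Set.finite_singleton _)⟩
  apply le_antisymm
  · rw [Subgroup.closure_le]
    rintro x ((⟨s, rfl⟩ | ⟨s, rfl⟩) | hx)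
    · exact As_mem s
    · exact hZ s
    · rw [Set.mem_singleton_iff] at hx
      rw [hx]; exact KK_mem G _
  · intro g hg
    obtain ⟨D, hD⟩ : ∃ D, D = Subgroup.closure (Set.range (As (G := G)) ∪ Set.range Z ∪ {KK G root}) :=
      ⟨_, rfl⟩
    rw [← hD]
    have hA : ∀ s : Co G, As s ∈ D := fun s => by
      rw [hD]; exact Subgroup.subset_closure (Or.inl (Or.inl ⟨s, rfl⟩))
    have hZ' : ∀ s : Co G, Z s ∈ D := fun s => by
      rw [hD]; exact Subgroup.subset_closure (Or.inl (Or.inr ⟨s, rfl⟩))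
    have hK : KK G root ∈ D := by
      rw [hD]; exact Subgroup.subset_closure (Or.inr rfl)
    obtain ⟨T, T', h⟩ := exists_maps (hG hg)
    have e := C.main hc hg h
    have e2 : g = (KK G root)⁻¹ * tv t0 t1 As Z (col G) T T' * KK G root := by
      rw [e]
      simp only [mul_assoc, inv_mul_cancel, mul_one, inv_mul_cancel_left]
    rw [e2, tv]
    exact D.mul_mem (D.mul_mem (D.inv_mem hK) (D.mul_mem (D.inv_mem (Om_mem hA hZ' _ _))
      (Om_mem hA hZ' _ _))) hK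

/-- conjugate subgroup -/
def cj (φ : Q) (V : Subgroup Q) : Subgroup Q where
  carrier := {g | φ⁻¹ * g * φ ∈ V}
  one_mem' := by
    show φ⁻¹ * 1 * φ ∈ V
    rw [mul_one, inv_mul_cancel]; exact V.one_mem
  mul_mem' := by
    intro f g hf hg
    show φ⁻¹ * (f * g) * φ ∈ V
    have := V.mul_mem hf hg
    simpa only [mul_assoc, mul_inv_cancel_left] using this
  inv_mem' := by
    intro f hf
    show φ⁻¹ * f⁻¹ * φ ∈ V
    have := V.inv_mem hf
    simpa only [mul_assoc, mul_inv_rev, inv_inv] using this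

lemma mem_cj {φ : Q} {V : Subgroup Q} {g : Q} : g ∈ cj φ V ↔ φ⁻¹ * g * φ ∈ V := Iff.rfl

lemma conj_mem_cj {φ : Q} {V : Subgroup Q} {g : Q} (hg : g ∈ V) : φ * g * φ⁻¹ ∈ cj φ V := by
  rw [mem_cj]
  simpa only [mul_assoc, inv_mul_cancel, mul_one, inv_mul_cancel_left] using hg

lemma fg_of_cj {φ : Q} {V : Subgroup Q} (h : (cj φ V).FG) : V.FG := by
  obtain ⟨S, hS, hf⟩ := (Subgroup.fg_iff _).1 h
  rw [Subgroup.fg_iff]
  refine ⟨(MulAut.conj φ⁻¹).toMonoidHom '' S, ?_, hf.image _⟩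
  rw [← MonoidHom.map_closure, hS]
  ext g
  rw [Subgroup.mem_map]
  constructor
  · rintro ⟨x, hx, rfl⟩
    have : φ⁻¹ * x * φ ∈ V := hx
    simpa using this
  · intro hg
    refine ⟨φ * g * φ⁻¹, conj_mem_cj hg, ?_⟩
    simp only [MulEquiv.toMonoidHom_eq_coe, MonoidHom.coe_coe, MulAut.conj_apply, inv_inv,
      mul_assoc, inv_mul_cancel, mul_one, inv_mul_cancel_left]

lemma Glu.cj {V : Subgroup Q} (hV : Glu V) {φ : Q} (hφ : φ ∈ P) : Glu (cj φ V) := by
  intro f g a h hf hg ha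
  rw [mem_cj] at hf hg ⊢
  have e : (φ⁻¹ * f * φ) (φ⁻¹ a) = (φ⁻¹ * g * φ) (φ⁻¹ a) := by
    simp only [RelIso.mul_apply, RelIso.apply_inv_self]
    rw [h]
  have h1 := hV _ _ _ e hf hg (P.dy (P.inv_mem hφ) ha)
  have h2 : φ⁻¹ * glue f g a h * φ = glue _ _ _ e := by
    ext x
    rcases le_total (φ x) a with hx | hx
    · have hx' : x ≤ φ⁻¹ a := by
        have := φ⁻¹.monotone hx
        rwa [RelIso.inv_apply_self] at this
      rw [glue_of_le _ hx', RelIso.mul_apply, RelIso.mul_apply, glue_of_le _ hx]; rfl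
    · have hx' : φ⁻¹ a ≤ x := by
        have := φ⁻¹.monotone hx
        rwa [RelIso.inv_apply_self] at this
      rw [glue_of_ge _ hx', RelIso.mul_apply, RelIso.mul_apply, glue_of_ge _ hx]; rfl
  rw [h2]; exact h1

lemma Glu.vg {M : Subgroup Q} (hM : Glu M) (a : ℚ) : Glu (Vg M a) := by
  intro f g b h hf hg hb
  refine ⟨hM _ _ _ h hf.1 hg.1 hb, fun x hx => ?_⟩
  rw [glue_apply, hf.2 x hx, hg.2 x hx, ite_self]

lemma finV_cj {V : Subgroup Q} {a : ℚ} {φ : Q} (hφ : φ ∈ P) (h0 : φ 0 = 0) (ha : φ a = 1)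
    (hfin : FinV V (fun v => 0 ≤ v.lo ∧ v.hi ≤ a)) : FinV (cj φ V) Vx.In := by
  classical
  obtain ⟨ι, hι, c, hc⟩ := hfin
  obtain ⟨N, hN⟩ := P.level (P.inv_mem hφ)
  have hex : ∀ v : Vx, ∃ w, N ≤ v.n → Lin φ⁻¹ v w := by
    intro v
    by_cases h : N ≤ v.n
    · obtain ⟨w, hw⟩ := hN v h
      exact ⟨w, fun _ => hw⟩
    · exact ⟨v, fun h' => absurd h' h⟩
  choose W hW using hex
  haveI : Finite {w : Vx | w.In ∧ w.n ≤ N} := (shallow_finite N).to_subtype
  refine ⟨ι ⊕ {w : Vx | w.In ∧ w.n ≤ N}, inferInstance,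
    fun v => if h : v.In ∧ v.n ≤ N then Sum.inr ⟨v, h⟩ else Sum.inl (c (W v)), ?_⟩
  intro v w hv hw hvw
  have i0 : φ⁻¹ 0 = 0 := inv_of_eq h0
  have i1 : φ⁻¹ 1 = a := inv_of_eq ha
  by_cases h : v.In ∧ v.n ≤ N
  · by_cases h' : w.In ∧ w.n ≤ N
    · simp only [dif_pos h, dif_pos h', Sum.inr.injEq, Subtype.mk.injEq] at hvw
      rw [hvw]; exact VRel.refl _ _
    · simp only [dif_pos h, dif_neg h'] at hvw
      cases hvw
  · by_cases h' : w.In ∧ w.n ≤ N
    · simp only [dif_neg h, dif_pos h'] at hvw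
      cases hvw
    · simp only [dif_neg h, dif_neg h', Sum.inl.injEq] at hvw
      have hvN : N ≤ v.n := by
        by_contra h3; push Not at h3; exact h ⟨hv, h3.le⟩
      have hwN : N ≤ w.n := by
        by_contra h3; push Not at h3; exact h' ⟨hw, h3.le⟩
      have l1 := hW v hvN
      have l2 := hW w hwN
      have b1 : 0 ≤ (W v).lo ∧ (W v).hi ≤ a := by
        rw [← l1.lo, ← l1.hi]
        nth_rw 1 [← i0]
        nth_rw 1 [← i1]
        exact ⟨φ⁻¹.monotone hv.1, φ⁻¹.monotone hv.2⟩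
      have b2 : 0 ≤ (W w).lo ∧ (W w).hi ≤ a := by
        rw [← l2.lo, ← l2.hi]
        nth_rw 1 [← i0]
        nth_rw 1 [← i1]
        exact ⟨φ⁻¹.monotone hw.1, φ⁻¹.monotone hw.2⟩
      obtain ⟨g, hg, hgl⟩ := hc _ _ b1 b2 hvw
      refine ⟨φ * g * φ⁻¹, conj_mem_cj hg, ?_⟩
      have l3 := l2.inv
      rw [inv_inv] at l3
      exact (l3.mul hgl).mul l1

section
variable {M : Subgroup Q}

lemma MaxSub.glu (hM : MaxSub M) : Glu M := by
  intro f g a h hf hg ha
  have hcl := hM.closed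
  rw [← hcl]
  exact glue_mem_Cl h (by rw [hcl]; exact hf) (by rw [hcl]; exact hg) ha

/-- V_a is finitely generated -/
theorem MaxSub.fg_V (hM : MaxSub M) (hfg : M.FG) {a : ℚ} (ha : Dy a) (ha0 : 0 < a) (ha1 : a < 1) :
    (Vg M a).FG := by
  obtain ⟨φ, hφ, h0, h1⟩ := exists_P dy_zero ha dy_zero dy_one ha0 (by norm_num : (0:ℚ) < 1)
  apply fg_of_cj (φ := φ)
  apply fg_of_finV
  · intro g hg
    rw [mem_cj] at hg
    have hgP : φ⁻¹ * g * φ ∈ P := F.le_P (hM.le hg.1)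
    refine mem_F ?_ (fun x hx => ?_) (fun x hx => ?_)
    · have := P.mul_mem (P.mul_mem hφ hgP) (P.inv_mem hφ)
      simpa only [mul_assoc, mul_inv_cancel, mul_one, mul_inv_cancel_left] using this
    · have h2 : φ⁻¹ x ≤ 0 := by
        rw [← inv_of_eq h0]; exact φ⁻¹.monotone hx
      have h3 := F.zero (hM.le hg.1) h2
      rw [RelIso.mul_apply, RelIso.mul_apply, RelIso.apply_inv_self] at h3
      exact (φ⁻¹).injective h3
    · have h2 : a ≤ φ⁻¹ x := by
        rw [← inv_of_eq h1]; exact φ⁻¹.monotone hx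
      have h3 := hg.2 _ h2
      rw [RelIso.mul_apply, RelIso.mul_apply, RelIso.apply_inv_self] at h3
      exact (φ⁻¹).injective h3
  · exact (hM.glu.vg a).cj hφ
  · exact finV_cj hφ h0 h1 (hM.finV_V hfg ha ha1)

/-- all the V at base points are finitely generated -/
theorem MaxSub.fg_V' (hM : MaxSub M) (hfg : M.FG) {a : ℚ} (ha : Dy a) (ha0 : 0 ≤ a) (ha1 : a ≤ 1) :
    (Vg M a).FG := by
  rcases eq_or_lt_of_le ha0 with h | h
  · have : Vg M a = ⊥ := by
      rw [eq_bot_iff]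
      rintro g ⟨hg, hg1⟩
      rw [Subgroup.mem_bot]
      ext x
      rcases le_total x 0 with hx | hx
      · exact F.zero (hM.le hg) hx
      · exact hg1 x (by rw [← h]; exact hx)
    rw [this]
    exact Subgroup.FG.bot
  · rcases eq_or_lt_of_le ha1 with h' | h'
    · have : Vg M a = M := by
        apply le_antisymm
        · exact fun g hg => hg.1
        · intro g hg
          exact ⟨hg, fun x hx => F.one (hM.le hg) (by rw [← h']; exact hx)⟩
      rw [this]; exact hfg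
    · exact hM.fg_V hfg ha h h'

end

end Pool.Agent.ThF
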