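import Mathlib

set_option autoImplicit false

namespace Pool.Agent.ThF

/-- a maximal subgroup containing all commutators has finite index -/
lemma finiteIndex_of_coatom {E : Type*} [Group E] (H : Subgroup E) (hH : IsCoatom H)
    (hc : ∀ a b : E, a * b * a⁻¹ * b⁻¹ ∈ H) : H.FiniteIndex := by
  haveI hn : H.Normal := ⟨fun h hh g => by
    have := H.mul_mem (hc g h) hh
    simpa only [mul_assoc, inv_mul_cancel, mul_one] using this⟩
  haveI hcm : IsMulCommutative (E ⧸ H) := ⟨⟨fun x y => by
    obtain ⟨a, rfl⟩ := QuotientGroup.mk'_surjective H x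
    obtain ⟨b, rfl⟩ := QuotientGroup.mk'_surjective H y
    rw [← map_mul, ← map_mul]
    simp only [QuotientGroup.mk'_apply]
    rw [QuotientGroup.eq]
    have := hc b⁻¹ a⁻¹
    simpa only [mul_assoc, mul_inv_rev, inv_inv] using this⟩⟩
  have hs : IsSimpleGroup (E ⧸ H) := by
    haveI : Nontrivial (E ⧸ H) := by
      rw [QuotientGroup.nontrivial_iff]
      exact hH.1
    refine ⟨fun N _ => ?_⟩
    have h1 : H ≤ N.comap (QuotientGroup.mk' H) := by
      intro h hh
      rw [Subgroup.mem_comap, QuotientGroup.mk'_apply, (QuotientGroup.eq_one_iff h).2 hh]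
      exact N.one_mem
    have h2 : (N.comap (QuotientGroup.mk' H)).map (QuotientGroup.mk' H) = N :=
      Subgroup.map_comap_eq_self_of_surjective (QuotientGroup.mk'_surjective H) N
    rcases eq_or_lt_of_le h1 with h | h
    · left
      rw [← h2, ← h]
      rw [eq_bot_iff]
      rintro _ ⟨x, hx, rfl⟩
      exact (QuotientGroup.eq_one_iff x).2 hx
    · right
      rw [← h2, hH.2 _ h]
      exact Subgroup.map_top_of_surjective _ (QuotientGroup.mk'_surjective H)
  have hp := Group.is_simple_iff_prime_card.1 hs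
  exact ⟨hp.ne_zero⟩

/-- a free group which is finitely generated has a finite basis -/
lemma finite_of_fg_free {X : Type*} (h : Group.FG (FreeGroup X)) : Finite X := by
  classical
  obtain ⟨S, hS, hf⟩ := Group.fg_iff.1 h
  -- finite support
  have hsupp : ∀ w : FreeGroup X, ∃ T : Finset X, ∀ f : FreeGroup X →* Multiplicative ℤ,
      (∀ x ∈ T, f (FreeGroup.of x) = 1) → f w = 1 := by
    intro w
    induction w using FreeGroup.induction_on with
    | C1 => exact ⟨∅, fun f _ => map_one f⟩
    | of x => exact ⟨{x}, fun f hf => hf x (Finset.mem_singleton_self x)⟩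
    | inv_of x ih =>
      obtain ⟨T, hT⟩ := ih
      exact ⟨T, fun f hf => by rw [map_inv, hT f hf, inv_one]⟩
    | mul x y hx hy =>
      obtain ⟨T, hT⟩ := hx
      obtain ⟨U, hU⟩ := hy
      exact ⟨T ∪ U, fun f hf => by
        rw [map_mul, hT f (fun x hx => hf x (Finset.mem_union_left _ hx)),
          hU f (fun x hx => hf x (Finset.mem_union_right _ hx)), one_mul]⟩
  choose T hT using hsupp
  have hfin : (⋃ w ∈ S, (T w : Set X)).Finite := hf.biUnion (fun w _ => Finset.finite_toSet _)
  have huniv : (⋃ w ∈ S, (T w : Set X)) = Set.univ := by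
    rw [Set.eq_univ_iff_forall]
    intro x
    by_contra hx
    let f : FreeGroup X →* Multiplicative ℤ :=
      FreeGroup.lift (fun y => if y = x then Multiplicative.ofAdd 1 else 1)
    have hfo : ∀ y, f (FreeGroup.of y) = if y = x then Multiplicative.ofAdd 1 else 1 :=
      fun y => FreeGroup.lift_apply_of
    have h1 : S ⊆ (f.ker : Set (FreeGroup X)) := by
      intro w hw
      refine hT w f (fun y hy => ?_)
      rw [hfo, if_neg]
      rintro rfl
      exact hx (Set.mem_biUnion hw hy)
    have h2 : Subgroup.closure S ≤ f.ker := (Subgroup.closure_le _).2 h1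
    rw [hS] at h2
    have h3 : f (FreeGroup.of x) = 1 := h2 (Subgroup.mem_top (FreeGroup.of x))
    rw [hfo, if_pos rfl] at h3
    have h4 := congrArg Multiplicative.toAdd h3
    simp at h4
  rw [huniv] at hfin
  exact Set.finite_univ_iff.1 hfin

/-- subgroups of finite index of finitely presented groups are finitely presented -/
theorem fp_of_finiteIndex {E : Type} [Group E] [hE : Group.IsFinitelyPresented E]
    (H : Subgroup E) [hH : H.FiniteIndex] : Group.IsFinitelyPresented H := by
  classical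
  obtain ⟨n, φ, hφ, R, hR, hRN⟩ := hE.out
  obtain ⟨H', hH'⟩ : ∃ H' : Subgroup (FreeGroup (Fin n)), H' = H.comap φ := ⟨_, rfl⟩
  haveI hfi : H'.FiniteIndex := ⟨by
    rw [hH', Subgroup.index_comap_of_surjective _ hφ]
    exact hH.index_ne_zero⟩
  haveI hfg : Group.FG (FreeGroup (Fin n)) := inferInstance
  haveI hfg' : Group.FG H' := Subgroup.fg_of_index_ne_zero H'
  obtain ⟨X, ⟨b⟩⟩ := (inferInstance : IsFreeGroup H').nonempty_basis
  have hX : Finite X := by
    apply finite_of_fg_free
    exact Group.fg_of_surjective (f := b.repr.toMonoidHom) b.repr.surjective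
  haveI : Group.IsFinitelyPresented H' := Group.IsFinitelyPresented.equiv b.repr.symm
  have hle : H' ≤ H.comap φ := hH'.le
  have hmem : ∀ x : H', φ x.1 ∈ H := fun x => hle x.2
  let ψ : H' →* H := (φ.comp H'.subtype).codRestrict H hmem
  have hψ : ∀ x : H', ((ψ x : H) : E) = φ x.1 := fun x => rfl
  have hsurj : Function.Surjective ψ := by
    rintro ⟨y, hy⟩
    obtain ⟨x, rfl⟩ := hφ y
    exact ⟨⟨x, by rw [hH']; exact hy⟩, Subtype.ext rfl⟩
  have hkerle : φ.ker ≤ H' := by
    intro x hx
    rw [hH', Subgroup.mem_comap, (show φ x = 1 from hx)]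
    exact H.one_mem
  have hRk : ∀ r ∈ R, φ r = 1 := fun r hr => by
    have : r ∈ Subgroup.normalClosure R := Subgroup.subset_normalClosure hr
    rw [hRN] at this; exact this
  have hconj : ∀ g : FreeGroup (Fin n), ∀ r ∈ R, g * r * g⁻¹ ∈ H' := fun g r hr => hkerle (by
    show φ _ = 1
    rw [map_mul, map_mul, map_inv, hRk r hr, mul_one, mul_inv_cancel])
  haveI : Finite (FreeGroup (Fin n) ⧸ H') := Subgroup.finite_quotient_of_finiteIndex
  let R' : Set H' := {x | ∃ q : FreeGroup (Fin n) ⧸ H', ∃ r ∈ R,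
    (x : FreeGroup (Fin n)) = (Quotient.out q)⁻¹ * r * (Quotient.out q)}
  have hR' : R'.Finite := by
    haveI := hR.to_subtype
    have : R' ⊆ Set.range (fun p : (FreeGroup (Fin n) ⧸ H') × R =>
        (⟨(Quotient.out p.1)⁻¹ * p.2.1 * (Quotient.out p.1)⁻¹⁻¹, hconj _ _ p.2.2⟩ : H')) := by
      rintro x ⟨q, r, hr, hx⟩
      refine ⟨(q, ⟨r, hr⟩), Subtype.ext ?_⟩
      simp only [inv_inv]
      exact hx.symm
    exact (Set.finite_range _).subset this
  refine Group.IsFinitelyPresented.of_surjective ψ hsurj ⟨R', hR', ?_⟩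
  apply le_antisymm
  · apply Subgroup.normalClosure_le_normal
    rintro x ⟨q, r, hr, hx⟩
    show ψ x = 1
    apply Subtype.ext
    rw [hψ, hx, map_mul, map_mul, map_inv, hRk r hr, mul_one, inv_mul_cancel]
    rfl
  · have key : φ.ker ≤ (Subgroup.normalClosure R').map H'.subtype := by
      rw [← hRN]
      show Subgroup.closure _ ≤ _
      rw [Subgroup.closure_le]
      intro x hx
      rw [Group.mem_conjugatesOfSet_iff] at hx
      obtain ⟨r, hr, hc⟩ := hx
      rw [isConj_iff] at hc
      obtain ⟨g, hg⟩ := hc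
      -- g⁻¹ = t h
      have h1 : (Quotient.out (QuotientGroup.mk g⁻¹ : FreeGroup (Fin n) ⧸ H'))⁻¹ * g⁻¹ ∈ H' := by
        rw [← QuotientGroup.eq]
        exact Quotient.out_eq _
      obtain ⟨t, ht⟩ : ∃ t, t = Quotient.out (QuotientGroup.mk g⁻¹ : FreeGroup (Fin n) ⧸ H') :=
        ⟨_, rfl⟩
      rw [← ht] at h1
      have h2 : t⁻¹ * r * t⁻¹⁻¹ ∈ H' := hconj _ _ hr
      refine ⟨⟨t⁻¹ * g⁻¹, h1⟩⁻¹ * ⟨t⁻¹ * r * t⁻¹⁻¹, h2⟩ * ⟨t⁻¹ * g⁻¹, h1⟩⁻¹⁻¹, ?_, ?_⟩
      · apply (Subgroup.normalClosure_normal (s := R')).conj_mem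
        apply Subgroup.subset_normalClosure
        exact ⟨QuotientGroup.mk g⁻¹, r, hr, by rw [← ht]; simp only [inv_inv]⟩
      · rw [← hg]
        simp only [Subgroup.coe_subtype, Subgroup.coe_mul, Subgroup.coe_inv, mul_inv_rev, inv_inv,
          mul_assoc, mul_inv_cancel_left, inv_mul_cancel_left]
    intro x hx
    have h1 : φ x.1 = 1 := by
      have h2 : ψ x = 1 := hx
      have h3 := congrArg (fun y : H => (y : E)) h2
      exact h3
    obtain ⟨y, hy, hyx⟩ := key h1
    have : y = x := Subtype.ext hyx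
    rw [← this]; exact hy

end Pool.Agent.ThF
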