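import Pool.Agent.Lib.MP_a06c1e_al.FGV

set_option autoImplicit false

namespace Pool.Agent.ThF
open Vx BT

/-- a retract of a finitely presented group is finitely presented -/
theorem fp_of_retract {E Γ : Type*} [Group E] [Group Γ] [hE : Group.IsFinitelyPresented E]
    (π : E →* Γ) (σ : Γ →* E) (h : ∀ g, π (σ g) = g) : Group.IsFinitelyPresented Γ := by
  refine Group.IsFinitelyPresented.of_surjective π (fun g => ⟨σ g, h g⟩) ?_
  obtain ⟨n, φ, hφ, -⟩ := hE.out
  refine ⟨Set.range (fun i : Fin n => φ (FreeGroup.of i) * (σ (π (φ (FreeGroup.of i))))⁻¹),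
    Set.finite_range _, ?_⟩
  apply le_antisymm
  · apply Subgroup.normalClosure_le_normal
    rintro x ⟨i, rfl⟩
    show π _ = 1
    rw [map_mul, map_inv, h, mul_inv_cancel]
  · intro e he
    obtain ⟨N, hN⟩ : ∃ N : Subgroup E, N = Subgroup.normalClosure
      (Set.range (fun i : Fin n => φ (FreeGroup.of i) * (σ (π (φ (FreeGroup.of i))))⁻¹)) := ⟨_, rfl⟩
    haveI : N.Normal := by rw [hN]; infer_instance
    rw [← hN]
    have key : (QuotientGroup.mk' N).comp φ =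
        (QuotientGroup.mk' N).comp ((σ.comp π).comp φ) := by
      ext i
      simp only [MonoidHom.comp_apply, QuotientGroup.mk'_apply]
      rw [QuotientGroup.eq_iff_div_mem, div_eq_mul_inv, hN]
      exact Subgroup.subset_normalClosure ⟨i, rfl⟩
    obtain ⟨w, rfl⟩ := hφ e
    have h1 := DFunLike.congr_fun key w
    simp only [MonoidHom.comp_apply] at h1
    have h2 : π (φ w) = 1 := he
    rw [h2, map_one, map_one] at h1
    exact (QuotientGroup.eq_one_iff _).1 h1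

section Abs

variable {Γ S : Type} [Group Γ]

open Classical in
/-- a finite generating set -/
noncomputable def gn (U : Subgroup Γ) : Finset Γ :=
  if h : U.FG then Classical.choose h else ∅

lemma gn_spec {U : Subgroup Γ} (h : U.FG) : Subgroup.closure (gn U : Set Γ) = U := by
  rw [gn, dif_pos h]
  exact Classical.choose_spec h

/-- transfer of the data to a finitely presented group -/
theorem exists_fp_good [Finite S] {s0 s1 : S → S} {A Z : S → Γ} {Vm Vp : S → Subgroup Γ}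
    (H : Good s0 s1 A Z Vm Vp) (hm : ∀ s, (Vm s).FG) (hp : ∀ s, (Vp s).FG) :
    ∃ (E : Type) (_ : Group E) (_ : Group.IsFinitelyPresented E) (π : E →* Γ) (A' Z' : S → E)
      (Vm' Vp' : S → Subgroup E), (∀ s, π (A' s) = A s) ∧ (∀ s, π (Z' s) = Z s) ∧
      Good s0 s1 A' Z' Vm' Vp' := by
  classical
  obtain ⟨Γ0, hΓ0⟩ : ∃ Γ0 : Set Γ, Γ0 = ⋃ s, ((gn (Vm s) : Set Γ) ∪ (gn (Vp s) : Set Γ)) := ⟨_, rfl⟩
  have hfin : Γ0.Finite := by
    rw [hΓ0]
    exact Set.finite_iUnion (fun s => (Finset.finite_toSet _).union (Finset.finite_toSet _))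
  haveI : Finite Γ0 := hfin.to_subtype
  have hVm : ∀ s, (gn (Vm s) : Set Γ) ⊆ Γ0 := fun s x hx => by
    rw [hΓ0]; exact Set.mem_iUnion.2 ⟨s, Or.inl hx⟩
  have hVp : ∀ s, (gn (Vp s) : Set Γ) ⊆ Γ0 := fun s x hx => by
    rw [hΓ0]; exact Set.mem_iUnion.2 ⟨s, Or.inr hx⟩
  let I := S ⊕ (S ⊕ Γ0)
  let q : I → Γ := Sum.elim A (Sum.elim Z Subtype.val)
  let Φ : FreeGroup I →* Γ := FreeGroup.lift q
  let a : S → FreeGroup I := fun s => FreeGroup.of (Sum.inl s)
  let z : S → FreeGroup I := fun s => FreeGroup.of (Sum.inr (Sum.inl s))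
  let γ' : Γ0 → FreeGroup I := fun γ => FreeGroup.of (Sum.inr (Sum.inr γ))
  have ha : ∀ s, Φ (a s) = A s := fun s => FreeGroup.lift_apply_of
  have hz : ∀ s, Φ (z s) = Z s := fun s => FreeGroup.lift_apply_of
  have hγ : ∀ γ, Φ (γ' γ) = γ.1 := fun s => FreeGroup.lift_apply_of
  let V' : Subgroup Γ → Subgroup (FreeGroup I) := fun U =>
    Subgroup.closure (γ' '' {γ | γ.1 ∈ gn U})
  have hw : ∀ (U : Subgroup Γ), U.FG → (gn U : Set Γ) ⊆ Γ0 → ∀ u ∈ U, ∃ w ∈ V' U, Φ w = u := by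
    intro U hU hsub u hu
    have : U ≤ (V' U).map Φ := by
      conv_lhs => rw [← gn_spec hU]
      rw [Subgroup.closure_le]
      intro x hx
      exact ⟨γ' ⟨x, hsub hx⟩, Subgroup.subset_closure ⟨⟨x, hsub hx⟩, hx, rfl⟩, hγ _⟩
    exact this hu
  have hex : ∀ (s : S) (u : Γ), ∃ w : FreeGroup I, w ∈ V' (Vp s) ∧ (u ∈ Vp s → Φ w = u) := by
    intro s u
    by_cases hu : u ∈ Vp s
    · obtain ⟨w, h1, h2⟩ := hw _ (hp s) (hVp s) u hu
      exact ⟨w, h1, fun _ => h2⟩
    · exact ⟨1, (V' (Vp s)).one_mem, fun h => absurd h hu⟩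
  choose w hwV hwΦ using hex
  let R1 : S × Γ0 → FreeGroup I := fun p => a p.1 * γ' p.2 * (a p.1)⁻¹ *
    (w p.1 (A p.1 * p.2.1 * (A p.1)⁻¹))⁻¹
  let R2 : S × Γ0 → FreeGroup I := fun p => z p.1 * γ' p.2 * (z p.1)⁻¹ * (γ' p.2)⁻¹
  let R3 : S → FreeGroup I := fun s => a (s1 s) * a (s0 s) * z s * (a s)⁻¹ *
    (w s (A (s1 s) * A (s0 s) * Z s * (A s)⁻¹))⁻¹
  let D : Set (S × Γ0) := {p | p.2.1 ∈ gn (Vm p.1)}
  let rels : Set (FreeGroup I) := R1 '' D ∪ R2 '' D ∪ Set.range R3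
  have hrf : rels.Finite := (((Set.toFinite D).image _).union ((Set.toFinite D).image _)).union
    (Set.finite_range _)
  haveI : Finite rels := hrf.to_subtype
  have hD : ∀ p ∈ D, p.2.1 ∈ Vm p.1 := fun p hp' => by
    have : (p.2.1 : Γ) ∈ Subgroup.closure (gn (Vm p.1) : Set Γ) := Subgroup.subset_closure hp'
    rwa [gn_spec (hm p.1)] at this
  have hrel : ∀ r ∈ rels, Φ r = 1 := by
    rintro r ((⟨p, hpD, rfl⟩ | ⟨p, hpD, rfl⟩) | ⟨s, rfl⟩)
    · show Φ (a p.1 * γ' p.2 * (a p.1)⁻¹ * (w p.1 (A p.1 * p.2.1 * (A p.1)⁻¹))⁻¹) = 1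
      rw [map_mul, map_mul, map_mul, map_inv, map_inv, ha, hγ, hwΦ _ _ (H.h1 _ _ (hD p hpD)),
        mul_inv_cancel]
    · show Φ (z p.1 * γ' p.2 * (z p.1)⁻¹ * (γ' p.2)⁻¹) = 1
      rw [map_mul, map_mul, map_mul, map_inv, map_inv, hz, hγ, H.h2 _ _ (hD p hpD),
        mul_inv_cancel_right, mul_inv_cancel]
    · show Φ (a (s1 s) * a (s0 s) * z s * (a s)⁻¹ *
        (w s (A (s1 s) * A (s0 s) * Z s * (A s)⁻¹))⁻¹) = 1
      rw [map_mul, map_mul, map_mul, map_mul, map_inv, map_inv, ha, ha, ha, hz,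
        hwΦ _ _ (H.h3 s), mul_inv_cancel]
  let mk : FreeGroup I →* PresentedGroup rels := PresentedGroup.mk rels
  have hmk : ∀ r ∈ rels, mk r = 1 := fun r hr =>
    (QuotientGroup.eq_one_iff _).2 (Subgroup.subset_normalClosure hr)
  let π : PresentedGroup rels →* Γ := PresentedGroup.toGroup (f := q) hrel
  have hπ : ∀ x, π (mk x) = Φ x := by
    intro x
    have : π.comp mk = Φ := by
      ext i
      exact (PresentedGroup.toGroup.of hrel (x := i)).trans FreeGroup.lift_apply_of.symm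
    exact DFunLike.congr_fun this x
  refine ⟨PresentedGroup rels, inferInstance, inferInstance, π, fun s => mk (a s), fun s => mk (z s),
    fun s => (V' (Vm s)).map mk, fun s => (V' (Vp s)).map mk, fun s => by rw [hπ, ha],
    fun s => by rw [hπ, hz], ?_⟩
  refine ⟨fun s => by rw [H.vm0], fun s => by rw [H.vp0], fun s => by rw [H.vp1], ?_, ?_, ?_⟩
  · rintro s _ ⟨x, hx, rfl⟩
    have : V' (Vm s) ≤ ((V' (Vp s)).map mk).comap ((MulAut.conj (mk (a s))).toMonoidHom.comp mk) := by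
      rw [Subgroup.closure_le]
      rintro _ ⟨γ, hγm, rfl⟩
      have hpD : (s, γ) ∈ D := hγm
      have h1 := hmk (R1 (s, γ)) (Or.inl (Or.inl ⟨(s, γ), hpD, rfl⟩))
      have h2 : mk (a s * γ' γ * (a s)⁻¹) = mk (w s (A s * γ.1 * (A s)⁻¹)) := by
        have h3 : mk (a s * γ' γ * (a s)⁻¹ * (w s (A s * γ.1 * (A s)⁻¹))⁻¹) = 1 := h1
        rw [map_mul, map_inv] at h3
        exact mul_inv_eq_one.1 h3
      refine ⟨w s (A s * γ.1 * (A s)⁻¹), hwV _ _, ?_⟩
      rw [← h2, map_mul, map_mul, map_inv]; rfl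
    have h3 := this hx
    exact h3
  · rintro s _ ⟨x, hx, rfl⟩
    have : V' (Vm s) ≤ (Subgroup.centralizer {mk (z s)}).comap mk := by
      rw [Subgroup.closure_le]
      rintro _ ⟨γ, hγm, rfl⟩
      have hpD : (s, γ) ∈ D := hγm
      have h1 := hmk (R2 (s, γ)) (Or.inl (Or.inr ⟨(s, γ), hpD, rfl⟩))
      have h3 : mk (z s * γ' γ * (z s)⁻¹ * (γ' γ)⁻¹) = 1 := h1
      rw [map_mul, map_mul, map_mul, map_inv, map_inv] at h3
      show mk (γ' γ) ∈ Subgroup.centralizer {mk (z s)}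
      rw [Subgroup.mem_centralizer_iff]
      intro y hy
      rw [Set.mem_singleton_iff] at hy
      rw [hy]
      have h4 := mul_inv_eq_one.1 h3
      rw [mul_inv_eq_iff_eq_mul] at h4
      exact h4
    have h3 := this hx
    have h4 : mk x ∈ Subgroup.centralizer {mk (z s)} := h3
    rw [Subgroup.mem_centralizer_iff] at h4
    exact h4 _ rfl
  · intro s
    have h1 := hmk (R3 s) (Or.inr ⟨s, rfl⟩)
    have h3 : mk (a (s1 s) * a (s0 s) * z s * (a s)⁻¹ *
        (w s (A (s1 s) * A (s0 s) * Z s * (A s)⁻¹))⁻¹) = 1 := h1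
    rw [map_mul, map_inv] at h3
    have h4 := mul_inv_eq_one.1 h3
    refine ⟨w s (A (s1 s) * A (s0 s) * Z s * (A s)⁻¹), hwV _ _, ?_⟩
    rw [← h4, map_mul, map_mul, map_mul, map_inv]

end Abs

lemma map_Om {S E E' : Type*} [Group E] [Group E'] (s0 s1 : S → S) (A Z : S → E) (f : E →* E') :
    ∀ (T : BT) (s : S), f (Om s0 s1 A Z s T) = Om s0 s1 (fun s => f (A s)) (fun s => f (Z s)) s T
  | lf, s => rfl
  | nd a b, s => by
    rw [Om, map_mul, map_mul, map_Om s0 s1 A Z f b, map_Om s0 s1 A Z f a, Om]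

lemma map_tv {S E E' : Type*} [Group E] [Group E'] (s0 s1 : S → S) (A Z : S → E) (f : E →* E')
    (c : Vx → S) (T T' : BT) : f (tv s0 s1 A Z c T T') =
      tv s0 s1 (fun s => f (A s)) (fun s => f (Z s)) c T T' := by
  rw [tv, map_mul, map_inv, map_Om, map_Om, tv]

lemma fg_subgroupOf {V M : Subgroup Q} (hVM : V ≤ M) (hV : V.FG) : (V.subgroupOf M).FG := by
  rw [← Group.fg_iff_subgroup_fg] at hV ⊢
  haveI := hV
  exact Group.fg_of_surjective (f := (Subgroup.subgroupOfEquivOfLe hVM).symm.toMonoidHom)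
    (Subgroup.subgroupOfEquivOfLe hVM).symm.surjective

/-- The main theorem in the case of a maximal subgroup not containing the commutator subgroup -/
theorem MaxSub.fp {M : Subgroup Q} (hM : MaxSub M) (hfg : M.FG) : Group.IsFinitelyPresented M := by
  haveI : Finite (Co M) := co_finite (hM.finV hfg)
  obtain ⟨Z, hZ, C⟩ := exists_Zs hM.le hM.glu
  have hc := coloring hM.le
  have hgood := good_concrete hM.le hZ C
  let A1 : Co M → M := fun s => ⟨As s, As_mem s⟩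
  let Z1 : Co M → M := fun s => ⟨Z s, hZ s⟩
  have hdy : ∀ {x : ℚ}, Dy x → 0 ≤ x → x ≤ 1 → (Vg M (bs M x)).FG := by
    intro x hx h0 h1
    obtain ⟨g, hg, hgx⟩ := bs_spec M x
    have hgF := hM.le hg
    refine hM.fg_V' hfg ?_ ?_ ?_
    · rw [← hgx]; exact P.dy (F.le_P hgF) hx
    · rw [← hgx, ← F.zero hgF le_rfl]; exact g.monotone h0
    · rw [← hgx, ← F.one hgF le_rfl]; exact g.monotone h1
  have hle : ∀ x, Vg M x ≤ M := fun x g hg => hg.1
  have G1 : Good t0 t1 A1 Z1 (fun s => (Vg M (bs M (rep s).lo)).subgroupOf M)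
      (fun s => (Vg M (bs M (rep s).hi)).subgroupOf M) := by
    refine ⟨fun s => ?_, fun s => ?_, fun s => ?_, fun s v hv => ?_, fun s v hv => ?_, fun s => ?_⟩
    · exact congrArg (fun U => Subgroup.subgroupOf U M) (hgood.vm0 s)
    · exact congrArg (fun U => Subgroup.subgroupOf U M) (hgood.vp0 s)
    · exact congrArg (fun U => Subgroup.subgroupOf U M) (hgood.vp1 s)
    · rw [Subgroup.mem_subgroupOf] at hv ⊢
      exact hgood.h1 s _ hv
    · rw [Subgroup.mem_subgroupOf] at hv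
      exact Subtype.ext (hgood.h2 s _ hv)
    · rw [Subgroup.mem_subgroupOf]
      exact hgood.h3 s
  obtain ⟨E, _, _, π, A', Z', Vm', Vp', hA', hZ', hG'⟩ := exists_fp_good G1
    (fun s => fg_subgroupOf (hle _) (hdy (rep s).dy_lo (rep_in s).1
      ((rep s).lo_lt_hi.le.trans (rep_in s).2)))
    (fun s => fg_subgroupOf (hle _) (hdy (rep s).dy_hi ((rep_in s).1.trans (rep s).lo_lt_hi.le)
      (rep_in s).2))
  obtain ⟨σ, hσ⟩ := exists_hom hG' hc
  have key : ∀ g : M, ((π (σ g) : M) : Q) = KK M root * g * (KK M root)⁻¹ := by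
    intro g
    obtain ⟨T, T', h⟩ := exists_maps (hM.le g.2)
    rw [hσ g T T' h, map_tv]
    have e1 : (fun s => π (A' s)) = A1 := funext hA'
    have e2 : (fun s => π (Z' s)) = Z1 := funext hZ'
    rw [e1, e2, ← C.main hc g.2 h]
    exact map_tv t0 t1 A1 Z1 M.subtype (col M) T T'
  let k : M := ⟨KK M root, KK_mem M root⟩
  refine fp_of_retract π (σ.comp (MulAut.conj k⁻¹).toMonoidHom) (fun g => ?_)
  apply Subtype.ext
  rw [MonoidHom.comp_apply, key]
  simp only [MulEquiv.toMonoidHom_eq_coe, MonoidHom.coe_coe, MulAut.conj_apply, inv_inv,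
    Subgroup.coe_mul, Subgroup.coe_inv, k]
  simp only [mul_assoc, mul_inv_cancel, mul_one, mul_inv_cancel_left]

end Pool.Agent.ThF
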