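import Pool.Agent.Lib.MP_a06c1e_al.Pres3
import Pool.Agent.Lib.MP_a06c1e_al.FI

set_option autoImplicit false

namespace Pool.Agent.ThF

/-- every finitely generated maximal subgroup of Thompson's group is finitely presented -/
theorem main (H : Subgroup E0) (hfg : H.FG) (hH : IsCoatom H) : Group.IsFinitelyPresented H := by
  by_cases hc : ∀ a b : E0, a * b * a⁻¹ * b⁻¹ ∈ H
  · haveI := finiteIndex_of_coatom H hH hc
    haveI : Finite R0 := Set.toFinite _
    exact fp_of_finiteIndex H
  · obtain ⟨Θ⟩ := iso_F
    obtain ⟨j, hj, hjF, hjr⟩ : ∃ j : E0 →* Q, Function.Injective j ∧ (∀ x, j x ∈ F) ∧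
        (∀ f ∈ F, ∃ x, j x = f) :=
      ⟨F.subtype.comp Θ.toMonoidHom, Subtype.val_injective.comp Θ.injective, fun x => (Θ x).2,
        fun f hf => ⟨Θ.symm ⟨f, hf⟩, by simp⟩⟩
    have hmem : ∀ x, j x ∈ H.map j ↔ x ∈ H := fun x =>
      ⟨fun ⟨y, hy, hyx⟩ => hj hyx ▸ hy, fun hx => ⟨x, hx, rfl⟩⟩
    have hM : MaxSub (H.map j) := by
      refine ⟨?_, ?_, ?_, ?_⟩
      · rintro _ ⟨x, -, rfl⟩
        exact hjF x
      · intro h
        apply hH.1
        rw [eq_top_iff]
        intro x _
        rw [← hmem, h]
        exact hjF x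
      · intro K hMK hKF
        have h1 : H ≤ K.comap j := fun x hx => hMK ((hmem x).2 hx)
        rcases eq_or_lt_of_le h1 with h | h
        · left
          apply le_antisymm _ hMK
          intro k hk
          obtain ⟨x, rfl⟩ := hjr k (hKF hk)
          rw [hmem, h]
          exact hk
        · right
          apply le_antisymm hKF
          intro k hk
          obtain ⟨x, rfl⟩ := hjr k hk
          have h2 := hH.2 _ h
          have h3 : x ∈ K.comap j := by rw [h2]; exact Subgroup.mem_top x
          exact h3
      · intro h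
        apply hc
        intro a b
        rw [← hmem, map_mul, map_mul, map_mul, map_inv, map_inv]
        exact h _ (hjF a) _ (hjF b)
    have e : H ≃* H.map j := H.equivMapOfInjective j hj
    have hMfg : (H.map j).FG := by
      rw [← Group.fg_iff_subgroup_fg] at hfg ⊢
      haveI := hfg
      exact Group.fg_of_surjective (f := e.toMonoidHom) e.surjective
    haveI := hM.fp hMfg
    exact Group.IsFinitelyPresented.equiv e.symm

end Pool.Agent.ThF
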