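import Pool.Agent.Lib.MP_a06c1e_al.PL

set_option autoImplicit false

namespace Pool.Agent.ThF
open Vx

/-! ### reflection -/

/-- conjugation by x ↦ 1 - x -/
def rho (f : Q) : Q where
  toFun x := 1 - f (1 - x)
  invFun x := 1 - f.symm (1 - x)
  left_inv x := by simp
  right_inv x := by simp
  map_rel_iff' := by
    intro x y
    simp only [Equiv.coe_fn_mk]
    rw [sub_le_sub_iff_left, f.le_iff_le, sub_le_sub_iff_left]

lemma rho_apply (f : Q) (x : ℚ) : rho f x = 1 - f (1 - x) := rfl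

lemma rho_rho (f : Q) : rho (rho f) = f := by
  ext x; simp [rho_apply]

lemma rho_mul (f g : Q) : rho (f * g) = rho f * rho g := by
  ext x; simp [rho_apply, RelIso.mul_apply]

/-- the reflection as an automorphism -/
def rhoE : Q ≃* Q where
  toFun := rho
  invFun := rho
  left_inv := rho_rho
  right_inv := rho_rho
  map_mul' := rho_mul

lemma rhoE_apply (f : Q) : rhoE f = rho f := rfl
lemma rho_inv (f : Q) : rho f⁻¹ = (rho f)⁻¹ := map_inv rhoE f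
lemma rho_one : rho 1 = 1 := map_one rhoE

/-- reflected vertex (n ≥ 0) -/
def Vx.refl (v : Vx) : Vx := ⟨v.n, 2 ^ v.n.toNat - v.i - 1⟩

lemma Vx.refl_pt {v : Vx} (hv : 0 ≤ v.n) (t : ℚ) : v.refl.pt t = 1 - v.pt (1 - t) := by
  obtain ⟨k, hk⟩ := Int.eq_ofNat_of_zero_le hv
  simp only [Vx.refl, Vx.pt, hk, Int.toNat_natCast]
  rw [zpow_neg, zpow_natCast]
  push_cast
  field_simp
  ring

lemma Vx.refl_refl (v : Vx) : v.refl.refl = v := by
  ext
  · rfl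
  · simp only [Vx.refl]; ring

lemma Lin.refl {f : Q} {v w : Vx} (hv : 0 ≤ v.n) (hw : 0 ≤ w.n) (h : Lin f v w) :
    Lin (rho f) v.refl w.refl := by
  intro t h0 h1
  rw [rho_apply, Vx.refl_pt hv, Vx.refl_pt hw, sub_sub_cancel, h _ (by linarith) (by linarith)]

lemma rho_mem_P {f : Q} (hf : f ∈ P) : rho f ∈ P := by
  obtain ⟨N, K, h⟩ := hf
  refine ⟨max (max N 0) K, K, fun v hv => ?_⟩
  have h1 : N ≤ v.n := le_trans (le_trans (le_max_left _ _) (le_max_left _ _)) hv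
  have h2 : 0 ≤ v.n := le_trans (le_trans (le_max_right _ _) (le_max_left _ _)) hv
  have h3 : K ≤ v.n := le_trans (le_max_right _ _) hv
  obtain ⟨w, hw, hwK⟩ := h v.refl h1
  have h4 := (abs_le.1 hwK).1
  have h5 : v.refl.n = v.n := rfl
  refine ⟨w.refl, ?_, hwK⟩
  have := Lin.refl (f := f) (v := v.refl) (w := w) h2 (by linarith) hw
  rwa [Vx.refl_refl] at this

lemma rho_mem_P_iff {f : Q} : rho f ∈ P ↔ f ∈ P :=
  ⟨fun h => by simpa [rho_rho] using rho_mem_P h, rho_mem_P⟩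

lemma rho_mem_F {f : Q} (hf : f ∈ F) : rho f ∈ F := by
  refine mem_F (rho_mem_P (F.le_P hf)) (fun x hx => ?_) (fun x hx => ?_)
  · rw [rho_apply, F.one hf (by linarith)]; ring
  · rw [rho_apply, F.zero hf (by linarith)]; ring

lemma rho_mem_F_iff {f : Q} : rho f ∈ F ↔ f ∈ F :=
  ⟨fun h => by simpa [rho_rho] using rho_mem_F h, rho_mem_F⟩

lemma dy_refl {x : ℚ} (h : Dy x) : Dy (1 - x) := dy_one.sub h

lemma hasLS_rho {f : Q} {a : ℚ} {k : ℤ} (h : HasRS f (1 - a) k) : HasLS (rho f) a k := by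
  obtain ⟨b, hb, h⟩ := h
  refine ⟨1 - b, by linarith, fun x h0 h1 => ?_⟩
  rw [rho_apply, rho_apply, h (1 - x) (by linarith) (by linarith)]
  ring

lemma hasRS_rho {f : Q} {a : ℚ} {k : ℤ} (h : HasLS f (1 - a) k) : HasRS (rho f) a k := by
  obtain ⟨b, hb, h⟩ := h
  refine ⟨1 - b, by linarith, fun x h0 h1 => ?_⟩
  rw [rho_apply, rho_apply, h (1 - x) (by linarith) (by linarith)]
  ring

lemma ls_rho {f : Q} (hf : f ∈ P) (a : ℚ) : ls (rho f) a = rs f (1 - a) :=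
  (hasLS_rho (P.hasRS hf _)).ls_eq

lemma rs_rho {f : Q} (hf : f ∈ P) (a : ℚ) : rs (rho f) a = ls f (1 - a) :=
  (hasRS_rho (P.hasLS hf _)).rs_eq

/-! ### elements with prescribed slopes -/

lemma exists_F_rs {a b : ℚ} (ha : Dy a) (hb : Dy b) (hab : a < b) (h0 : 0 ≤ a) (h1 : b ≤ 1) (k : ℤ) :
    ∃ f ∈ F, (∀ x, x ≤ a → f x = x) ∧ (∀ x, b ≤ x → f x = x) ∧ rs f a = k := by
  obtain ⟨c, hc, hac, hcb⟩ := exists_dy_between (show a < min b (a + (b - a) * (2:ℚ) ^ (-k)) by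
    refine lt_min hab ?_
    have : 0 < (b - a) * (2:ℚ) ^ (-k) := mul_pos (by linarith) (two_zpow_pos _)
    linarith)
  have hcb1 : c < b := lt_of_lt_of_le hcb (min_le_left _ _)
  have hcb2 : c < a + (b - a) * (2:ℚ) ^ (-k) := lt_of_lt_of_le hcb (min_le_right _ _)
  have hA : aff k (a - 2 ^ k * a) ∈ P := aff_mem_P _ (ha.sub (Dy.zmul _ ha))
  have hAa : aff k (a - 2 ^ k * a) a = a := by rw [aff_apply]; ring
  have hAc : aff k (a - 2 ^ k * a) c = a + 2 ^ k * (c - a) := by rw [aff_apply]; ring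
  have hp : (0:ℚ) < 2 ^ k := two_zpow_pos k
  have e0 : (2:ℚ) ^ k * (c - a) < b - a := by
    have h2 : c - a < (b - a) * (2:ℚ) ^ (-k) := by linarith
    have h3 := mul_lt_mul_of_pos_left h2 hp
    have h4 : (2:ℚ) ^ k * ((b - a) * (2:ℚ) ^ (-k)) = b - a := by
      rw [mul_comm (b - a), ← mul_assoc, ← zpow_add₀ (by norm_num), add_neg_cancel, zpow_zero,
        one_mul]
    linarith
  obtain ⟨g2, hg2, hg2c, hg2b⟩ := exists_P hc hb (by
      have := P.dy hA hc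
      rwa [hAc] at this) hb hcb1 (show a + 2 ^ k * (c - a) < b by linarith)
  have e : aff k (a - 2 ^ k * a) c = g2 c := by rw [hAc, hg2c]
  obtain ⟨f, hf, hf1, hf2, hf3⟩ := exists_F_restrict (glue_mem_P e hA hg2 hc) ha hb hab.le h0 h1
    (by rw [glue_of_le _ hac.le, hAa]) (by rw [glue_of_ge _ hcb1.le, hg2b])
  refine ⟨f, hf, hf2, hf3, ?_⟩
  have : HasRS f a k := by
    refine ⟨c, hac, fun x hx0 hx1 => ?_⟩
    rw [hf1 x hx0 (hx1.trans hcb1.le), glue_of_le _ hx1, hf1 a le_rfl hab.le, glue_of_le _ hac.le,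
      aff_apply, aff_apply]
    ring
  exact this.rs_eq

lemma exists_F_ls {a b : ℚ} (ha : Dy a) (hb : Dy b) (hab : a < b) (h0 : 0 ≤ a) (h1 : b ≤ 1) (k : ℤ) :
    ∃ f ∈ F, (∀ x, x ≤ a → f x = x) ∧ (∀ x, b ≤ x → f x = x) ∧ ls f b = k := by
  obtain ⟨f, hf, hf1, hf2, hf3⟩ := exists_F_rs (dy_refl hb) (dy_refl ha)
    (show 1 - b < 1 - a by linarith) (by linarith) (by linarith) k
  refine ⟨rho f, rho_mem_F hf, fun x hx => ?_, fun x hx => ?_, ?_⟩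
  · rw [rho_apply, hf2 _ (by linarith)]; ring
  · rw [rho_apply, hf1 _ (by linarith)]; ring
  · rw [ls_rho (F.le_P hf), hf3]

/-! ### maximal subgroups -/

/-- maximal subgroup of F not containing all commutators -/
structure MaxSub (M : Subgroup Q) : Prop where
  le : M ≤ F
  ne : M ≠ F
  maxi : ∀ K : Subgroup Q, M ≤ K → K ≤ F → K = M ∨ K = F
  notComm : ¬ ∀ f ∈ F, ∀ g ∈ F, f * g * f⁻¹ * g⁻¹ ∈ M

namespace MaxSub
variable {M : Subgroup Q}

/-- a homomorphism to an abelian group killing M kills F -/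
lemma hom_zero (hM : MaxSub M) {A : Type*} [AddCommGroup A] (E : Q → A)
    (hE : ∀ f ∈ F, ∀ g ∈ F, E (f * g) = E f + E g) (hEM : ∀ m ∈ M, E m = 0) :
    ∀ f ∈ F, E f = 0 := by
  have h1 : E 1 = 0 := hEM 1 M.one_mem
  have hinv : ∀ f ∈ F, E f⁻¹ = - E f := by
    intro f hf
    have := hE f hf f⁻¹ (F.inv_mem hf)
    rw [mul_inv_cancel, h1] at this
    exact (neg_eq_of_add_eq_zero_right this.symm).symm
  let K : Subgroup Q :=
    { carrier := {f | f ∈ F ∧ E f = 0}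
      one_mem' := ⟨F.one_mem, h1⟩
      mul_mem' := by
        rintro f g ⟨hf, hf0⟩ ⟨hg, hg0⟩
        exact ⟨F.mul_mem hf hg, by rw [hE f hf g hg, hf0, hg0, add_zero]⟩
      inv_mem' := by
        rintro f ⟨hf, hf0⟩
        exact ⟨F.inv_mem hf, by rw [hinv f hf, hf0, neg_zero]⟩ }
  rcases hM.maxi K (fun m hm => ⟨hM.le hm, hEM m hm⟩) (fun f hf => hf.1) with h | h
  · exfalso
    refine hM.notComm fun f hf g hg => ?_
    rw [← h]
    refine ⟨F.mul_mem (F.mul_mem (F.mul_mem hf hg) (F.inv_mem hf)) (F.inv_mem hg), ?_⟩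
    rw [hE _ (F.mul_mem (F.mul_mem hf hg) (F.inv_mem hf)) _ (F.inv_mem hg),
      hE _ (F.mul_mem hf hg) _ (F.inv_mem hf), hE f hf g hg, hinv f hf, hinv g hg]
    abel
  · intro f hf
    rw [← h] at hf
    exact hf.2

/-- every pair of end slopes is realised in M -/
lemma exists_slopes (hM : MaxSub M) {f : Q} (hf : f ∈ F) :
    ∃ m ∈ M, rs m 0 = rs f 0 ∧ ls m 1 = ls f 1 := by
  have z0 : ∀ f ∈ F, f (0:ℚ) = 0 := fun f hf => F.zero hf le_rfl
  have z1 : ∀ f ∈ F, f (1:ℚ) = 1 := fun f hf => F.one hf le_rfl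
  have r : ∀ f ∈ F, ∀ g ∈ F, rs (f * g) 0 = rs f 0 + rs g 0 := fun f hf g hg => by
    rw [rs_mul (F.le_P hf) (F.le_P hg), z0 g hg]
  have l : ∀ f ∈ F, ∀ g ∈ F, ls (f * g) 1 = ls f 1 + ls g 1 := fun f hf g hg => by
    rw [ls_mul (F.le_P hf) (F.le_P hg), z1 g hg]
  have ri : ∀ f ∈ F, rs f⁻¹ 0 = - rs f 0 := fun f hf => by
    have := rs_inv (F.le_P hf) 0; rwa [z0 f hf] at this
  have li : ∀ f ∈ F, ls f⁻¹ 1 = - ls f 1 := fun f hf => by
    have := ls_inv (F.le_P hf) 1; rwa [z1 f hf] at this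
  let K : Subgroup Q :=
    { carrier := {f | f ∈ F ∧ ∃ m ∈ M, rs m 0 = rs f 0 ∧ ls m 1 = ls f 1}
      one_mem' := ⟨F.one_mem, 1, M.one_mem, rfl, rfl⟩
      mul_mem' := by
        rintro f g ⟨hf, m, hm, h1, h2⟩ ⟨hg, m', hm', h1', h2'⟩
        refine ⟨F.mul_mem hf hg, m * m', M.mul_mem hm hm', ?_, ?_⟩
        · rw [r _ (hM.le hm) _ (hM.le hm'), r _ hf _ hg, h1, h1']
        · rw [l _ (hM.le hm) _ (hM.le hm'), l _ hf _ hg, h2, h2']
      inv_mem' := by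
        rintro f ⟨hf, m, hm, h1, h2⟩
        refine ⟨F.inv_mem hf, m⁻¹, M.inv_mem hm, ?_, ?_⟩
        · rw [ri _ (hM.le hm), ri _ hf, h1]
        · rw [li _ (hM.le hm), li _ hf, h2] }
  rcases hM.maxi K (fun m hm => ⟨hM.le hm, m, hm, rfl, rfl⟩) (fun f hf => hf.1) with h | h
  · exfalso
    refine hM.notComm fun f hf g hg => ?_
    rw [← h]
    refine ⟨F.mul_mem (F.mul_mem (F.mul_mem hf hg) (F.inv_mem hf)) (F.inv_mem hg), 1, M.one_mem,
      ?_, ?_⟩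
    · rw [rs_one, r _ (F.mul_mem (F.mul_mem hf hg) (F.inv_mem hf)) _ (F.inv_mem hg),
        r _ (F.mul_mem hf hg) _ (F.inv_mem hf), r f hf g hg, ri f hf, ri g hg]
      ring
    · rw [ls_one, l _ (F.mul_mem (F.mul_mem hf hg) (F.inv_mem hf)) _ (F.inv_mem hg),
        l _ (F.mul_mem hf hg) _ (F.inv_mem hf), l f hf g hg, li f hf, li g hg]
      ring
  · have hf' := hf
    rw [← h] at hf'
    exact hf'.2

/-- the elements trivial near 0 (or 1) and contracting at the other end -/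
lemma exists_tau (hM : MaxSub M) : ∃ τ0 ∈ M, ∃ τ1 ∈ M, ∃ δ : ℚ, Dy δ ∧ 0 < δ ∧ δ < 1/2 ∧
    (∀ x, 0 ≤ x → x ≤ δ → τ0 x = x / 2) ∧ (∀ x, 1 - δ ≤ x → τ0 x = x) ∧
    (∀ x, x ≤ δ → τ1 x = x) ∧ (∀ x, 1 - δ ≤ x → x ≤ 1 → τ1 x = 1 - (1 - x) / 2) := by
  have d2 : Dy (1/2 : ℚ) := by simpa using dy_zpow (-1)
  obtain ⟨f0, hf0, _, f0b, f0c⟩ := exists_F_rs dy_zero d2 (by norm_num) le_rfl (by norm_num) (-1)
  obtain ⟨f1, hf1, f1a, _, f1c⟩ := exists_F_ls d2 dy_one (by norm_num) (by norm_num) le_rfl (-1)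
  obtain ⟨m0, hm0, m0a, m0b⟩ := hM.exists_slopes hf0
  obtain ⟨m1, hm1, m1a, m1b⟩ := hM.exists_slopes hf1
  have e0 : ls f0 1 = 0 := by
    have := ls_congr (f := f0) (g := 1) (F.le_P hf0) (a := 1) (b := 1/2) (by norm_num)
      (fun x hx _ => f0b x hx)
    rw [this, ls_one]
  have e1 : rs f1 0 = 0 := by
    have := rs_congr (f := f1) (g := 1) (F.le_P hf1) (a := 0) (b := 1/2) (by norm_num)
      (fun x _ hx => f1a x hx)
    rw [this, rs_one]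
  obtain ⟨b0, hb0, H0⟩ := P.hasRS (F.le_P (hM.le hm0)) 0
  obtain ⟨c0, hc0, G0⟩ := P.hasLS (F.le_P (hM.le hm0)) 1
  obtain ⟨b1, hb1, H1⟩ := P.hasRS (F.le_P (hM.le hm1)) 0
  obtain ⟨c1, hc1, G1⟩ := P.hasLS (F.le_P (hM.le hm1)) 1
  rw [m0a, f0c, F.zero (hM.le hm0) le_rfl] at H0
  rw [m0b, e0, F.one (hM.le hm0) le_rfl] at G0
  rw [m1a, e1, F.zero (hM.le hm1) le_rfl] at H1
  rw [m1b, f1c, F.one (hM.le hm1) le_rfl] at G1
  obtain ⟨δ, hδ, hδ0, hδ1⟩ := exists_dy_between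
    (show 0 < min (min (min b0 (1 - c0)) (min b1 (1 - c1))) (1/2) by
      refine lt_min (lt_min (lt_min hb0 (by linarith)) (lt_min hb1 (by linarith))) (by norm_num))
  simp only [lt_min_iff] at hδ1
  obtain ⟨⟨⟨q1, q2⟩, q3, q4⟩, q5⟩ := hδ1
  refine ⟨m0, hm0, m1, hm1, δ, hδ, hδ0, q5, fun x h0 h1 => ?_, fun x h0 => ?_, fun x h0 => ?_,
    fun x h0 h1 => ?_⟩
  · rw [H0 x h0 (by linarith)]; norm_num; ring
  · rcases le_total x 1 with h | h
    · rw [G0 x (by linarith) h]; norm_num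
    · exact F.one (hM.le hm0) h
  · rcases le_total x 0 with h | h
    · exact F.zero (hM.le hm1) h
    · rw [H1 x h (by linarith)]; norm_num
  · rw [G1 x (by linarith) h1]; norm_num; ring

end MaxSub

/-! ### blocks -/

/-- block of imprimitivity -/
def IsBlock (M : Subgroup Q) (B : Set ℚ) : Prop :=
  ∀ m ∈ M, ∀ x ∈ B, m x ∈ B → ∀ y ∈ B, m y ∈ B

/-- lying in a common translate of the block -/
def SameBlock (M : Subgroup Q) (B : Set ℚ) (x y : ℚ) : Prop := ∃ m ∈ M, m x ∈ B ∧ m y ∈ B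

namespace IsBlock
variable {M : Subgroup Q} {B : Set ℚ}

lemma inv_mem (hB : IsBlock M B) {m : Q} (hm : m ∈ M) {x : ℚ} (hx : x ∈ B) (hmx : m x ∈ B)
    {y : ℚ} (hy : m y ∈ B) : y ∈ B := by
  have := hB m⁻¹ (M.inv_mem hm) (m x) hmx (by rwa [RelIso.inv_apply_self]) (m y) hy
  rwa [RelIso.inv_apply_self] at this

lemma same_iff_of_mem (hB : IsBlock M B) {x y : ℚ} (hx : x ∈ B) : SameBlock M B x y ↔ y ∈ B := by
  constructor
  · rintro ⟨m, hm, h1, h2⟩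
    exact hB.inv_mem hm hx h1 h2
  · intro hy
    exact ⟨1, M.one_mem, hx, hy⟩

end IsBlock

lemma SameBlock.symm {M : Subgroup Q} {B : Set ℚ} {x y : ℚ} (h : SameBlock M B x y) :
    SameBlock M B y x := by
  obtain ⟨m, hm, h1, h2⟩ := h; exact ⟨m, hm, h2, h1⟩

lemma SameBlock.trans {M : Subgroup Q} {B : Set ℚ} (hB : IsBlock M B) {x y z : ℚ}
    (h : SameBlock M B x y) (h' : SameBlock M B y z) : SameBlock M B x z := by
  obtain ⟨m, hm, h1, h2⟩ := h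
  obtain ⟨m', hm', h1', h2'⟩ := h'
  refine ⟨m', hm', ?_, h2'⟩
  have := hB (m' * m⁻¹) (M.mul_mem hm' (M.inv_mem hm)) (m y) h2 (by
    rw [RelIso.mul_apply, RelIso.inv_apply_self]; exact h1') (m x) h1
  rwa [RelIso.mul_apply, RelIso.inv_apply_self] at this

lemma SameBlock.map {M : Subgroup Q} {B : Set ℚ} {x y : ℚ} (h : SameBlock M B x y) {m : Q}
    (hm : m ∈ M) : SameBlock M B (m x) (m y) := by
  obtain ⟨m', hm', h1, h2⟩ := h
  refine ⟨m' * m⁻¹, M.mul_mem hm' (M.inv_mem hm), ?_, ?_⟩ <;>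
    rw [RelIso.mul_apply, RelIso.inv_apply_self] <;> assumption

/-- an element of F moving one of two dyadic points off a set and fixing the other -/
lemma exists_F_sep {b1 b2 d : ℚ} (hb1 : Dy b1) (hb2 : Dy b2) (hd : Dy d) (h0 : 0 < b1)
    (h1 : b1 < b2) (h2 : b2 < 1) (d0 : 0 < d) (d1 : d < 1) (hd1 : d ≠ b1) :
    ∃ f ∈ F, (f b1 = b1 ∧ f b2 = d) ∨ (f b2 = b2 ∧ f b1 = d) := by
  rcases lt_or_gt_of_ne hd1 with h | h
  · obtain ⟨f, hf, hf1, -, hf2⟩ := exists_F_move dy_zero hb2 hb1 hd le_rfl h2.le h0 h1 d0 (h.trans h1)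
    exact ⟨f, hf, Or.inr ⟨hf2 _ le_rfl, hf1⟩⟩
  · obtain ⟨f, hf, hf1, hf2, -⟩ := exists_F_move hb1 dy_one hb2 hd h0.le le_rfl h1 h2 h d1
    exact ⟨f, hf, Or.inl ⟨hf2 _ le_rfl, hf1⟩⟩

/-- the block principle -/
theorem MaxSub.block_principle {M : Subgroup Q} (hM : MaxSub M) {B : Set ℚ} (hB : IsBlock M B)
    {b1 b2 d : ℚ} (hb1 : Dy b1) (hb2 : Dy b2) (hd : Dy d) (h0 : 0 < b1) (h1 : b1 < b2)
    (h2 : b2 < 1) (b1B : b1 ∈ B) (b2B : b2 ∈ B) (d0 : 0 < d) (d1 : d < 1) (dB : d ∉ B) :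
    ∀ f ∈ F, (∀ x, x ∉ B → f x = x) → f ∈ M := by
  let K : Subgroup Q :=
    { carrier := {f | f ∈ F ∧ ∀ x y, SameBlock M B x y ↔ SameBlock M B (f x) (f y)}
      one_mem' := ⟨F.one_mem, fun x y => Iff.rfl⟩
      mul_mem' := by
        rintro f g ⟨hf, hf'⟩ ⟨hg, hg'⟩
        exact ⟨F.mul_mem hf hg, fun x y => by
          rw [hg' x y, hf' (g x) (g y)]; rfl⟩
      inv_mem' := by
        rintro f ⟨hf, hf'⟩
        exact ⟨F.inv_mem hf, fun x y => by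
          rw [hf' (f⁻¹ x) (f⁻¹ y), RelIso.apply_inv_self, RelIso.apply_inv_self]⟩ }
  have hMK : M ≤ K := by
    intro m hm
    refine ⟨hM.le hm, fun x y => ⟨fun h => h.map hm, fun h => ?_⟩⟩
    have := h.map (M.inv_mem hm)
    rwa [RelIso.inv_apply_self, RelIso.inv_apply_self] at this
  have key : ∀ f ∈ F, (∀ x, x ∉ B → f x = x) → ∀ x y, SameBlock M B x y →
      SameBlock M B (f x) (f y) := by
    intro f hf hfB x y hxy
    have hfB' : ∀ x ∈ B, f x ∈ B := by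
      intro x hx
      by_contra h
      have h3 := hfB _ h
      have h4 := f.injective h3
      rw [h4] at h
      exact h hx
    by_cases hx : x ∈ B
    · have hy := (hB.same_iff_of_mem hx).1 hxy
      exact ⟨1, M.one_mem, hfB' x hx, hfB' y hy⟩
    · have hy : y ∉ B := fun hy => hx ((hB.same_iff_of_mem hy).1 hxy.symm)
      rw [hfB x hx, hfB y hy]; exact hxy
  intro f hf hfB
  have hfK : f ∈ K := by
    refine ⟨hf, fun x y => ⟨key f hf hfB x y, fun h => ?_⟩⟩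
    have hfB' : ∀ x, x ∉ B → f⁻¹ x = x := by
      intro x hx
      conv_lhs => rw [← hfB x hx]
      exact RelIso.inv_apply_self _ _
    have := key f⁻¹ (F.inv_mem hf) hfB' _ _ h
    rwa [RelIso.inv_apply_self, RelIso.inv_apply_self] at this
  rcases hM.maxi K hMK (fun g hg => hg.1) with h | h
  · rw [← h]; exact hfK
  · exfalso
    obtain ⟨g, hg, hg'⟩ := exists_F_sep hb1 hb2 hd h0 h1 h2 d0 d1 (fun h => dB (h ▸ b1B))
    rw [← h] at hg
    have s12 : SameBlock M B b1 b2 := ⟨1, M.one_mem, b1B, b2B⟩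
    rcases hg' with ⟨e1, e2⟩ | ⟨e1, e2⟩
    · have := (hg.2 b1 b2).1 s12
      rw [e1, e2] at this
      exact dB ((hB.same_iff_of_mem b1B).1 this)
    · have := (hg.2 b1 b2).1 s12
      rw [e1, e2] at this
      exact dB ((hB.same_iff_of_mem b2B).1 this.symm)

/-! ### laminar families -/

/-- translates of J are nested or disjoint -/
def Laminar (M : Subgroup Q) (J : Set ℚ) : Prop :=
  ∀ m ∈ M, ∀ x ∈ J, m x ∈ J → (∀ y ∈ J, m y ∈ J) ∨ (∀ y ∈ J, m⁻¹ y ∈ J)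

/-- the union of all translates of J containing J -/
def Anc (M : Subgroup Q) (J : Set ℚ) : Set ℚ :=
  {x | ∃ m ∈ M, (∀ y ∈ J, m⁻¹ y ∈ J) ∧ m⁻¹ x ∈ J}

/-- translates -/
def Tr (m : Q) (J : Set ℚ) : Set ℚ := {x | m⁻¹ x ∈ J}

lemma Laminar.nested {M : Subgroup Q} {J : Set ℚ} (hJ : Laminar M J) {m m' : Q} (hm : m ∈ M)
    (hm' : m' ∈ M) {x : ℚ} (h1 : x ∈ Tr m J) (h2 : x ∈ Tr m' J) :
    Tr m J ⊆ Tr m' J ∨ Tr m' J ⊆ Tr m J := by
  have h3 : (m'⁻¹ * m) (m⁻¹ x) ∈ J := by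
    rw [RelIso.mul_apply, RelIso.apply_inv_self]; exact h2
  rcases hJ (m'⁻¹ * m) (M.mul_mem (M.inv_mem hm') hm) (m⁻¹ x) h1 h3 with h | h
  · left
    intro y hy
    have := h _ hy
    rwa [RelIso.mul_apply, RelIso.apply_inv_self] at this
  · right
    intro y hy
    have := h _ hy
    rwa [mul_inv_rev, inv_inv, RelIso.mul_apply, RelIso.apply_inv_self] at this

lemma Tr_conn {m : Q} {J : Set ℚ} (hJ : J.OrdConnected) : (Tr m J).OrdConnected := by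
  refine ⟨fun x hx y hy z hz => ?_⟩
  exact hJ.out hx hy ⟨(m⁻¹).monotone hz.1, (m⁻¹).monotone hz.2⟩

lemma mem_Anc_iff {M : Subgroup Q} {J : Set ℚ} {x : ℚ} :
    x ∈ Anc M J ↔ ∃ m ∈ M, J ⊆ Tr m J ∧ x ∈ Tr m J := Iff.rfl

lemma subset_Anc {M : Subgroup Q} {J : Set ℚ} : J ⊆ Anc M J :=
  fun x hx => ⟨1, M.one_mem, fun y hy => hy, hx⟩

/-- two members of the ancestor chain -/
lemma Laminar.chain {M : Subgroup Q} {J : Set ℚ} (hJ : Laminar M J) (hne : J.Nonempty) {m m' : Q}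
    (hm : m ∈ M) (hm' : m' ∈ M) (h1 : J ⊆ Tr m J) (h2 : J ⊆ Tr m' J) :
    Tr m J ⊆ Tr m' J ∨ Tr m' J ⊆ Tr m J := by
  obtain ⟨x, hx⟩ := hne
  exact hJ.nested hm hm' (h1 hx) (h2 hx)

lemma Tr_mul {h m : Q} {J : Set ℚ} {x : ℚ} : h x ∈ Tr (h * m) J ↔ x ∈ Tr m J := by
  simp only [Tr, Set.mem_ofPred_eq, mul_inv_rev, RelIso.mul_apply, RelIso.inv_apply_self]

lemma Anc_isBlock {M : Subgroup Q} {J : Set ℚ} (hJ : Laminar M J) (hne : J.Nonempty) :
    IsBlock M (Anc M J) := by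
  rintro h hh x ⟨m, hm, hm1, hm2⟩ ⟨m', hm', hm1', hm2'⟩ y ⟨m'', hm'', hm1'', hm2''⟩
  obtain ⟨j, hj⟩ := hne
  have hx1 : h x ∈ Tr (h * m) J := Tr_mul.2 hm2
  have hhm := M.mul_mem hh hm
  have hhm'' := M.mul_mem hh hm''
  have hy1 : h y ∈ Tr (h * m'') J := Tr_mul.2 hm2''
  rcases hJ.nested hhm hm' hx1 hm2' with h1 | h1
  · -- Tr (h m) ⊆ Tr m'
    have h3 : h j ∈ Tr (h * m'') J := Tr_mul.2 (hm1'' j hj)
    have h4 : h j ∈ Tr m' J := h1 (Tr_mul.2 (hm1 j hj))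
    rcases hJ.nested hhm'' hm' h3 h4 with h5 | h5
    · exact ⟨m', hm', hm1', h5 hy1⟩
    · exact ⟨h * m'', hhm'', fun z hz => h5 (hm1' z hz), hy1⟩
  · -- Tr m' ⊆ Tr (h m)
    have h2 : J ⊆ Tr (h * m) J := fun z hz => h1 (hm1' z hz)
    rcases hJ.nested hm'' hm (hm1'' j hj) (hm1 j hj) with h5 | h5
    · exact ⟨h * m, hhm, h2, Tr_mul.2 (h5 hm2'')⟩
    · refine ⟨h * m'', hhm'', fun z hz => ?_, hy1⟩
      have h6 : z ∈ Tr (h * m) J := h2 hz
      have h7 : h⁻¹ z ∈ Tr m J := by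
        rw [← RelIso.apply_inv_self h z] at h6
        exact Tr_mul.1 h6
      have h8 := h5 h7
      have := Tr_mul (h := h) |>.2 h8
      rwa [RelIso.apply_inv_self] at this

lemma Anc_conn {M : Subgroup Q} {J : Set ℚ} (hJ : Laminar M J) (hne : J.Nonempty)
    (hc : J.OrdConnected) : (Anc M J).OrdConnected := by
  refine ⟨?_⟩
  rintro x ⟨m, hm, hm1, hm2⟩ y ⟨m', hm', hm1', hm2'⟩ z hz
  rcases hJ.chain hne hm hm' hm1 hm1' with h | h
  · exact ⟨m', hm', hm1', (Tr_conn hc).out (h hm2) hm2' hz⟩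
  · exact ⟨m, hm, hm1, (Tr_conn hc).out hm2 (h hm2') hz⟩

/-- the laminar lemma -/
theorem MaxSub.laminar_lemma {M : Subgroup Q} (hM : MaxSub M) {J : Set ℚ} (hJ : Laminar M J)
    (hne : J.Nonempty) (hc : J.OrdConnected) {p q : ℚ} (hp : 0 < p) (hq : q < 1)
    (hpJ : ∀ x ∈ J, p ≤ x) (hqJ : ∀ x ∈ J, x ≤ q) :
    ∃ d, Dy d ∧ 0 < d ∧ d < 1 ∧ d ∉ Anc M J := by
  by_contra hcon
  push Not at hcon
  obtain ⟨τ0, hτ0, τ1, hτ1, δ, hδ, hδ0, hδ1, T0, T0', T1, T1'⟩ := hM.exists_tau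
  have hd0 : Dy (δ / 2) := by
    have := Dy.zmul (-1) hδ
    rw [show (2:ℚ) ^ (-1:ℤ) * δ = δ / 2 by norm_num; ring] at this
    exact this
  -- a common member containing both δ/2 and 1 - δ/2
  have h0 := hcon (δ/2) hd0 (by linarith) (by linarith)
  have h1 := hcon (1 - δ/2) (dy_refl hd0) (by linarith) (by linarith)
  obtain ⟨m, hm, hm0, hm1⟩ : ∃ m ∈ M, δ/2 ∈ Tr m J ∧ 1 - δ/2 ∈ Tr m J := by
    obtain ⟨m, hm, a1, a2⟩ := h0
    obtain ⟨m', hm', a1', a2'⟩ := h1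
    rcases hJ.chain hne hm hm' a1 a1' with h | h
    · exact ⟨m', hm', h a2, a2'⟩
    · exact ⟨m, hm, a2, h a2'⟩
  have hJ1c : (Tr m J).OrdConnected := Tr_conn hc
  have hmp : 0 < m p := F.pos (hM.le hm) hp
  have hmq : m q < 1 := F.lt_one (hM.le hm) hq
  have hpm : ∀ x ∈ Tr m J, m p ≤ x := fun x hx => by
    have := hpJ _ hx
    rw [← RelIso.apply_inv_self m x]; exact m.monotone this
  have hqm : ∀ x ∈ Tr m J, x ≤ m q := fun x hx => by
    have := hqJ _ hx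
    rw [← RelIso.apply_inv_self m x]; exact m.monotone this
  -- the leftmost power
  have exk : ∀ r : ℚ, 0 < r → ∃ k : ℕ, δ / 2 / 2 ^ k < r := by
    intro r hr
    obtain ⟨n, hn⟩ := exists_pow_lt_of_lt_one hr (show (1/2:ℚ) < 1 by norm_num)
    refine ⟨n, lt_of_le_of_lt ?_ hn⟩
    rw [div_le_iff₀ (by positivity), one_div, inv_pow, inv_mul_cancel₀ (by positivity)]
    linarith
  obtain ⟨x, hx, hx0, hxδ, hx2⟩ : ∃ x, x ∈ Tr m J ∧ 0 ≤ x ∧ x ≤ δ ∧ x / 2 ∉ Tr m J := by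
    by_contra hno
    push Not at hno
    have : ∀ k : ℕ, δ / 2 / 2 ^ k ∈ Tr m J := by
      intro k
      induction k with
      | zero => simpa using hm0
      | succ k ih =>
        have := hno _ ih (by positivity) (by
          rw [div_le_iff₀ (by positivity)]
          have : (1:ℚ) ≤ 2 ^ k := one_le_pow₀ (by norm_num)
          nlinarith)
        rwa [div_div, ← pow_succ] at this
    obtain ⟨k, hk⟩ := exk (m p) hmp
    exact absurd (hpm _ (this k)) (not_le.2 hk)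
  obtain ⟨y, hy, hy0, hy1, hy2⟩ : ∃ y, y ∈ Tr m J ∧ 1 - δ ≤ y ∧ y ≤ 1 ∧ 1 - (1 - y)/2 ∉ Tr m J := by
    by_contra hno
    push Not at hno
    have : ∀ k : ℕ, 1 - δ / 2 / 2 ^ k ∈ Tr m J := by
      intro k
      induction k with
      | zero => simpa using hm1
      | succ k ih =>
        have h9 : (0:ℚ) ≤ δ / 2 / 2 ^ k := by positivity
        have := hno _ ih (by
          have h8 : δ / 2 / 2 ^ k ≤ δ := by
            rw [div_le_iff₀ (by positivity)]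
            have : (1:ℚ) ≤ 2 ^ k := one_le_pow₀ (by norm_num)
            nlinarith
          linarith) (by linarith)
        rwa [sub_sub_cancel, div_div, ← pow_succ] at this
    obtain ⟨k, hk⟩ := exk (1 - m q) (by linarith)
    have := hqm _ (this k)
    linarith
  -- the crossing translates
  have c1 : τ0 x = x / 2 := T0 x hx0 hxδ
  have c2 : τ1 y = 1 - (1 - y)/2 := T1' y hy0 hy1
  have k0 : τ0 x ∈ Tr (τ0 * m) J := Tr_mul.2 hx
  have k1 : τ1 y ∈ Tr (τ1 * m) J := Tr_mul.2 hy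
  have inv1 : ∀ z, z ≤ δ → τ1⁻¹ z = z := fun z hz => by
    conv_lhs => rw [← T1 z hz]
    exact RelIso.inv_apply_self _ _
  have inv0 : ∀ z, 1 - δ ≤ z → τ0⁻¹ z = z := fun z hz => by
    conv_lhs => rw [← T0' z hz]
    exact RelIso.inv_apply_self _ _
  have common0 : δ / 2 ∈ Tr (τ0 * m) J := by
    have : τ0 δ = δ / 2 := T0 δ hδ0.le le_rfl
    rw [← this]
    exact Tr_mul.2 (hJ1c.out hm0 hm1 ⟨by linarith, by linarith⟩)
  have common1 : δ / 2 ∈ Tr (τ1 * m) J := by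
    have : τ1 (δ/2) = δ / 2 := T1 _ (by linarith)
    rw [← this]
    exact Tr_mul.2 hm0
  rcases hJ.nested (M.mul_mem hτ0 hm) (M.mul_mem hτ1 hm) common0 common1 with h | h
  · have := h k0
    rw [c1] at this
    have h3 : τ1⁻¹ (x/2) ∈ Tr m J := by
      rw [← RelIso.apply_inv_self τ1 (x/2)] at this
      exact Tr_mul.1 this
    rw [inv1 _ (by linarith)] at h3
    exact hx2 h3
  · have := h k1
    rw [c2] at this
    have h3 : τ0⁻¹ (1 - (1 - y)/2) ∈ Tr m J := by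
      rw [← RelIso.apply_inv_self τ0 (1 - (1 - y)/2)] at this
      exact Tr_mul.1 this
    rw [inv0 _ (by linarith)] at h3
    exact hy2 h3

/-! ### hulls of orbits of a monotone equivariant family -/

/-- a family of subgroups indexed by points -/
structure Fam (M : Subgroup Q) (W : ℚ → Subgroup Q) : Prop where
  le : ∀ a, W a ≤ M
  anti : ∀ a b, a ≤ b → W b ≤ W a
  conj : ∀ a, ∀ m ∈ M, ∀ w ∈ W a, m * w * m⁻¹ ∈ W (m a)
  fix : ∀ a, ∀ w ∈ W a, w a = a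

/-- convex hull of the orbit of b -/
def Hull (W : ℚ → Subgroup Q) (a b : ℚ) : Set ℚ :=
  {x | (∃ w ∈ W a, w b ≤ x) ∧ ∃ w ∈ W a, x ≤ w b}

namespace Fam
variable {M : Subgroup Q} {W : ℚ → Subgroup Q}

lemma mem_hull (W : ℚ → Subgroup Q) (a b : ℚ) : b ∈ Hull W a b :=
  ⟨⟨1, (W a).one_mem, le_rfl⟩, ⟨1, (W a).one_mem, le_rfl⟩⟩

lemma orbit_mem_hull {a b : ℚ} {w : Q} (hw : w ∈ W a) : w b ∈ Hull W a b :=
  ⟨⟨w, hw, le_rfl⟩, ⟨w, hw, le_rfl⟩⟩

lemma hull_conn (W : ℚ → Subgroup Q) (a b : ℚ) : (Hull W a b).OrdConnected := by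
  refine ⟨?_⟩
  rintro x ⟨⟨w, hw, h1⟩, -⟩ y ⟨-, ⟨w', hw', h2⟩⟩ z hz
  exact ⟨⟨w, hw, h1.trans hz.1⟩, ⟨w', hw', hz.2.trans h2⟩⟩

lemma hull_subset_of_mem {a b x : ℚ} (hx : x ∈ Hull W a b) : Hull W a b ⊆ Hull W a x := by
  obtain ⟨⟨w, hw, h1⟩, ⟨w', hw', h2⟩⟩ := hx
  rintro y ⟨⟨u, hu, h3⟩, ⟨u', hu', h4⟩⟩
  refine ⟨⟨u * w'⁻¹, (W a).mul_mem hu ((W a).inv_mem hw'), ?_⟩,
    ⟨u' * w⁻¹, (W a).mul_mem hu' ((W a).inv_mem hw), ?_⟩⟩
  · rw [RelIso.mul_apply]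
    refine le_trans (u.monotone ?_) h3
    rw [← RelIso.inv_apply_self w' b]; exact (w'⁻¹).monotone h2
  · rw [RelIso.mul_apply]
    refine le_trans h4 (u'.monotone ?_)
    rw [← RelIso.inv_apply_self w b]; exact (w⁻¹).monotone h1

lemma mem_hull_comm {a b x : ℚ} (hx : x ∈ Hull W a b) : b ∈ Hull W a x :=
  hull_subset_of_mem hx (mem_hull W a b)

lemma hull_eq_of_mem {a b x : ℚ} (hx : x ∈ Hull W a b) : Hull W a b = Hull W a x :=
  Set.Subset.antisymm (hull_subset_of_mem hx) (hull_subset_of_mem (mem_hull_comm hx))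

lemma hull_mono (hW : Fam M W) {a a' b : ℚ} (h : a ≤ a') : Hull W a' b ⊆ Hull W a b := by
  rintro x ⟨⟨w, hw, h1⟩, ⟨w', hw', h2⟩⟩
  exact ⟨⟨w, hW.anti _ _ h hw, h1⟩, ⟨w', hW.anti _ _ h hw', h2⟩⟩

lemma map_hull (hW : Fam M W) {a b x : ℚ} {m : Q} (hm : m ∈ M) (hx : x ∈ Hull W a b) :
    m x ∈ Hull W (m a) (m b) := by
  obtain ⟨⟨w, hw, h1⟩, ⟨w', hw', h2⟩⟩ := hx
  refine ⟨⟨m * w * m⁻¹, hW.conj a m hm w hw, ?_⟩, ⟨m * w' * m⁻¹, hW.conj a m hm w' hw', ?_⟩⟩ <;>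
    rw [RelIso.mul_apply, RelIso.mul_apply, RelIso.inv_apply_self]
  · exact m.monotone h1
  · exact m.monotone h2

lemma hull_laminar (hW : Fam M W) (a b : ℚ) : Laminar M (Hull W a b) := by
  have key : ∀ m ∈ M, a ≤ m a → ∀ x ∈ Hull W a b, m x ∈ Hull W a b → ∀ y ∈ Hull W a b,
      m y ∈ Hull W a b := by
    intro m hm hma x hx hmx y hy
    have h1 : ∀ z ∈ Hull W a b, m z ∈ Hull W a (m b) := fun z hz =>
      hW.hull_mono hma (hW.map_hull hm hz)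
    have h2 : Hull W a (m b) = Hull W a b := by
      rw [hull_eq_of_mem (h1 x hx), ← hull_eq_of_mem hmx]
    rw [← h2]
    exact h1 y hy
  intro m hm x hx hmx
  rcases le_total a (m a) with h | h
  · exact Or.inl (key m hm h x hx hmx)
  · right
    refine key m⁻¹ (M.inv_mem hm) ?_ (m x) hmx (by rwa [RelIso.inv_apply_self])
    conv_lhs => rw [← RelIso.inv_apply_self m a]
    exact (m⁻¹).monotone h

lemma lt_of_mem_hull (hW : Fam M W) {a b x : ℚ} (hab : a < b) (hx : x ∈ Hull W a b) : a < x := by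
  obtain ⟨⟨w, hw, h1⟩, -⟩ := hx
  refine lt_of_lt_of_le ?_ h1
  rw [← hW.fix a w hw]
  exact w.strictMono hab

/-- the hull has no maximum if b is moved -/
lemma exists_gt (hW : Fam M W) {a b : ℚ} (hmv : ∃ w ∈ W a, w b ≠ b) {w : Q} (hw : w ∈ W a) :
    ∃ w' ∈ W a, w b < w' b := by
  obtain ⟨u, hu, hub⟩ := hmv
  rcases lt_or_gt_of_ne hub with h | h
  · refine ⟨w * u⁻¹, (W a).mul_mem hw ((W a).inv_mem hu), ?_⟩
    rw [RelIso.mul_apply]
    apply w.strictMono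
    conv_lhs => rw [← RelIso.inv_apply_self u b]
    exact (u⁻¹).strictMono h
  · exact ⟨w * u, (W a).mul_mem hw hu, w.strictMono h⟩

lemma exists_lt (hW : Fam M W) {a b : ℚ} (hmv : ∃ w ∈ W a, w b ≠ b) {w : Q} (hw : w ∈ W a) :
    ∃ w' ∈ W a, w' b < w b := by
  obtain ⟨u, hu, hub⟩ := hmv
  rcases lt_or_gt_of_ne hub with h | h
  · exact ⟨w * u, (W a).mul_mem hw hu, w.strictMono h⟩
  · refine ⟨w * u⁻¹, (W a).mul_mem hw ((W a).inv_mem hu), ?_⟩
    rw [RelIso.mul_apply]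
    apply w.strictMono
    conv_rhs => rw [← RelIso.inv_apply_self u b]
    exact (u⁻¹).strictMono h

end Fam

end Pool.Agent.ThF
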