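import Pool.Agent.Lib.MP_a06c1e_al.Phase1b

set_option autoImplicit false

namespace Pool.Agent.ThF
open Vx

/-- vertices inside [0,1] -/
def Vx.In (v : Vx) : Prop := 0 ≤ v.lo ∧ v.hi ≤ 1

lemma Vx.In.n_nonneg {v : Vx} (h : v.In) : 0 ≤ v.n := by
  by_contra hn
  push Not at hn
  have h1 := v.hi_sub_lo
  have h2 : (2:ℚ) ^ (-v.n) ≤ 1 := by rw [← h1]; linarith [h.1, h.2]
  have h3 : (1:ℚ) < (2:ℚ) ^ (-v.n) := one_lt_zpow₀ (by norm_num) (by linarith)
  linarith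

lemma Lin.in {f : Q} (hf : f ∈ F) {v w : Vx} (h : Lin f v w) (hv : v.In) : w.In := by
  constructor
  · rw [← h.lo, ← F.zero hf le_rfl]; exact f.monotone hv.1
  · rw [← h.hi, ← F.one hf le_rfl]; exact f.monotone hv.2

/-- orbit relation on vertices -/
def VRel (G : Subgroup Q) (v w : Vx) : Prop := ∃ g ∈ G, Lin g v w

lemma VRel.refl (G : Subgroup Q) (v : Vx) : VRel G v v := ⟨1, G.one_mem, Lin.one v⟩
lemma VRel.symm {G : Subgroup Q} {v w : Vx} (h : VRel G v w) : VRel G w v := by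
  obtain ⟨g, hg, h⟩ := h; exact ⟨g⁻¹, G.inv_mem hg, h.inv⟩
lemma VRel.trans {G : Subgroup Q} {u v w : Vx} (h : VRel G u v) (h' : VRel G v w) : VRel G u w := by
  obtain ⟨g, hg, h⟩ := h
  obtain ⟨g', hg', h'⟩ := h'
  exact ⟨g' * g, G.mul_mem hg' hg, h'.mul h⟩

/-- uniform level for a finitely generated group -/
lemma fg_level {M : Subgroup Q} (hMP : M ≤ P) {S : Set Q} (hS : S.Finite)
    (hSM : Subgroup.closure S = M) :
    ∃ N : ℤ, ∀ s ∈ S, ∀ v : Vx, N ≤ v.n → (∃ w, Lin s v w) ∧ ∃ w, Lin s⁻¹ v w := by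
  have h : ∀ s : Q, ∃ N : ℤ, s ∈ S → ∀ v : Vx, N ≤ v.n → (∃ w, Lin s v w) ∧ ∃ w, Lin s⁻¹ v w := by
    intro s
    by_cases hs : s ∈ S
    · have hsP : s ∈ P := hMP (hSM ▸ Subgroup.subset_closure hs)
      obtain ⟨N, hN⟩ := P.level hsP
      obtain ⟨N', hN'⟩ := P.level (P.inv_mem hsP)
      exact ⟨max N N', fun _ v hv => ⟨hN v ((le_max_left _ _).trans hv),
        hN' v ((le_max_right _ _).trans hv)⟩⟩
    · exact ⟨0, fun h => absurd h hs⟩
  choose Nf hNf using h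
  obtain ⟨N, hN⟩ := (hS.image Nf).bddAbove
  exact ⟨N, fun s hs v hv => hNf s hs v (le_trans (hN ⟨s, hs, rfl⟩) hv)⟩

/-- S3: every vertex is equivalent to a shallow one -/
theorem MaxSub.shallow {M : Subgroup Q} (hM : MaxSub M) (hfg : M.FG) :
    ∃ N : ℤ, ∀ u : Vx, u.In → ∃ w : Vx, w.In ∧ w.n ≤ N ∧ VRel M u w := by
  obtain ⟨S, hSM, hS⟩ := (Subgroup.fg_iff M).1 hfg
  obtain ⟨N0, hN0⟩ := fg_level (hM.le.trans F.le_P) hS hSM
  obtain ⟨N, hN1, hN⟩ : ∃ N : ℤ, 1 ≤ N ∧ ∀ s ∈ S, ∀ v : Vx, N ≤ v.n →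
      (∃ w, Lin s v w) ∧ ∃ w, Lin s⁻¹ v w :=
    ⟨max N0 1, le_max_right _ _, fun s hs v hv => hN0 s hs v ((le_max_left _ _).trans hv)⟩
  refine ⟨N, fun u hu => ?_⟩
  by_contra hcon
  push Not at hcon
  have hdeep : ∀ v, VRel M u v → N ≤ v.n := by
    intro v hv
    by_contra h
    push Not at h
    have hvin : v.In := by
      obtain ⟨g, hg, hgl⟩ := hv
      exact hgl.in (hM.le hg) hu
    exact hcon v hvin h.le hv
  -- all elements of M are linear on the class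
  have hlin : ∀ m ∈ M, ∀ v, VRel M u v → ∃ w, Lin m v w := by
    intro m hm
    rw [← hSM] at hm
    induction hm using Subgroup.closure_induction_left with
    | one => exact fun v _ => ⟨v, Lin.one v⟩
    | mul_left s hs y hy ih =>
      intro v hv
      obtain ⟨w, hw⟩ := ih v hv
      have hyM : y ∈ M := by rw [← hSM]; exact hy
      obtain ⟨w', hw'⟩ := (hN s hs w (hdeep w (hv.trans ⟨y, hyM, hw⟩))).1
      exact ⟨w', hw'.mul hw⟩
    | inv_mul_cancel s hs y hy ih =>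
      intro v hv
      obtain ⟨w, hw⟩ := ih v hv
      have hyM : y ∈ M := by rw [← hSM]; exact hy
      obtain ⟨w', hw'⟩ := (hN s hs w (hdeep w (hv.trans ⟨y, hyM, hw⟩))).2
      exact ⟨w', hw'.mul hw⟩
  -- minimal depth representative
  obtain ⟨u0, hu0, hmin⟩ : ∃ u0, VRel M u u0 ∧ ∀ v, VRel M u v → u0.n ≤ v.n := by
    classical
    have hex : ∃ k : ℕ, ∃ v, VRel M u v ∧ (v.n - N).toNat = k := ⟨_, u, VRel.refl M u, rfl⟩
    obtain ⟨v, hv, hvk⟩ := Nat.find_spec hex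
    refine ⟨v, hv, fun w hw => ?_⟩
    have h1 := Nat.find_min' hex ⟨w, hw, rfl⟩
    rw [← hvk] at h1
    have h2 := hdeep v hv
    have h3 := hdeep w hw
    have h4 : ((v.n - N).toNat : ℤ) ≤ ((w.n - N).toNat : ℤ) := by exact_mod_cast h1
    rw [Int.toNat_of_nonneg (by linarith), Int.toNat_of_nonneg (by linarith)] at h4
    linarith
  have hu0in : u0.In := by
    obtain ⟨g, hg, hgl⟩ := hu0
    exact hgl.in (hM.le hg) hu
  have hlin0 : ∀ m ∈ M, ∃ w, Lin m u0 w := fun m hm => hlin m hm u0 hu0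
  have hmin0 : ∀ m ∈ M, ∀ w, Lin m u0 w → u0.n ≤ w.n := fun m hm w hw =>
    hmin w (hu0.trans ⟨m, hm, hw⟩)
  -- the block
  have hblock : IsBlock M {x | u0.lo < x ∧ x < u0.hi} := by
    intro m hm x hx hmx y hy
    obtain ⟨v, hv⟩ := hlin0 m hm
    have hvn := hmin0 m hm v hv
    obtain ⟨hx1, hx2⟩ := hx
    obtain ⟨hmx1, hmx2⟩ := hmx
    have h1 : v.lo < m x := by rw [← hv.lo]; exact m.strictMono hx1
    have h2 : m x < v.hi := by rw [← hv.hi]; exact m.strictMono hx2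
    have hlo : u0.lo ≤ v.lo := by
      by_contra h
      push Not at h
      obtain ⟨k, j, hj0, hj1, hkj⟩ : ∃ k : ℕ, ∃ j : ℤ, 0 ≤ j ∧ j < 2 ^ k ∧ True := ⟨0, 0, by simp, by simp, trivial⟩
      -- both are multiples of 2^{-v.n}
      obtain ⟨k, hk⟩ := Int.le.dest hvn
      have e1 : u0.lo = (u0.i * 2 ^ k : ℤ) * (2:ℚ) ^ (-v.n) := by
        have := pt_desc u0 k 0 0
        simp only [Vx.desc, Int.cast_zero, add_zero, zero_div, Vx.pt] at this
        rw [Vx.lo, Vx.pt, add_zero, ← this, ← hk]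
      have e2 : v.lo = v.i * (2:ℚ) ^ (-v.n) := by rw [Vx.lo, Vx.pt, add_zero]
      have e3 : v.hi = (v.i + 1 : ℤ) * (2:ℚ) ^ (-v.n) := by rw [Vx.hi, Vx.pt]; push_cast; ring
      rw [e1, e2, mul_lt_mul_iff_left₀ (two_zpow_pos _)] at h
      have h3 : v.i < u0.i * 2 ^ k := by exact_mod_cast h
      have h4 : v.hi ≤ u0.lo := by
        rw [e1, e3, mul_le_mul_iff_left₀ (two_zpow_pos _)]
        exact_mod_cast h3
      linarith
    obtain ⟨k, j, hj0, hj1, rfl⟩ := Vx.desc_of_lo_mem hvn hlo (h1.trans hmx2)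
    obtain ⟨v', hv'⟩ := hlin0 m⁻¹ (M.inv_mem hm)
    have h3 := hv'.desc k j hj0 hj1
    have h4 := h3.unique hv.inv
    have h5 := hmin0 m⁻¹ (M.inv_mem hm) v' hv'
    have h6 : v'.n + (k:ℤ) = u0.n := congrArg Vx.n h4
    have hk0 : k = 0 := by
      have : (k:ℤ) ≤ 0 := by linarith
      omega
    subst hk0
    have hj : j = 0 := by
      have : j < 1 := by simpa using hj1
      omega
    subst hj
    have h7 : u0.desc 0 0 = u0 := by ext <;> simp [Vx.desc]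
    rw [h7] at hv
    constructor
    · rw [← hv.lo]; exact m.strictMono hy.1
    · rw [← hv.hi]; exact m.strictMono hy.2
  have hn0 : 1 ≤ u0.n := hN1.trans (hdeep u0 hu0)
  obtain ⟨x, y, hx, hy, h1, h2, h3⟩ := exists_two_dy u0.lo_lt_hi
  obtain ⟨d, hd, hd0, hd1, hdB⟩ : ∃ d, Dy d ∧ 0 < d ∧ d < 1 ∧ ¬ (u0.lo < d ∧ d < u0.hi) := by
    rcases eq_or_lt_of_le hu0in.1 with h | h
    · refine ⟨u0.hi, u0.dy_hi, ?_, ?_, fun h => lt_irrefl _ h.2⟩
      · rw [h]; exact u0.lo_lt_hi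
      · have h4 := u0.hi_sub_lo
        rw [← h, sub_zero] at h4
        rw [h4, zpow_neg]
        exact inv_lt_one_of_one_lt₀ (one_lt_zpow₀ (by norm_num) (by linarith))
    · exact ⟨u0.lo, u0.dy_lo, h, lt_of_lt_of_le u0.lo_lt_hi hu0in.2, fun h => lt_irrefl _ h.1⟩
  have hbp := hM.block_principle hblock hx hy hd (by linarith [hu0in.1]) h2 (by linarith [hu0in.2])
    ⟨h1, h2.trans h3⟩ ⟨h1.trans h2, h3⟩ hd0 hd1 hdB
  obtain ⟨f, hf, hf1, hf2, hf3⟩ := exists_F_move u0.dy_lo u0.dy_hi hx hy hu0in.1 hu0in.2 h1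
    (h2.trans h3) (h1.trans h2) h3
  have hfM : f ∈ M := by
    apply hbp f hf
    intro z hz
    simp only [Set.mem_ofPred_eq, not_and_or, not_lt] at hz
    rcases hz with hz | hz
    · exact hf2 z hz
    · exact hf3 z hz
  obtain ⟨w, hw⟩ := hlin0 f hfM
  have hwu : w = u0 := Vx.eq_of_lo_hi (by rw [← hw.lo, hf2 _ le_rfl]) (by rw [← hw.hi, hf3 _ le_rfl])
  rw [hwu] at hw
  have h5 : f x = x := by
    obtain ⟨t, ht0, ht1, rfl⟩ := (u0.mem_iff x).1 ⟨h1.le, (h2.trans h3).le⟩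
    exact hw t ht0 ht1
  rw [hf1] at h5
  linarith

/-- the finite set of shallow vertices -/
lemma shallow_finite (N : ℤ) : {w : Vx | w.In ∧ w.n ≤ N}.Finite := by
  have h1 : ({w : Vx | w.In ∧ w.n ≤ N}) ⊆ (fun p : ℤ × ℤ => (⟨p.1, p.2⟩ : Vx)) ''
      ((Finset.Icc (0:ℤ) N ×ˢ Finset.Icc (0:ℤ) (2 ^ N.toNat) : Finset (ℤ × ℤ)) : Set (ℤ × ℤ)) := by
    rintro w ⟨hw, hwN⟩
    have hn := hw.n_nonneg
    refine ⟨(w.n, w.i), ?_, rfl⟩
    simp only [Finset.coe_product, Finset.coe_Icc, Set.mem_prod, Set.mem_Icc]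
    refine ⟨⟨hn, hwN⟩, ?_, ?_⟩
    · have := hw.1
      simp only [Vx.lo, Vx.pt, add_zero] at this
      have h2 := (mul_nonneg_iff_of_pos_right (two_zpow_pos (-w.n))).1 this
      exact_mod_cast h2
    · have := hw.2
      simp only [Vx.hi, Vx.pt] at this
      rw [zpow_neg, ← div_eq_mul_inv, div_le_one (two_zpow_pos _)] at this
      have h2 : (2:ℚ) ^ w.n ≤ 2 ^ N := zpow_le_zpow_right₀ (by norm_num) hwN
      have h3 : (2:ℚ) ^ N = 2 ^ N.toNat := by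
        rw [← zpow_natCast, Int.toNat_of_nonneg (hn.trans hwN)]
      have h4 : (w.i : ℚ) ≤ 2 ^ N.toNat := by rw [← h3]; linarith
      exact_mod_cast h4
  exact Set.Finite.subset (Set.Finite.image _ (Finset.finite_toSet _)) h1

/-- finite colourings detecting orbits of vertices in a set -/
def FinV (G : Subgroup Q) (T : Vx → Prop) : Prop :=
  ∃ (ι : Type) (_ : Finite ι) (c : Vx → ι), ∀ v w, T v → T w → c v = c w → VRel G v w

/-- finite colourings detecting orbits of points in a set -/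
def FinPt (G : Subgroup Q) (T : ℚ → Prop) : Prop :=
  ∃ (ι : Type) (_ : Finite ι) (c : ℚ → ι), ∀ x y, T x → T y → c x = c y → ∃ g ∈ G, g x = y

theorem MaxSub.finV {M : Subgroup Q} (hM : MaxSub M) (hfg : M.FG) : FinV M Vx.In := by
  classical
  obtain ⟨N, hN⟩ := hM.shallow hfg
  have hfin := shallow_finite N
  have hex : ∀ v : Vx, ∃ w : {w : Vx | w.In ∧ w.n ≤ N}, v.In → VRel M v w := by
    intro v
    by_cases h : v.In
    · obtain ⟨w, h1, h2, h3⟩ := hN v h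
      exact ⟨⟨w, h1, h2⟩, fun _ => h3⟩
    · by_cases hne : ∃ u : Vx, u.In
      · obtain ⟨u, hu⟩ := hne
        obtain ⟨w, h1, h2, h3⟩ := hN u hu
        exact ⟨⟨w, h1, h2⟩, fun h' => absurd h' h⟩
      · exfalso
        apply hne
        exact ⟨⟨0, 0⟩, by simp [Vx.In, Vx.lo, Vx.hi, Vx.pt]⟩
  choose c hc using hex
  refine ⟨_, hfin.to_subtype, c, fun v w hv hw h => ?_⟩
  have h1 := hc v hv
  have h2 := hc w hw
  rw [h] at h1
  exact h1.trans h2.symm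

lemma FinV.finPt {G : Subgroup Q} (h : FinV G Vx.In) :
    FinPt G (fun x => Dy x ∧ 0 < x ∧ x < 1) := by
  classical
  obtain ⟨ι, hι, c, hc⟩ := h
  have hex : ∀ x : ℚ, ∃ v : Vx, (Dy x ∧ 0 < x ∧ x < 1) → v.In ∧ v.hi = x := by
    intro x
    by_cases hx : Dy x ∧ 0 < x ∧ x < 1
    · obtain ⟨hd, h0, h1⟩ := hx
      obtain ⟨N, hN⟩ := hd.level
      obtain ⟨i, hi⟩ := hN (max N 0) (le_max_left _ _)
      refine ⟨⟨max N 0, i - 1⟩, fun _ => ⟨⟨?_, ?_⟩, ?_⟩⟩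
      · have h2 : 0 < i := by
          rw [← hi] at h0
          simp only [Vx.lo, Vx.pt, add_zero] at h0
          have := (mul_pos_iff_of_pos_right (two_zpow_pos _)).1 h0
          exact_mod_cast this
        simp only [Vx.lo, Vx.pt, add_zero]
        refine mul_nonneg ?_ (two_zpow_pos _).le
        have : (1:ℤ) ≤ i := h2
        have h3 : (0:ℤ) ≤ i - 1 := by linarith
        exact_mod_cast h3
      · have : Vx.hi ⟨max N 0, i - 1⟩ = x := by rw [← hi]; simp [Vx.hi, Vx.lo, Vx.pt]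
        rw [this]; exact h1.le
      · rw [← hi]; simp [Vx.hi, Vx.lo, Vx.pt]
    · exact ⟨⟨0, 0⟩, fun h => absurd h hx⟩
  choose vf hvf using hex
  refine ⟨ι, hι, fun x => c (vf x), fun x y hx hy hxy => ?_⟩
  obtain ⟨hx1, hx2⟩ := hvf x hx
  obtain ⟨hy1, hy2⟩ := hvf y hy
  obtain ⟨g, hg, hgl⟩ := hc _ _ hx1 hy1 hxy
  exact ⟨g, hg, by rw [← hx2, hgl.hi, hy2]⟩

/-! ### one-sided stabilisers -/

/-- elements of M trivial on (-∞, a] -/
def Wg (M : Subgroup Q) (a : ℚ) : Subgroup Q where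
  carrier := {m | m ∈ M ∧ ∀ x, x ≤ a → m x = x}
  one_mem' := ⟨M.one_mem, fun _ _ => rfl⟩
  mul_mem' := by
    rintro f g ⟨hf, hfb⟩ ⟨hg, hgc⟩
    exact ⟨M.mul_mem hf hg, fun x hx => by rw [RelIso.mul_apply, hgc x hx, hfb x hx]⟩
  inv_mem' := by
    rintro f ⟨hf, hfb⟩
    exact ⟨M.inv_mem hf, fun x hx => inv_of_eq (hfb x hx)⟩

/-- elements of M trivial on [a, ∞) -/
def Vg (M : Subgroup Q) (a : ℚ) : Subgroup Q where
  carrier := {m | m ∈ M ∧ ∀ x, a ≤ x → m x = x}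
  one_mem' := ⟨M.one_mem, fun _ _ => rfl⟩
  mul_mem' := by
    rintro f g ⟨hf, hfb⟩ ⟨hg, hgc⟩
    exact ⟨M.mul_mem hf hg, fun x hx => by rw [RelIso.mul_apply, hgc x hx, hfb x hx]⟩
  inv_mem' := by
    rintro f ⟨hf, hfb⟩
    exact ⟨M.inv_mem hf, fun x hx => inv_of_eq (hfb x hx)⟩

lemma Wg.fam (M : Subgroup Q) : Fam M (Wg M) where
  le a := fun m hm => hm.1
  anti a b hab := by
    rintro m ⟨hm, h⟩
    exact ⟨hm, fun x hx => h x (hx.trans hab)⟩
  conj a m hm w hw := by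
    obtain ⟨hw, h⟩ := hw
    refine ⟨M.mul_mem (M.mul_mem hm hw) (M.inv_mem hm), fun x hx => ?_⟩
    have h1 : m⁻¹ x ≤ a := by
      rw [← RelIso.inv_apply_self m a]; exact (m⁻¹).monotone hx
    rw [RelIso.mul_apply, RelIso.mul_apply, h _ h1, RelIso.apply_inv_self]
  fix a w hw := hw.2 a le_rfl

/-- b lies in the last component of the complement of the fixed set of W_a -/
def Up (M : Subgroup Q) (a b : ℚ) : Prop := a < b ∧ b < 1 ∧ ∀ c, c < 1 → ∃ w ∈ Wg M a, c < w b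

section
variable {M : Subgroup Q}

lemma Up.mono {a b b' : ℚ} (h : Up M a b) (hb : b ≤ b') (hb1 : b' < 1) : Up M a b' :=
  ⟨lt_of_lt_of_le h.1 hb, hb1, fun c hc => by
    obtain ⟨w, hw, h1⟩ := h.2.2 c hc
    exact ⟨w, hw, lt_of_lt_of_le h1 (w.monotone hb)⟩⟩

lemma Up.anti {a a' b : ℚ} (h : Up M a' b) (ha : a ≤ a') : Up M a b :=
  ⟨lt_of_le_of_lt ha h.1, h.2.1, fun c hc => by
    obtain ⟨w, hw, h1⟩ := h.2.2 c hc
    exact ⟨w, (Wg.fam M).anti _ _ ha hw, h1⟩⟩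

lemma Up.map (hMF : M ≤ F) {a b : ℚ} (h : Up M a b) {m : Q} (hm : m ∈ M) : Up M (m a) (m b) := by
  refine ⟨m.strictMono h.1, F.lt_one (hMF hm) h.2.1, fun c hc => ?_⟩
  obtain ⟨w, hw, h1⟩ := h.2.2 (m⁻¹ c) (F.lt_one (F.inv_mem (hMF hm)) hc)
  refine ⟨m * w * m⁻¹, (Wg.fam M).conj a m hm w hw, ?_⟩
  rw [RelIso.mul_apply, RelIso.mul_apply, RelIso.inv_apply_self]
  have := m.strictMono h1
  rwa [RelIso.apply_inv_self] at this

lemma Up.map_iff (hMF : M ≤ F) {a b : ℚ} {m : Q} (hm : m ∈ M) : Up M (m a) b ↔ Up M a (m⁻¹ b) := by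
  constructor
  · intro h
    have := h.map hMF (M.inv_mem hm)
    rwa [RelIso.inv_apply_self] at this
  · intro h
    have := h.map hMF hm
    rwa [RelIso.apply_inv_self] at this

/-- no fixed cut -/
def NF (M : Subgroup Q) : Prop := ∀ b c, 0 < b → b < 1 → 0 < c → c < 1 → ∃ m ∈ M, c < m b

lemma NF.lt (h : NF M) {b c : ℚ} (hb0 : 0 < b) (hb1 : b < 1) (hc0 : 0 < c) (hc1 : c < 1) :
    ∃ m ∈ M, m b < c := by
  obtain ⟨m, hm, h1⟩ := h c b hc0 hc1 hb0 hb1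
  refine ⟨m⁻¹, M.inv_mem hm, ?_⟩
  rw [← RelIso.inv_apply_self m c]
  exact (m⁻¹).strictMono h1

lemma Up.exists (hM : MaxSub M) (hNF : NF M) {a : ℚ} (ha0 : 0 < a) (ha1 : a < 1) :
    ∃ b, Up M a b := by
  obtain ⟨τ0, hτ0, τ1, hτ1, δ, hδ, hδ0, hδ1, T0, T0', T1, T1'⟩ := hM.exists_tau
  obtain ⟨m, hm, hma⟩ := hNF δ a hδ0 (by linarith) ha0 ha1
  have hw : m * τ1 * m⁻¹ ∈ Wg M (m δ) := (Wg.fam M).conj δ m hm τ1 ⟨hτ1, T1⟩
  have hw' : m * τ1 * m⁻¹ ∈ Wg M a := (Wg.fam M).anti _ _ hma.le hw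
  refine ⟨m (1 - δ), ?_, F.lt_one (hM.le hm) (by linarith), fun c hc => ?_⟩
  · have : m δ < m (1 - δ) := m.strictMono (by linarith)
    linarith
  · have key : ∀ k : ℕ, (τ1 ^ k) (1 - δ) = 1 - δ / 2 ^ k := by
      intro k
      induction k with
      | zero => simp
      | succ k ih =>
        have h9 : δ / 2 ^ k ≤ δ := by
          rw [div_le_iff₀ (by positivity)]
          have : (1:ℚ) ≤ 2 ^ k := one_le_pow₀ (by norm_num)
          nlinarith
        have h8 : 0 < δ / 2 ^ k := by positivity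
        rw [pow_succ', RelIso.mul_apply, ih, T1' _ (by linarith) (by linarith)]
        rw [pow_succ]
        field_simp
        ring
    have hc' : m⁻¹ c < 1 := F.lt_one (F.inv_mem (hM.le hm)) hc
    obtain ⟨k, hk⟩ : ∃ k : ℕ, m⁻¹ c < 1 - δ / 2 ^ k := by
      obtain ⟨n, hn⟩ := exists_pow_lt_of_lt_one (show 0 < 1 - m⁻¹ c by linarith)
        (show (1/2:ℚ) < 1 by norm_num)
      refine ⟨n, ?_⟩
      have : δ / 2 ^ n ≤ (1/2) ^ n := by
        rw [div_le_iff₀ (by positivity), one_div, inv_pow, inv_mul_cancel₀ (by positivity)]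
        linarith
      linarith
    refine ⟨(m * τ1 * m⁻¹) ^ k, (Wg M a).pow_mem hw' k, ?_⟩
    rw [conj_pow, RelIso.mul_apply, RelIso.mul_apply, RelIso.inv_apply_self, key]
    have := m.strictMono hk
    rwa [RelIso.apply_inv_self] at this

/-- sub-claim: Up is constant on (a, b] if b is not in Up a -/
lemma Up.const (hM : MaxSub M) {a b : ℚ} (ha0 : 0 < a) (hb1 : b < 1) (hnb : ¬ Up M a b)
    {a' : ℚ} (ha' : Dy a') (haa : a < a') (hab : a' ≤ b) {y : ℚ} (hy : Up M a y) : Up M a' y := by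
  have hby : b < y := by
    by_contra h
    push Not at h
    exact hnb (hy.mono h hb1)
  refine ⟨lt_of_le_of_lt hab hby, hy.2.1, fun c hc => ?_⟩
  obtain ⟨w, hw, hwc⟩ := hy.2.2 c hc
  have hfam := Wg.fam M
  have ha'1 : a' < 1 := lt_of_le_of_lt hab hb1
  have hcl := hM.closed
  have hna' : ¬ Up M a a' := fun h => hnb (h.mono hab hb1)
  have hbd : ∃ q, q < 1 ∧ ∀ w ∈ Wg M a, w a' ≤ q := by
    by_contra h
    push Not at h
    exact hna' ⟨haa, ha'1, fun c hc => h c hc⟩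
  -- splitting of an element of M fixing a'
  have split : ∀ u ∈ M, u a' = a' → ∃ u' ∈ Wg M a', ∀ x, a' ≤ x → u' x = u x := by
    intro u hu hua
    have e : (1:Q) a' = u a' := hua.symm
    refine ⟨glue 1 u a' e, ⟨?_, fun x hx => glue_of_le _ hx⟩, fun x hx => glue_of_ge _ hx⟩
    rw [← hcl]
    exact glue_mem_Cl e (Cl M).one_mem (by rw [hcl]; exact hu) ha'
  by_cases hfix : ∀ w ∈ Wg M a, w a' = a'
  · obtain ⟨u, hu, hu'⟩ := split w hw.1 (hfix w hw)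
    exact ⟨u, hu, by rw [hu' y (lt_of_le_of_lt hab hby).le]; exact hwc⟩
  · push Not at hfix
    have hmv : ∃ w ∈ Wg M a, w a' ≠ a' := hfix
    obtain ⟨q, hq1, hq⟩ := hbd
    have hlam := hfam.hull_laminar a a'
    have hne : (Hull (Wg M) a a').Nonempty := ⟨a', Fam.mem_hull _ _ _⟩
    have hconn := Fam.hull_conn (Wg M) a a'
    obtain ⟨d, hd, d0, d1, hdA⟩ := hM.laminar_lemma hlam hne hconn ha0 hq1
      (fun x hx => (hfam.lt_of_mem_hull haa hx).le)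
      (fun x hx => by
        obtain ⟨-, ⟨w', hw', h⟩⟩ := hx
        exact h.trans (hq w' hw'))
    -- w a' and a' and bounds
    obtain ⟨up, hup, hup'⟩ := hfam.exists_gt hmv (w := 1) (Wg M a).one_mem
    obtain ⟨up2, hup2, hup2'⟩ := hfam.exists_gt hmv hw
    obtain ⟨dn, hdn, hdn'⟩ := hfam.exists_lt hmv (w := 1) (Wg M a).one_mem
    obtain ⟨dn2, hdn2, hdn2'⟩ := hfam.exists_lt hmv hw
    have h1a : (1:Q) a' = a' := rfl
    rw [h1a] at hup' hdn'
    -- top and bottom in the orbit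
    obtain ⟨T, hT, hTa, hTw⟩ : ∃ T ∈ Wg M a, a' < T a' ∧ w a' < T a' := by
      rcases le_total (up a') (up2 a') with h | h
      · exact ⟨up2, hup2, lt_of_lt_of_le hup' h, hup2'⟩
      · exact ⟨up, hup, hup', lt_of_lt_of_le hup2' h⟩
    obtain ⟨B, hB, hBa, hBw⟩ : ∃ B ∈ Wg M a, B a' < a' ∧ B a' < w a' := by
      rcases le_total (dn a') (dn2 a') with h | h
      · exact ⟨dn, hdn, hdn', lt_of_le_of_lt h hdn2'⟩
      · exact ⟨dn2, hdn2, lt_of_le_of_lt h hdn', hdn2'⟩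
    have dyw : ∀ u ∈ Wg M a, Dy (u a') := fun u hu => P.dy (F.le_P (hM.le hu.1)) ha'
    have posw : ∀ u ∈ Wg M a, 0 < u a' := fun u hu => F.pos (hM.le hu.1) (ha0.trans haa)
    have ltw : ∀ u ∈ Wg M a, u a' < 1 := fun u hu => F.lt_one (hM.le hu.1) ha'1
    have hbp := hM.block_principle (Anc_isBlock hlam hne) (dyw B hB) (dyw T hT) hd (posw B hB)
      (hBa.trans hTa) (ltw T hT) (subset_Anc (Fam.orbit_mem_hull hB))
      (subset_Anc (Fam.orbit_mem_hull hT)) d0 d1 hdA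
    obtain ⟨g, hg, hg1, hg2, hg3⟩ := exists_F_move (dyw B hB) (dyw T hT) (dyw w hw) ha'
      (posw B hB).le (ltw T hT).le hBw hTw hBa hTa
    have hgM : g ∈ M := by
      apply hbp g hg
      intro z hz
      by_contra hgz
      apply hz
      apply subset_Anc
      have h3 : B a' < z := by
        by_contra h; push Not at h; exact hgz (hg2 z h)
      have h4 : z < T a' := by
        by_contra h; push Not at h; exact hgz (hg3 z h)
      exact hconn.out (Fam.orbit_mem_hull hB) (Fam.orbit_mem_hull hT) ⟨h3.le, h4.le⟩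
    obtain ⟨u, hu, hu'⟩ := split (g * w) (M.mul_mem hgM hw.1) hg1
    refine ⟨u, hu, ?_⟩
    rw [hu' y (lt_of_le_of_lt hab hby).le, RelIso.mul_apply]
    have h5 : T a' < w y := by
      by_contra h
      push Not at h
      -- then a' in Up
      apply hna'
      refine ⟨haa, ha'1, fun c hc => ?_⟩
      obtain ⟨s, hs, hsc⟩ := hy.2.2 c hc
      refine ⟨s * w⁻¹ * T, (Wg M a).mul_mem ((Wg M a).mul_mem hs ((Wg M a).inv_mem hw)) hT, ?_⟩
      rw [RelIso.mul_apply, RelIso.mul_apply]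
      have h6 : y ≤ w⁻¹ (T a') := by
        rw [← RelIso.inv_apply_self w y]; exact (w⁻¹).monotone h
      exact lt_of_lt_of_le hsc (s.monotone h6)
    rw [hg3 _ h5.le]
    exact hwc

/-- the key statement for S4 -/
theorem Up.key (hM : MaxSub M) (hNF : NF M) {a b : ℚ} (ha : Dy a) (hb : Dy b) (ha0 : 0 < a)
    (hab : a < b) (hb1 : b < 1) (hnb : ¬ Up M a b) :
    ∀ f ∈ F, (∀ x, x ≤ a → f x = x) → (∀ x, b ≤ x → f x = x) → f ∈ M := by
  intro f hf hf0 hf1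
  have hblock := label_block (M := M) (fun x => {y | Up M x y}) (fun m hm x y h => by
    ext z
    have h' : {y | Up M x y} = {z | Up M y z} := h
    have := Set.ext_iff.1 h' (m⁻¹ z)
    simp only [Set.mem_ofPred_eq] at this ⊢
    rw [Up.map_iff hM.le hm, Up.map_iff hM.le hm]
    exact this) a
  have hbB : {y | Up M b y} = {y | Up M a y} := by
    ext y
    exact ⟨fun h => Up.anti h hab.le, fun h => Up.const hM ha0 hb1 hnb hb hab le_rfl h⟩
  obtain ⟨y, hy⟩ := Up.exists hM hNF ha0 (hab.trans hb1)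
  obtain ⟨d, hd, hd0, hd1⟩ := exists_dy_between hy.2.1
  have hdU : Up M a d := hy.mono hd0.le hd1
  refine hM.block_principle hblock ha hb hd ha0 hab hb1 rfl hbB (ha0.trans hdU.1) hd1 ?_ f hf ?_
  · intro h
    have h' : {y | Up M d y} = {y | Up M a y} := h
    have h3 : Up M d d := by
      have : d ∈ {y | Up M d y} := by rw [h']; exact hdU
      exact this
    exact lt_irrefl _ h3.1
  · intro z hz
    by_contra hfz
    apply hz
    have h3 : a < z := by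
      by_contra h; push Not at h; exact hfz (hf0 z h)
    have h4 : z < b := by
      by_contra h; push Not at h; exact hfz (hf1 z h)
    show {y | Up M z y} = {y | Up M a y}
    ext y
    constructor
    · exact fun h => Up.anti h h3.le
    · intro h
      have : y ∈ {y | Up M b y} := by rw [hbB]; exact h
      exact Up.anti this h4.le

lemma NF.rf (h : NF M) : NF (Rf M) := by
  intro b c hb0 hb1 hc0 hc1
  obtain ⟨m, hm, h1⟩ := h.lt (b := 1 - b) (c := 1 - c) (by linarith) (by linarith) (by linarith)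
    (by linarith)
  refine ⟨rho m, by rw [mem_Rf, rho_rho]; exact hm, ?_⟩
  rw [rho_apply]; linarith

/-- T0: for each b some W_a (a<b) acts cofinally on b -/
lemma exists_Up_left (hM : MaxSub M) (hNF : NF M) {b : ℚ} (hb0 : 0 < b) (hb1 : b < 1) :
    ∃ a, 0 < a ∧ Up M a b := by
  obtain ⟨β, hβ⟩ := Up.exists hM hNF (a := 1/2) (by norm_num) (by norm_num)
  obtain ⟨m, hm, h⟩ := hNF.lt (b := β) (by linarith [hβ.1]) hβ.2.1 hb0 hb1
  exact ⟨m (1/2), F.pos (hM.le hm) (by norm_num), (hβ.map hM.le hm).mono h.le hb1⟩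

/-- mirror: elements trivial near 1 move b to near 0 -/
lemma exists_M1_small (hM : MaxSub M) (hNF : NF M) {b c : ℚ} (hb0 : 0 < b) (hb1 : b < 1)
    (hc0 : 0 < c) : ∃ v ∈ M, (∃ e, e < 1 ∧ ∀ x, e ≤ x → v x = x) ∧ v b < c := by
  obtain ⟨a, ha, hU⟩ := exists_Up_left hM.rf hNF.rf (b := 1 - b) (by linarith) (by linarith)
  obtain ⟨w, ⟨hw, hw1⟩, hw2⟩ := hU.2.2 (1 - c) (by linarith)
  refine ⟨rho w, hw, ⟨1 - a, by linarith, fun x hx => ?_⟩, ?_⟩
  · rw [rho_apply, hw1 _ (by linarith)]; ring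
  · rw [rho_apply]; linarith

/-- T2 -/
lemma exists_M1_trans (hM : MaxSub M) (hNF : NF M) {b : ℚ} (hb0 : 0 < b) (hb1 : b < 1) {m : Q}
    (hm : m ∈ M) : ∃ v ∈ M, (∃ e, e < 1 ∧ ∀ x, e ≤ x → v x = x) ∧ v b = m b := by
  obtain ⟨m1, hm1, m0, hm0, rfl, ⟨c, hc0, hc1, hc⟩, ⟨b0, hb00, hb01, hb⟩⟩ := hM.decomp hm
  obtain ⟨v, hv, ⟨e, he, hve⟩, hvb⟩ := exists_M1_small hM hNF hb0 hb1 hb00
  have h1 : m0 (v b) = v b := hb _ hvb.le
  refine ⟨m1 * (m0 * v⁻¹ * m0⁻¹) * v, M.mul_mem (M.mul_mem hm1 (M.mul_mem (M.mul_mem hm0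
    (M.inv_mem hv)) (M.inv_mem hm0))) hv, ⟨max (max c (m0 e)) e, ?_, fun x hx => ?_⟩, ?_⟩
  · exact max_lt (max_lt hc1 (F.lt_one (hM.le hm0) he)) he
  · have h2 : c ≤ x := le_trans (le_trans (le_max_left _ _) (le_max_left _ _)) hx
    have h3 : m0 e ≤ x := le_trans (le_trans (le_max_right _ _) (le_max_left _ _)) hx
    have h4 : e ≤ x := le_trans (le_max_right _ _) hx
    have h5 : e ≤ m0⁻¹ x := by
      rw [← RelIso.inv_apply_self m0 e]; exact (m0⁻¹).monotone h3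
    rw [RelIso.mul_apply, RelIso.mul_apply, RelIso.mul_apply, RelIso.mul_apply, hve x h4,
      inv_of_eq (hve _ h5), RelIso.apply_inv_self, hc x h2]
  · rw [RelIso.mul_apply, RelIso.mul_apply, RelIso.mul_apply, RelIso.mul_apply, RelIso.mul_apply,
      inv_of_eq h1, RelIso.inv_apply_self]

/-- S4 in the case without fixed cuts -/
lemma finPt_V_of_NF (hM : MaxSub M) (hNF : NF M) (hfin : FinPt M (fun x => Dy x ∧ 0 < x ∧ x < 1))
    {a : ℚ} (ha : Dy a) (ha1 : a < 1) :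
    FinPt (Vg M a) (fun x => Dy x ∧ 0 < x ∧ x < a) := by
  classical
  obtain ⟨ι, hι, c, hc⟩ := hfin
  refine ⟨ι × Prop × Prop, inferInstance, fun x => (c x, Up M x a, ∃ y, Dy y ∧ 0 < y ∧ y < x ∧ ¬ Up M y a), ?_⟩
  rintro x y ⟨hx, hx0, hxa⟩ ⟨hy, hy0, hya⟩ hxy
  simp only [Prod.mk.injEq] at hxy
  obtain ⟨h1, h2, h3⟩ := hxy
  by_cases hU : Up M x a
  · have hU' : Up M y a := by rw [← h2]; exact hU
    obtain ⟨m, hm, hmx⟩ := hc x y ⟨hx, hx0, hxa.trans ha1⟩ ⟨hy, hy0, hya.trans ha1⟩ h1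
    obtain ⟨v, hv, ⟨e, he, hve⟩, hvx⟩ := exists_M1_trans hM hNF hx0 (hxa.trans ha1) hm
    have hUm : Up M (max x y) a := by
      rcases max_choice x y with h | h <;> rw [h] <;> assumption
    obtain ⟨w, ⟨hw, hw1⟩, hw2⟩ := hUm.2.2 e he
    refine ⟨w⁻¹ * v * w, ⟨M.mul_mem (M.mul_mem (M.inv_mem hw) hv) hw, fun z hz => ?_⟩, ?_⟩
    · have h4 : e ≤ w z := hw2.le.trans (w.monotone hz)
      rw [RelIso.mul_apply, RelIso.mul_apply, hve _ h4, RelIso.inv_apply_self]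
    · rw [RelIso.mul_apply, RelIso.mul_apply, hw1 x (le_max_left _ _), hvx, hmx,
        inv_of_eq (hw1 y (le_max_right _ _))]
  · have hU' : ¬ Up M y a := by rw [← h2]; exact hU
    by_cases hE : ∃ z, Dy z ∧ 0 < z ∧ z < x ∧ ¬ Up M z a
    · have hE' : ∃ z, Dy z ∧ 0 < z ∧ z < y ∧ ¬ Up M z a := by rw [← h3]; exact hE
      obtain ⟨z, hz, hz0, hzx, hzU⟩ := hE
      obtain ⟨z', hz', hz0', hzy', hzU'⟩ := hE'
      obtain ⟨s, hs, hs0, hsx, hsy, hsU⟩ : ∃ s, Dy s ∧ 0 < s ∧ s < x ∧ s < y ∧ ¬ Up M s a := by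
        rcases le_total z z' with h | h
        · exact ⟨z, hz, hz0, hzx, lt_of_le_of_lt h hzy', hzU⟩
        · exact ⟨z', hz', hz0', lt_of_le_of_lt h hzx, hzy', hzU'⟩
      obtain ⟨f, hf, hf1, hf2, hf3⟩ := exists_F_move hs ha hx hy hs0.le ha1.le hsx hxa hsy hya
      exact ⟨f, ⟨Up.key hM hNF hs ha hs0 (hsx.trans hxa) ha1 hsU f hf hf2 hf3, hf3⟩, hf1⟩
    · have hE' : ¬ ∃ z, Dy z ∧ 0 < z ∧ z < y ∧ ¬ Up M z a := by rw [← h3]; exact hE
      rcases lt_trichotomy x y with h | h | h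
      · exact absurd ⟨x, hx, hx0, h, hU⟩ hE'
      · exact ⟨1, (Vg M a).one_mem, h⟩
      · exact absurd ⟨y, hy, hy0, h, hU'⟩ hE

/-- S4 in the presence of a fixed cut -/
lemma finPt_V_of_not_NF (hM : MaxSub M) (hNF : ¬ NF M) {a : ℚ} (ha : Dy a) (ha1 : a < 1) :
    FinPt (Vg M a) (fun x => Dy x ∧ 0 < x ∧ x < a) := by
  classical
  simp only [NF] at hNF
  push Not at hNF
  obtain ⟨b0, c0, hb0, hb1, hc0, hc1, hbc⟩ := hNF
  -- the lower set
  have hbc' : b0 ≤ c0 := hbc 1 M.one_mem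
  have blk1 : IsBlock M {x | 0 < x ∧ ∃ m ∈ M, x ≤ m b0} := by
    rintro m hm x - - y ⟨hy0, m', hm', hy⟩
    refine ⟨F.pos (hM.le hm) hy0, m * m', M.mul_mem hm hm', m.monotone hy⟩
  have blk2 : IsBlock M {x | x < 1 ∧ ∀ m ∈ M, m b0 < x} := by
    rintro m hm x - - y ⟨hy0, hy⟩
    refine ⟨F.lt_one (hM.le hm) hy0, fun m' hm' => ?_⟩
    have h := hy (m⁻¹ * m') (M.mul_mem (M.inv_mem hm) hm')
    have h' := m.strictMono h
    rwa [RelIso.mul_apply, RelIso.apply_inv_self] at h'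
  obtain ⟨p1, p2, hp1, hp2, p10, p12, p2b⟩ := exists_two_dy hb0
  obtain ⟨q1, q2, hq1, hq2, q10, q12, q21⟩ := exists_two_dy hc1
  have bp1 := hM.block_principle blk1 hp1 hp2 hq1 p10 p12 (p2b.trans hb1)
    ⟨p10, 1, M.one_mem, (p12.trans p2b).le⟩ ⟨p10.trans p12, 1, M.one_mem, p2b.le⟩ (hc0.trans q10)
    (q12.trans q21) (by
      rintro ⟨-, m, hm, h⟩
      have := hbc m hm
      linarith)
  have bp2 := hM.block_principle blk2 hq1 hq2 hp1 (hc0.trans q10) q12 q21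
    ⟨q12.trans q21, fun m hm => lt_of_le_of_lt (hbc m hm) q10⟩
    ⟨q21, fun m hm => lt_of_le_of_lt (hbc m hm) (q10.trans q12)⟩ p10 (p12.trans (p2b.trans hb1)) (by
      rintro ⟨-, h⟩
      have : b0 < p1 := h 1 M.one_mem
      linarith)
  let C : ℚ → Prop := fun x => ∃ m ∈ M, x ≤ m b0
  refine ⟨Prop × Prop × Prop, inferInstance, fun x => (C x, ∃ y, Dy y ∧ C y ∧ x < y ∧ y ≤ a,
    ∃ y, Dy y ∧ ¬ C y ∧ 0 < y ∧ y < x), ?_⟩
  rintro x y ⟨hx, hx0, hxa⟩ ⟨hy, hy0, hya⟩ hxy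
  simp only [Prod.mk.injEq] at hxy
  obtain ⟨h1, h2, h3⟩ := hxy
  by_cases hC : C x
  · have hC' : C y := by rw [← h1]; exact hC
    by_cases hE : ∃ z, Dy z ∧ C z ∧ x < z ∧ z ≤ a
    · have hE' : ∃ z, Dy z ∧ C z ∧ y < z ∧ z ≤ a := by rw [← h2]; exact hE
      obtain ⟨z, hz, hzC, hzx, hza⟩ := hE
      obtain ⟨z', hz', hzC', hzy', hza'⟩ := hE'
      obtain ⟨s, hs, hsC, hsx, hsy, hsa⟩ : ∃ s, Dy s ∧ C s ∧ x < s ∧ y < s ∧ s ≤ a := by
        rcases le_total z z' with h | h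
        · exact ⟨z', hz', hzC', lt_of_lt_of_le hzx h, hzy', hza'⟩
        · exact ⟨z, hz, hzC, hzx, lt_of_lt_of_le hzy' h, hza⟩
      obtain ⟨f, hf, hf1, hf2, hf3⟩ := exists_F_move dy_zero hs hx hy le_rfl (hsa.trans ha1.le) hx0
        hsx hy0 hsy
      refine ⟨f, ⟨bp1 f hf (fun z hz => ?_), fun z hz => hf3 z (hsa.trans hz)⟩, hf1⟩
      by_contra hfz
      apply hz
      have h4 : 0 < z := by
        by_contra h; push Not at h; exact hfz (hf2 z h)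
      have h5 : z < s := by
        by_contra h; push Not at h; exact hfz (hf3 z h)
      obtain ⟨m, hm, hsm⟩ := hsC
      exact ⟨h4, m, hm, h5.le.trans hsm⟩
    · have hE' : ¬ ∃ z, Dy z ∧ C z ∧ y < z ∧ z ≤ a := by rw [← h2]; exact hE
      rcases lt_trichotomy x y with h | h | h
      · exact absurd ⟨y, hy, hC', h, hya.le⟩ hE
      · exact ⟨1, (Vg M a).one_mem, h⟩
      · exact absurd ⟨x, hx, hC, h, hxa.le⟩ hE'
  · have hC' : ¬ C y := by rw [← h1]; exact hC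
    by_cases hE : ∃ z, Dy z ∧ ¬ C z ∧ 0 < z ∧ z < x
    · have hE' : ∃ z, Dy z ∧ ¬ C z ∧ 0 < z ∧ z < y := by rw [← h3]; exact hE
      obtain ⟨z, hz, hzC, hz0, hzx⟩ := hE
      obtain ⟨z', hz', hzC', hz0', hzy'⟩ := hE'
      obtain ⟨s, hs, hsC, hs0, hsx, hsy⟩ : ∃ s, Dy s ∧ ¬ C s ∧ 0 < s ∧ s < x ∧ s < y := by
        rcases le_total z z' with h | h
        · exact ⟨z, hz, hzC, hz0, hzx, lt_of_le_of_lt h hzy'⟩
        · exact ⟨z', hz', hzC', hz0', lt_of_le_of_lt h hzx, hzy'⟩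
      obtain ⟨f, hf, hf1, hf2, hf3⟩ := exists_F_move hs ha hx hy hs0.le ha1.le hsx hxa hsy hya
      refine ⟨f, ⟨bp2 f hf (fun z hz => ?_), hf3⟩, hf1⟩
      by_contra hfz
      apply hz
      have h4 : s < z := by
        by_contra h; push Not at h; exact hfz (hf2 z h)
      have h5 : z < a := by
        by_contra h; push Not at h; exact hfz (hf3 z h)
      refine ⟨h5.trans ha1, fun m hm => ?_⟩
      by_contra h6
      push Not at h6
      exact hsC ⟨m, hm, h4.le.trans h6⟩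
    · have hE' : ¬ ∃ z, Dy z ∧ ¬ C z ∧ 0 < z ∧ z < y := by rw [← h3]; exact hE
      rcases lt_trichotomy x y with h | h | h
      · exact absurd ⟨x, hx, hC, hx0, h⟩ hE'
      · exact ⟨1, (Vg M a).one_mem, h⟩
      · exact absurd ⟨y, hy, hC', hy0, h⟩ hE

/-- S4 -/
theorem MaxSub.finPt_V (hM : MaxSub M) (hfg : M.FG) {a : ℚ} (ha : Dy a) (ha1 : a < 1) :
    FinPt (Vg M a) (fun x => Dy x ∧ 0 < x ∧ x < a) := by
  by_cases hNF : NF M
  · exact finPt_V_of_NF hM hNF (hM.finV hfg).finPt ha ha1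
  · exact finPt_V_of_not_NF hM hNF ha ha1

/-- orbits of V_a on vertices inside [0,a] -/
theorem MaxSub.finV_V (hM : MaxSub M) (hfg : M.FG) {a : ℚ} (ha : Dy a) (ha1 : a < 1) :
    FinV (Vg M a) (fun v => 0 ≤ v.lo ∧ v.hi ≤ a) := by
  classical
  obtain ⟨ι, hι, c, hc⟩ := hM.finV hfg
  obtain ⟨κ, hκ, d, hd⟩ := hM.finPt_V hfg ha ha1
  refine ⟨ι × Prop × κ, inferInstance, fun v => (c v, v.hi = a, d v.hi), ?_⟩
  rintro v w ⟨hv0, hva⟩ ⟨hw0, hwa⟩ hvw
  simp only [Prod.mk.injEq] at hvw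
  obtain ⟨h1, h2, h3⟩ := hvw
  obtain ⟨m, hm, hml⟩ := hc v w ⟨hv0, hva.trans ha1.le⟩ ⟨hw0, hwa.trans ha1.le⟩ h1
  -- an element u of V_a with u v.hi = w.hi
  obtain ⟨u, hu, huv⟩ : ∃ u ∈ Vg M a, u v.hi = w.hi := by
    by_cases h : v.hi = a
    · have h' : w.hi = a := by rw [← h2]; exact h
      exact ⟨1, (Vg M a).one_mem, by rw [h, h']; rfl⟩
    · have h' : ¬ w.hi = a := by rw [← h2]; exact h
      exact hd _ _ ⟨v.dy_hi, lt_of_le_of_lt hv0 v.lo_lt_hi, lt_of_le_of_ne hva h⟩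
        ⟨w.dy_hi, lt_of_le_of_lt hw0 w.lo_lt_hi, lt_of_le_of_ne hwa h'⟩ h3
  have e : m v.hi = u v.hi := by rw [hml.hi, huv]
  have hcl := hM.closed
  refine ⟨glue m u v.hi e, ⟨?_, fun x hx => ?_⟩, fun t h0 h1 => ?_⟩
  · rw [← hcl]
    exact glue_mem_Cl e (by rw [hcl]; exact hm) (by rw [hcl]; exact hu.1) v.dy_hi
  · rw [glue_of_ge _ (hva.trans hx)]
    exact hu.2 x hx
  · have h4 : v.pt t ≤ v.hi := v.pt_le_pt.2 h1
    rw [glue_of_le _ h4]
    exact hml t h0 h1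

end

end Pool.Agent.ThF
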