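import Pool.Agent.Lib.MP_a06c1e_al.Basic

set_option autoImplicit false

namespace Pool.Agent.ThF
open Vx

/-- the affine map x ↦ 2^k x + c -/
def aff (k : ℤ) (c : ℚ) : Q where
  toFun x := (2:ℚ) ^ k * x + c
  invFun y := (y - c) * (2:ℚ) ^ (-k)
  left_inv x := by
    dsimp only
    rw [add_sub_cancel_right, mul_comm, ← mul_assoc, ← zpow_add₀ (by norm_num), neg_add_cancel,
      zpow_zero, one_mul]
  right_inv y := by
    dsimp only
    rw [mul_comm, mul_assoc, ← zpow_add₀ (by norm_num), neg_add_cancel, zpow_zero, mul_one,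
      sub_add_cancel]
  map_rel_iff' := by
    intro x y
    simp only [Equiv.coe_fn_mk, add_le_add_iff_right]
    exact mul_le_mul_iff_right₀ (two_zpow_pos k)

lemma aff_apply (k : ℤ) (c x : ℚ) : aff k c x = (2:ℚ) ^ k * x + c := rfl

lemma aff_mem_P (k : ℤ) {c : ℚ} (hc : Dy c) : aff k c ∈ P := by
  obtain ⟨N, hN⟩ := hc.level
  refine ⟨N + k, |k|, fun v hv => ?_⟩
  obtain ⟨j, hj⟩ := hN (v.n - k) (by linarith)
  refine ⟨⟨v.n - k, v.i + j⟩, fun t _ _ => ?_, ?_⟩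
  · rw [aff_apply, ← hj]
    simp only [Vx.pt, Vx.lo]
    rw [show -(v.n - k) = k + -v.n by ring, zpow_add₀ (by norm_num)]
    push_cast
    ring
  · rw [show v.n - k - v.n = -k by ring, abs_neg]

lemma dy_int (m : ℤ) : Dy (m : ℚ) := ⟨⟨0, m⟩, by simp [Vx.lo, Vx.pt]⟩
lemma dy_zero : Dy 0 := by simpa using dy_int 0
lemma dy_one : Dy 1 := by simpa using dy_int 1
lemma Dy.sub {x y : ℚ} (hx : Dy x) (hy : Dy y) : Dy (x - y) := by
  obtain ⟨N, hN⟩ := hx.level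
  obtain ⟨N', hN'⟩ := hy.level
  obtain ⟨i, rfl⟩ := hN (max N N') (le_max_left _ _)
  obtain ⟨j, rfl⟩ := hN' (max N N') (le_max_right _ _)
  refine ⟨⟨max N N', i - j⟩, ?_⟩
  simp only [Vx.lo, Vx.pt]; push_cast; ring
lemma Dy.neg {x : ℚ} (hx : Dy x) : Dy (-x) := by simpa using dy_zero.sub hx
lemma Dy.add {x y : ℚ} (hx : Dy x) (hy : Dy y) : Dy (x + y) := by simpa using hx.sub hy.neg
lemma Dy.zmul (k : ℤ) {x : ℚ} (hx : Dy x) : Dy ((2:ℚ) ^ k * x) := by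
  have := P.dy (aff_mem_P k dy_zero) hx
  simpa [aff_apply] using this
lemma dy_zpow (k : ℤ) : Dy ((2:ℚ) ^ k) := by simpa using Dy.zmul k dy_one

/-- integer stretch by one -/
lemma exists_P_succ (m : ℕ) (hm : 0 < m) : ∃ g ∈ P, g 0 = 0 ∧ g (m:ℚ) = ((m + 1 : ℕ) : ℚ) := by
  have h1 : (1:ℚ) ≤ m := by exact_mod_cast hm
  have hdy : Dy ((m:ℚ) - 1) := by
    have := (dy_int m).sub dy_one
    simpa using this
  have hg : (1:Q) ((m:ℚ) - 1) = aff 1 (1 - m) ((m:ℚ) - 1) := by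
    rw [aff_apply]
    change (m:ℚ) - 1 = _
    rw [zpow_one]; ring
  refine ⟨glue 1 (aff 1 (1 - m)) ((m:ℚ) - 1) hg,
    glue_mem_P _ P.one_mem (aff_mem_P _ ?_) hdy, ?_, ?_⟩
  · have := dy_one.sub (dy_int m)
    simpa using this
  · rw [glue_of_le _ (by linarith)]; rfl
  · rw [glue_of_ge _ (by linarith), aff_apply, zpow_one]; push_cast; ring

lemma exists_P_nat (m k : ℕ) (hm : 0 < m) :
    ∃ g ∈ P, g 0 = 0 ∧ g (m:ℚ) = ((m + k : ℕ) : ℚ) := by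
  induction k with
  | zero => exact ⟨1, P.one_mem, rfl, rfl⟩
  | succ k ih =>
    obtain ⟨g, hg, hg0, hgm⟩ := ih
    obtain ⟨h, hh, hh0, hhm⟩ := exists_P_succ (m + k) (by omega)
    refine ⟨h * g, P.mul_mem hh hg, ?_, ?_⟩
    · rw [RelIso.mul_apply, hg0, hh0]
    · rw [RelIso.mul_apply, hgm, hhm]; rfl

lemma exists_P_nat' (m k : ℕ) (hm : 0 < m) (hk : 0 < k) :
    ∃ g ∈ P, g 0 = 0 ∧ g (m:ℚ) = (k : ℚ) := by
  rcases le_total m k with h | h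
  · obtain ⟨j, rfl⟩ := Nat.exists_eq_add_of_le h
    exact exists_P_nat m j hm
  · obtain ⟨j, rfl⟩ := Nat.exists_eq_add_of_le h
    obtain ⟨g, hg, hg0, hgm⟩ := exists_P_nat k j hk
    refine ⟨g⁻¹, P.inv_mem hg, ?_, ?_⟩
    · conv_lhs => rw [← hg0]
      exact RelIso.inv_apply_self _ _
    · rw [← hgm]; exact RelIso.inv_apply_self _ _

lemma Dy.pos_form {x : ℚ} (hx : Dy x) (h : 0 < x) :
    ∃ k : ℤ, ∃ m : ℕ, 0 < m ∧ (2:ℚ) ^ k * x = m := by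
  obtain ⟨v, rfl⟩ := hx
  have h1 : 0 < v.i := by
    simp only [Vx.lo, Vx.pt, add_zero] at h
    have := (mul_pos_iff_of_pos_right (two_zpow_pos (-v.n))).1 h
    exact_mod_cast this
  refine ⟨v.n, v.i.toNat, by omega, ?_⟩
  have h2 : ((v.i.toNat : ℕ) : ℚ) = v.i := by
    have : ((v.i.toNat : ℕ) : ℤ) = v.i := Int.toNat_of_nonneg h1.le
    exact_mod_cast this
  rw [h2]
  simp only [Vx.lo, Vx.pt, add_zero]
  rw [mul_comm, mul_assoc, ← zpow_add₀ (by norm_num), neg_add_cancel, zpow_zero, mul_one]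

/-- dyadic PL maps between arbitrary dyadic intervals -/
lemma exists_P {p q r s : ℚ} (hp : Dy p) (hq : Dy q) (hr : Dy r) (hs : Dy s)
    (hpq : p < q) (hrs : r < s) : ∃ g ∈ P, g p = r ∧ g q = s := by
  obtain ⟨k, m, hm, hk⟩ := (hq.sub hp).pos_form (by linarith)
  obtain ⟨l, j, hj, hl⟩ := (hs.sub hr).pos_form (by linarith)
  obtain ⟨g, hg, hg0, hgm⟩ := exists_P_nat' m j hm hj
  have hA : aff k (-((2:ℚ) ^ k * p)) ∈ P := aff_mem_P _ (Dy.zmul _ hp).neg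
  have hB : aff l (-((2:ℚ) ^ l * r)) ∈ P := aff_mem_P _ (Dy.zmul _ hr).neg
  have a1 : aff k (-((2:ℚ) ^ k * p)) p = 0 := by rw [aff_apply]; ring
  have a2 : aff k (-((2:ℚ) ^ k * p)) q = m := by rw [aff_apply, ← hk]; ring
  have b1 : aff l (-((2:ℚ) ^ l * r)) r = 0 := by rw [aff_apply]; ring
  have b2 : aff l (-((2:ℚ) ^ l * r)) s = j := by rw [aff_apply, ← hl]; ring
  refine ⟨(aff l (-((2:ℚ) ^ l * r)))⁻¹ * g * aff k (-((2:ℚ) ^ k * p)),
    P.mul_mem (P.mul_mem (P.inv_mem hB) hg) hA, ?_, ?_⟩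
  · rw [RelIso.mul_apply, RelIso.mul_apply, a1, hg0]
    conv_lhs => rw [← b1]
    exact RelIso.inv_apply_self _ _
  · rw [RelIso.mul_apply, RelIso.mul_apply, a2, hgm, ← b2]
    exact RelIso.inv_apply_self _ _

/-- build an element of F from a P-element on an interval [a,b] preserved by it -/
lemma exists_F_restrict {g : Q} (hg : g ∈ P) {a b : ℚ} (ha : Dy a) (hb : Dy b) (hab : a ≤ b)
    (h0 : 0 ≤ a) (h1 : b ≤ 1) (hga : g a = a) (hgb : g b = b) :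
    ∃ f ∈ F, (∀ x, a ≤ x → x ≤ b → f x = g x) ∧ (∀ x, x ≤ a → f x = x) ∧ (∀ x, b ≤ x → f x = x) := by
  have e1 : (1:Q) a = g a := hga.symm
  have e2 : (glue 1 g a e1) b = (1:Q) b := by rw [glue_of_ge _ hab, hgb]; rfl
  refine ⟨glue (glue 1 g a e1) 1 b e2, mem_F (glue_mem_P _ (glue_mem_P _ P.one_mem hg ha) P.one_mem hb)
    (fun x hx => ?_) (fun x hx => ?_), fun x h2 h3 => ?_, fun x h2 => ?_, fun x h2 => ?_⟩
  · rw [glue_of_le _ (by linarith), glue_of_le _ (by linarith)]; rfl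
  · rw [glue_of_ge _ (by linarith)]; rfl
  · rw [glue_of_le _ h3, glue_of_ge _ h2]
  · rw [glue_of_le _ (by linarith), glue_of_le _ h2]; rfl
  · rw [glue_of_ge _ h2]; rfl

/-- F moves dyadic points inside dyadic intervals transitively -/
lemma exists_F_move {a b c d : ℚ} (ha : Dy a) (hb : Dy b) (hc : Dy c) (hd : Dy d)
    (h0 : 0 ≤ a) (h1 : b ≤ 1) (hac : a < c) (hcb : c < b) (had : a < d) (hdb : d < b) :
    ∃ f ∈ F, f c = d ∧ (∀ x, x ≤ a → f x = x) ∧ (∀ x, b ≤ x → f x = x) := by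
  obtain ⟨g1, hg1, hg1a, hg1c⟩ := exists_P ha hc ha hd hac had
  obtain ⟨g2, hg2, hg2c, hg2b⟩ := exists_P hc hb hd hb hcb hdb
  have e : g1 c = g2 c := by rw [hg1c, hg2c]
  obtain ⟨f, hf, hf1, hf2, hf3⟩ := exists_F_restrict (glue_mem_P e hg1 hg2 hc) ha hb
    (hac.trans hcb).le h0 h1 (by rw [glue_of_le _ hac.le, hg1a]) (by rw [glue_of_ge _ hcb.le, hg2b])
  exact ⟨f, hf, by rw [hf1 c hac.le hcb.le, glue_of_le _ le_rfl, hg1c], hf2, hf3⟩

/-- density of dyadic points -/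
lemma exists_dy_between {x y : ℚ} (h : x < y) : ∃ z, Dy z ∧ x < z ∧ z < y := by
  obtain ⟨n, hn⟩ : ∃ n : ℕ, (1:ℚ) / 2 ^ n < (y - x) / 2 := by
    obtain ⟨n, hn⟩ := exists_pow_lt_of_lt_one (show (0:ℚ) < (y - x) / 2 by linarith)
      (show (1/2:ℚ) < 1 by norm_num)
    exact ⟨n, by rwa [one_div_pow] at hn⟩
  obtain ⟨v, hv, h0, h1⟩ := Vx.exists_mem (n:ℤ) x
  have h2 := v.hi_sub_lo
  rw [hv, zpow_neg, zpow_natCast, inv_eq_one_div] at h2
  rcases eq_or_lt_of_le (show v.hi ≤ x + 1 / 2 ^ n by linarith) with h3 | h3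
  · exact ⟨v.hi, v.dy_hi, h1, by linarith⟩
  · exact ⟨v.hi, v.dy_hi, h1, by linarith⟩

/-! ### one-sided slopes -/

/-- `f` has right slope `2^k` at `a` -/
def HasRS (f : Q) (a : ℚ) (k : ℤ) : Prop :=
  ∃ b, a < b ∧ ∀ x, a ≤ x → x ≤ b → f x = f a + (2:ℚ) ^ k * (x - a)

/-- `f` has left slope `2^k` at `a` -/
def HasLS (f : Q) (a : ℚ) (k : ℤ) : Prop :=
  ∃ b, b < a ∧ ∀ x, b ≤ x → x ≤ a → f x = f a + (2:ℚ) ^ k * (x - a)

lemma Lin.affine {f : Q} {v w : Vx} (h : Lin f v w) {x y : ℚ} (hx : v.mem x) (hy : v.mem y) :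
    f x = f y + (2:ℚ) ^ (v.n - w.n) * (x - y) := by
  obtain ⟨t, t0, t1, rfl⟩ := (v.mem_iff x).1 hx
  obtain ⟨s, s0, s1, rfl⟩ := (v.mem_iff y).1 hy
  rw [h t t0 t1, h s s0 s1]
  simp only [Vx.pt]
  have : (2:ℚ) ^ (v.n - w.n) * 2 ^ (-v.n) = 2 ^ (-w.n) := by
    rw [← zpow_add₀ (by norm_num)]; congr 1; ring
  rw [← this]; ring

lemma HasRS.unique {f : Q} {a : ℚ} {k l : ℤ} (h : HasRS f a k) (h' : HasRS f a l) : k = l := by
  obtain ⟨b, hb, h⟩ := h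
  obtain ⟨c, hc, h'⟩ := h'
  have h1 := h (min b c) (le_min hb.le hc.le) (min_le_left _ _)
  have h2 := h' (min b c) (le_min hb.le hc.le) (min_le_right _ _)
  have h3 : (0:ℚ) < min b c - a := by
    have := lt_min hb hc
    linarith
  have h4 : (2:ℚ) ^ k * (min b c - a) = 2 ^ l * (min b c - a) := by linarith
  exact zpow_right_injective₀ (a := (2:ℚ)) (by norm_num) (by norm_num)
    (mul_right_cancel₀ h3.ne' h4)

lemma HasLS.unique {f : Q} {a : ℚ} {k l : ℤ} (h : HasLS f a k) (h' : HasLS f a l) : k = l := by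
  obtain ⟨b, hb, h⟩ := h
  obtain ⟨c, hc, h'⟩ := h'
  have h1 := h (max b c) (le_max_left _ _) (max_le hb.le hc.le)
  have h2 := h' (max b c) (le_max_right _ _) (max_le hb.le hc.le)
  have h3 : max b c - a < 0 := by
    have := max_lt hb hc
    linarith
  have h4 : (2:ℚ) ^ k * (max b c - a) = 2 ^ l * (max b c - a) := by linarith
  exact zpow_right_injective₀ (a := (2:ℚ)) (by norm_num) (by norm_num)
    (mul_right_cancel₀ h3.ne h4)

lemma P.exists_RS {f : Q} (hf : f ∈ P) (a : ℚ) : ∃ k, HasRS f a k := by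
  obtain ⟨N, hN⟩ := P.level hf
  obtain ⟨v, hv, h0, h1⟩ := Vx.exists_mem N a
  obtain ⟨w, hw⟩ := hN v hv.ge
  exact ⟨v.n - w.n, v.hi, h1, fun x hx0 hx1 => hw.affine ⟨h0.trans hx0, hx1⟩ ⟨h0, h1.le⟩⟩

lemma P.exists_LS {f : Q} (hf : f ∈ P) (a : ℚ) : ∃ k, HasLS f a k := by
  obtain ⟨N, hN⟩ := P.level hf
  obtain ⟨v, hv, h0, h1⟩ := Vx.exists_mem N a
  rcases eq_or_lt_of_le h0 with h2 | h2
  · obtain ⟨w, hw⟩ := hN ⟨v.n, v.i - 1⟩ hv.ge
    have h3 : Vx.hi ⟨v.n, v.i - 1⟩ = a := by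
      rw [← h2]; simp [Vx.hi, Vx.lo, Vx.pt]
    have h4 : Vx.lo ⟨v.n, v.i - 1⟩ < a := by rw [← h3]; exact Vx.lo_lt_hi _
    refine ⟨v.n - w.n, Vx.lo ⟨v.n, v.i - 1⟩, h4, fun x hx0 hx1 => ?_⟩
    exact hw.affine ⟨hx0, by rw [h3]; exact hx1⟩ ⟨h4.le, h3.ge⟩
  · obtain ⟨w, hw⟩ := hN v hv.ge
    exact ⟨v.n - w.n, v.lo, h2, fun x hx0 hx1 => hw.affine ⟨hx0, hx1.trans h1.le⟩ ⟨h0, h1.le⟩⟩

lemma HasRS.congr {f g : Q} {a : ℚ} {k : ℤ} (h : HasRS f a k) {b : ℚ} (hb : a < b)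
    (hfg : ∀ x, a ≤ x → x ≤ b → f x = g x) : HasRS g a k := by
  obtain ⟨c, hc, h⟩ := h
  refine ⟨min b c, lt_min hb hc, fun x h0 h1 => ?_⟩
  rw [← hfg x h0 (h1.trans (min_le_left _ _)), ← hfg a le_rfl hb.le,
    h x h0 (h1.trans (min_le_right _ _))]

lemma HasLS.congr {f g : Q} {a : ℚ} {k : ℤ} (h : HasLS f a k) {b : ℚ} (hb : b < a)
    (hfg : ∀ x, b ≤ x → x ≤ a → f x = g x) : HasLS g a k := by
  obtain ⟨c, hc, h⟩ := h
  refine ⟨max b c, max_lt hb hc, fun x h0 h1 => ?_⟩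
  rw [← hfg x ((le_max_left _ _).trans h0) h1, ← hfg a hb.le le_rfl,
    h x ((le_max_right _ _).trans h0) h1]

lemma HasRS.one (a : ℚ) : HasRS 1 a 0 :=
  ⟨a + 1, by linarith, fun x _ _ => by change x = a + _; rw [zpow_zero]; ring⟩

lemma HasLS.one (a : ℚ) : HasLS 1 a 0 :=
  ⟨a - 1, by linarith, fun x _ _ => by change x = a + _; rw [zpow_zero]; ring⟩

lemma HasRS.mul {f g : Q} {a : ℚ} {k l : ℤ} (hf : HasRS f (g a) k) (hg : HasRS g a l) :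
    HasRS (f * g) a (k + l) := by
  obtain ⟨b, hb, hf⟩ := hf
  obtain ⟨c, hc, hg⟩ := hg
  refine ⟨min c (g⁻¹ b), lt_min hc ?_, fun x h0 h1 => ?_⟩
  · rw [← RelIso.inv_apply_self g a]; exact (g⁻¹).strictMono hb
  · rw [RelIso.mul_apply, RelIso.mul_apply]
    have h2 : g x ≤ b := by
      rw [← RelIso.apply_inv_self g b]
      exact g.monotone (h1.trans (min_le_right _ _))
    rw [hf (g x) (g.monotone h0) h2, hg x h0 (h1.trans (min_le_left _ _)),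
      zpow_add₀ (by norm_num)]
    ring

lemma HasLS.mul {f g : Q} {a : ℚ} {k l : ℤ} (hf : HasLS f (g a) k) (hg : HasLS g a l) :
    HasLS (f * g) a (k + l) := by
  obtain ⟨b, hb, hf⟩ := hf
  obtain ⟨c, hc, hg⟩ := hg
  refine ⟨max c (g⁻¹ b), max_lt hc ?_, fun x h0 h1 => ?_⟩
  · rw [← RelIso.inv_apply_self g a]; exact (g⁻¹).strictMono hb
  · rw [RelIso.mul_apply, RelIso.mul_apply]
    have h2 : b ≤ g x := by
      rw [← RelIso.apply_inv_self g b]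
      exact g.monotone ((le_max_right _ _).trans h0)
    rw [hf (g x) h2 (g.monotone h1), hg x ((le_max_left _ _).trans h0) h1,
      zpow_add₀ (by norm_num)]
    ring

/-- right slope exponent -/
noncomputable def rs (f : Q) (a : ℚ) : ℤ := by
  classical exact if h : ∃ k, HasRS f a k then h.choose else 0

/-- left slope exponent -/
noncomputable def ls (f : Q) (a : ℚ) : ℤ := by
  classical exact if h : ∃ k, HasLS f a k then h.choose else 0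

lemma HasRS.rs_eq {f : Q} {a : ℚ} {k : ℤ} (h : HasRS f a k) : rs f a = k := by
  have h1 : ∃ k, HasRS f a k := ⟨k, h⟩
  rw [rs, dif_pos h1]
  exact h1.choose_spec.unique h

lemma HasLS.ls_eq {f : Q} {a : ℚ} {k : ℤ} (h : HasLS f a k) : ls f a = k := by
  have h1 : ∃ k, HasLS f a k := ⟨k, h⟩
  rw [ls, dif_pos h1]
  exact h1.choose_spec.unique h

lemma P.hasRS {f : Q} (hf : f ∈ P) (a : ℚ) : HasRS f a (rs f a) := by
  obtain ⟨k, hk⟩ := P.exists_RS hf a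
  rwa [hk.rs_eq]

lemma P.hasLS {f : Q} (hf : f ∈ P) (a : ℚ) : HasLS f a (ls f a) := by
  obtain ⟨k, hk⟩ := P.exists_LS hf a
  rwa [hk.ls_eq]

lemma rs_mul {f g : Q} (hf : f ∈ P) (hg : g ∈ P) (a : ℚ) : rs (f * g) a = rs f (g a) + rs g a :=
  ((P.hasRS hf _).mul (P.hasRS hg a)).rs_eq

lemma ls_mul {f g : Q} (hf : f ∈ P) (hg : g ∈ P) (a : ℚ) : ls (f * g) a = ls f (g a) + ls g a :=
  ((P.hasLS hf _).mul (P.hasLS hg a)).ls_eq

lemma rs_one (a : ℚ) : rs 1 a = 0 := (HasRS.one a).rs_eq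
lemma ls_one (a : ℚ) : ls 1 a = 0 := (HasLS.one a).ls_eq

lemma rs_inv {f : Q} (hf : f ∈ P) (a : ℚ) : rs f⁻¹ (f a) = - rs f a := by
  have := rs_mul (P.inv_mem hf) hf a
  rw [inv_mul_cancel, rs_one] at this
  linarith

lemma ls_inv {f : Q} (hf : f ∈ P) (a : ℚ) : ls f⁻¹ (f a) = - ls f a := by
  have := ls_mul (P.inv_mem hf) hf a
  rw [inv_mul_cancel, ls_one] at this
  linarith

lemma rs_congr {f g : Q} (hf : f ∈ P) {a b : ℚ} (hb : a < b)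
    (hfg : ∀ x, a ≤ x → x ≤ b → f x = g x) : rs f a = rs g a :=
  (((P.hasRS hf a).congr hb hfg).rs_eq).symm

lemma ls_congr {f g : Q} (hf : f ∈ P) {a b : ℚ} (hb : b < a)
    (hfg : ∀ x, b ≤ x → x ≤ a → f x = g x) : ls f a = ls g a :=
  (((P.hasLS hf a).congr hb hfg).ls_eq).symm

/-- equal values and right slopes give equality of right germs -/
lemma eq_right_of_rs {f g : Q} (hf : f ∈ P) (hg : g ∈ P) {a : ℚ} (h : f a = g a)
    (hs : rs f a = rs g a) : ∃ b, a < b ∧ ∀ x, a ≤ x → x ≤ b → f x = g x := by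
  obtain ⟨b, hb, h1⟩ := P.hasRS hf a
  obtain ⟨c, hc, h2⟩ := P.hasRS hg a
  refine ⟨min b c, lt_min hb hc, fun x h3 h4 => ?_⟩
  rw [h1 x h3 (h4.trans (min_le_left _ _)), h2 x h3 (h4.trans (min_le_right _ _)), h, hs]

lemma eq_left_of_ls {f g : Q} (hf : f ∈ P) (hg : g ∈ P) {a : ℚ} (h : f a = g a)
    (hs : ls f a = ls g a) : ∃ b, b < a ∧ ∀ x, b ≤ x → x ≤ a → f x = g x := by
  obtain ⟨b, hb, h1⟩ := P.hasLS hf a
  obtain ⟨c, hc, h2⟩ := P.hasLS hg a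
  refine ⟨max b c, max_lt hb hc, fun x h3 h4 => ?_⟩
  rw [h1 x ((le_max_left _ _).trans h3) h4, h2 x ((le_max_right _ _).trans h3) h4, h, hs]

end Pool.Agent.ThF
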