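import Pool.Agent.Lib.MP_a06c1e_al.Closure

set_option autoImplicit false

namespace Pool.Agent.ThF
open Vx

/-! ### reflection of subgroups -/

/-- the reflected subgroup -/
def Rf (M : Subgroup Q) : Subgroup Q := M.comap rhoE.toMonoidHom

lemma mem_Rf {M : Subgroup Q} {f : Q} : f ∈ Rf M ↔ rho f ∈ M := Iff.rfl

lemma Rf_Rf (M : Subgroup Q) : Rf (Rf M) = M := by
  ext f; rw [mem_Rf, mem_Rf, rho_rho]

lemma Rf_F : Rf F = F := by
  ext f; rw [mem_Rf, rho_mem_F_iff]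

lemma Rf_mono {M K : Subgroup Q} (h : M ≤ K) : Rf M ≤ Rf K := fun _ hf => h hf

lemma MaxSub.rf {M : Subgroup Q} (hM : MaxSub M) : MaxSub (Rf M) where
  le := by rw [← Rf_F]; exact Rf_mono hM.le
  ne := by
    intro h
    apply hM.ne
    rw [← Rf_Rf M, h, Rf_F]
  maxi K h1 h2 := by
    have h3 : M ≤ Rf K := by rw [← Rf_Rf M]; exact Rf_mono h1
    have h4 : Rf K ≤ F := by rw [← Rf_F]; exact Rf_mono h2
    rcases hM.maxi (Rf K) h3 h4 with h | h
    · left; rw [← h, Rf_Rf]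
    · right; rw [← Rf_F, ← h, Rf_Rf]
  notComm h := by
    apply hM.notComm
    intro f hf g hg
    have := h (rho f) (rho_mem_F hf) (rho g) (rho_mem_F hg)
    rw [mem_Rf, rho_mul, rho_mul, rho_mul, rho_inv, rho_inv, rho_rho, rho_rho] at this
    exact this

lemma Vx.refl_mem {v : Vx} (hv : 0 ≤ v.n) {x : ℚ} (hx : v.mem x) : v.refl.mem (1 - x) := by
  rw [Vx.mem_iff] at hx ⊢
  obtain ⟨t, h0, h1, rfl⟩ := hx
  exact ⟨1 - t, by linarith, by linarith, by rw [Vx.refl_pt hv, sub_sub_cancel]⟩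

lemma Rf_Cl_le (M : Subgroup Q) : Rf (Cl M) ≤ Cl (Rf M) := by
  rintro f ⟨hf, N, h⟩
  refine ⟨rho_mem_F_iff.1 hf, max N 0, fun v hv => ?_⟩
  have h1 : N ≤ v.n := le_trans (le_max_left _ _) hv
  have h2 : 0 ≤ v.n := le_trans (le_max_right _ _) hv
  obtain ⟨m, hm, h3⟩ := h v.refl h1
  refine ⟨rho m, by rw [mem_Rf, rho_rho]; exact hm, fun x hx => ?_⟩
  have h4 : rho f (1 - x) = m (1 - x) := h3 _ (Vx.refl_mem h2 hx)
  rw [rho_apply, sub_sub_cancel] at h4
  rw [rho_apply, ← h4, sub_sub_cancel]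

lemma Cl_Rf (M : Subgroup Q) : Cl (Rf M) = Rf (Cl M) := by
  apply le_antisymm
  · have := Rf_mono (Rf_Cl_le (Rf M))
    rw [Rf_Rf, Rf_Rf] at this
    exact this
  · exact Rf_Cl_le M

section
variable {M : Subgroup Q}

lemma dense_trans (hCl : Cl M = F) {a b : ℚ} (ha : Dy a) (hb : Dy b) (ha0 : 0 < a) (ha1 : a < 1)
    (hb0 : 0 < b) (hb1 : b < 1) : ∃ m ∈ M, m a = b := by
  obtain ⟨f, hf, hfa, -⟩ := exists_F_move dy_zero dy_one ha hb le_rfl le_rfl ha0 ha1 hb0 hb1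
  rw [← hCl] at hf
  obtain ⟨m, hm, c, hc, h⟩ := Cl.right hf a
  exact ⟨m, hm, by rw [← h a le_rfl hc.le, hfa]⟩

/-- the groups Wp act cofinally -/
lemma dense_W (hM : MaxSub M) (hCl : Cl M = F) {a b c : ℚ} (ha0 : 0 < a) (hab : a < b) (hb1 : b < 1)
    (hc : c < 1) : ∃ w ∈ Wp M a, c < w b := by
  have hfam := Wp.fam M
  -- dichotomy
  have dich : ∀ b, a < b → b < 1 → (∀ w ∈ Wp M a, w b = b) ∨ ∀ c, c < 1 → ∃ w ∈ Wp M a, c < w b := by
    intro b hab hb1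
    by_contra hcon
    push Not at hcon
    obtain ⟨⟨w, hw, hwb⟩, c, hc, hcb⟩ := hcon
    have hlam := hfam.hull_laminar a b
    have hne : (Hull (Wp M) a b).Nonempty := ⟨b, Fam.mem_hull _ _ _⟩
    have hconn := Fam.hull_conn (Wp M) a b
    obtain ⟨d, hd, d0, d1, hdA⟩ := hM.laminar_lemma hlam hne hconn ha0 hc
      (fun x hx => (hfam.lt_of_mem_hull hab hx).le)
      (fun x hx => by
        obtain ⟨-, ⟨w', hw', h⟩⟩ := hx
        exact h.trans (hcb w' hw'))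
    have hwM : w ∈ M := hw.1
    have hwb0 : a < w b := hfam.lt_of_mem_hull hab (Fam.orbit_mem_hull hw)
    have hwb1 : w b < 1 := F.lt_one (hM.le hwM) hb1
    obtain ⟨x, y, hx, hy, h1, h2, h3, hxA, hyA⟩ : ∃ x y, Dy x ∧ Dy y ∧ 0 < x ∧ x < y ∧ y < 1 ∧
        x ∈ Hull (Wp M) a b ∧ y ∈ Hull (Wp M) a b := by
      rcases lt_or_gt_of_ne hwb with h | h
      · obtain ⟨x, y, hx, hy, h1, h2, h3⟩ := exists_two_dy h
        exact ⟨x, y, hx, hy, by linarith, h2, by linarith,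
          hconn.out (Fam.orbit_mem_hull hw) (Fam.mem_hull _ _ _) ⟨h1.le, (h2.trans h3).le⟩,
          hconn.out (Fam.orbit_mem_hull hw) (Fam.mem_hull _ _ _) ⟨(h1.trans h2).le, h3.le⟩⟩
      · obtain ⟨x, y, hx, hy, h1, h2, h3⟩ := exists_two_dy h
        exact ⟨x, y, hx, hy, by linarith, h2, by linarith,
          hconn.out (Fam.mem_hull _ _ _) (Fam.orbit_mem_hull hw) ⟨h1.le, (h2.trans h3).le⟩,
          hconn.out (Fam.mem_hull _ _ _) (Fam.orbit_mem_hull hw) ⟨(h1.trans h2).le, h3.le⟩⟩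
    exact no_block hCl (Anc_isBlock hlam hne) (Anc_conn hlam hne hconn) hx hy hd h1 h2 h3
      (subset_Anc hxA) (subset_Anc hyA) d0 d1 hdA
  -- something is moved
  have mv : ∃ β, a < β ∧ β < 1 ∧ ∃ w ∈ Wp M a, w β ≠ β := by
    obtain ⟨τ0, hτ0, τ1, hτ1, δ, hδ, hδ0, hδ1, T0, T0', T1, T1'⟩ := hM.exists_tau
    obtain ⟨a', ha', h1, h2⟩ := exists_dy_between (hab.trans hb1)
    obtain ⟨m, hm, hma⟩ := dense_trans hCl hδ ha' hδ0 (by linarith) (ha0.trans h1) h2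
    refine ⟨m (1 - δ/2), ?_, F.lt_one (hM.le hm) (by linarith), m * τ1 * m⁻¹, ⟨?_, a', h1, ?_⟩, ?_⟩
    · have : m δ < m (1 - δ/2) := m.strictMono (by linarith)
      linarith
    · exact M.mul_mem (M.mul_mem hm hτ1) (M.inv_mem hm)
    · intro x hx
      have h3 : m⁻¹ x ≤ δ := by
        rw [← RelIso.inv_apply_self m δ, hma]; exact (m⁻¹).monotone hx
      rw [RelIso.mul_apply, RelIso.mul_apply, T1 _ h3, RelIso.apply_inv_self]
    · rw [RelIso.mul_apply, RelIso.mul_apply, RelIso.inv_apply_self, T1' _ (by linarith)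
        (by linarith)]
      intro h
      have := m.injective h
      linarith
  by_contra hcon
  -- b is fixed
  have hbfix : ∀ w ∈ Wp M a, w b = b := by
    rcases dich b hab hb1 with h | h
    · exact h
    · exact absurd (h c hc) hcon
  -- everything in (a,b] is fixed
  have hfix : ∀ x, a < x → x ≤ b → ∀ w ∈ Wp M a, w x = x := by
    intro x h1 h2
    rcases dich x h1 (lt_of_le_of_lt h2 hb1) with h | h
    · exact h
    · exfalso
      obtain ⟨w, hw, h3⟩ := h b hb1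
      have h4 : w x ≤ w b := w.monotone h2
      rw [hbfix w hw] at h4
      linarith
  have hfix' : ∀ x, x ≤ b → ∀ w ∈ Wp M a, w x = x := by
    intro x hx w hw
    rcases lt_or_ge a x with h | h
    · exact hfix x h hx w hw
    · obtain ⟨-, c, hc, h3⟩ := hw
      exact h3 x (h.trans hc.le)
  have heq : ∀ x, a < x → x < b → Wp M x = Wp M a := by
    intro x h1 h2
    refine le_antisymm (hfam.anti _ _ h1.le) ?_
    intro w hw
    exact ⟨hw.1, b, h2, fun y hy => hfix' y hy w hw⟩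
  have hblock := label_block (M := M) (Wp M) (fun m hm x y h => hfam.eq_map h hm) a
  have hconn : ({x | Wp M x = Wp M a} : Set ℚ).OrdConnected := by
    refine ⟨fun x hx y hy z hz => ?_⟩
    have h1 : Wp M x = Wp M a := hx
    have h2 : Wp M y = Wp M a := hy
    have h3 := hfam.anti _ _ hz.1
    have h4 := hfam.anti _ _ hz.2
    rw [h1] at h3
    rw [h2] at h4
    exact le_antisymm h3 h4
  obtain ⟨β, hβ0, hβ1, w, hw, hwβ⟩ := mv
  obtain ⟨x, y, hx, hy, h1, h2, h3⟩ := exists_two_dy hab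
  obtain ⟨d, hd, hd0, hd1⟩ := exists_dy_between hβ1
  refine no_block hCl hblock hconn hx hy hd (by linarith) h2 (by linarith) (heq x h1 (by linarith))
    (heq y (by linarith) h3) (by linarith) hd1 ?_
  intro hdB
  have hdB : Wp M d = Wp M a := hdB
  rw [← hdB] at hw
  obtain ⟨-, c, hc, h4⟩ := hw
  exact hwβ (h4 β (by linarith))

/-- mirror statement -/
lemma dense_V (hM : MaxSub M) (hCl : Cl M = F) {a b c : ℚ} (ha1 : a < 1) (hba : b < a) (hb0 : 0 < b)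
    (hc : 0 < c) : ∃ v ∈ M, (∃ e, e < a ∧ ∀ x, e ≤ x → v x = x) ∧ v b < c := by
  have hCl' : Cl (Rf M) = F := by rw [Cl_Rf, hCl, Rf_F]
  obtain ⟨w, ⟨hw, e, he, h1⟩, h2⟩ := dense_W hM.rf hCl' (a := 1 - a) (b := 1 - b) (c := 1 - c)
    (by linarith) (by linarith) (by linarith) (by linarith)
  refine ⟨rho w, hw, ⟨1 - e, by linarith, fun x hx => ?_⟩, ?_⟩
  · rw [rho_apply, h1 _ (by linarith)]; ring
  · rw [rho_apply]; linarith

/-! ### the splitting group -/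

/-- elements of F trivial left of b which agree with an element of M right of a < b -/
def InR (M : Subgroup Q) (f : Q) : Prop :=
  f ∈ F ∧ ∃ a b, 0 < a ∧ a < b ∧ b < 1 ∧ (∀ x, x ≤ b → f x = x) ∧ ∃ k ∈ M, ∀ x, a ≤ x → k x = f x

/-- the shift lemma -/
lemma InR.shift (hM : MaxSub M) (hCl : Cl M = F) {f : Q} (hf : InR M f) :
    ∃ b, 0 < b ∧ b < 1 ∧ (∀ x, x ≤ b → f x = x) ∧
      ∀ a', 0 < a' → a' < b → ∃ k ∈ M, ∀ x, a' ≤ x → k x = f x := by
  obtain ⟨hf, a, b, ha, hab, hb, h1, k, hk, h2⟩ := hf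
  refine ⟨b, ha.trans hab, hb, h1, fun a' ha' hab' => ?_⟩
  rcases le_or_gt a a' with h | h
  · exact ⟨k, hk, fun x hx => h2 x (h.trans hx)⟩
  · obtain ⟨e, he, ⟨e', he', h3⟩, h4⟩ := dense_V hM hCl (a := b) (b := a) (c := a') hb hab ha ha'
    refine ⟨e * k * e⁻¹, M.mul_mem (M.mul_mem he hk) (M.inv_mem he), fun x hx => ?_⟩
    have hinv : ∀ y, e' ≤ y → e⁻¹ y = y := fun y hy => by
      conv_lhs => rw [← h3 y hy]
      exact RelIso.inv_apply_self _ _
    have h5 : a < e⁻¹ x := by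
      rw [← RelIso.inv_apply_self e a]
      exact (e⁻¹).strictMono (by linarith)
    rw [RelIso.mul_apply, RelIso.mul_apply, h2 _ h5.le]
    rcases le_or_gt x b with h6 | h6
    · have h7 : e⁻¹ x ≤ b := by
        rw [← hinv b he'.le]; exact (e⁻¹).monotone h6
      rw [h1 _ h7, RelIso.apply_inv_self, h1 x h6]
    · rw [hinv x (by linarith)]
      apply h3
      have : f b ≤ f x := f.monotone h6.le
      rw [h1 b le_rfl] at this
      linarith

lemma InR.mul (hM : MaxSub M) (hCl : Cl M = F) {f g : Q} (hf : InR M f) (hg : InR M g) :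
    InR M (f * g) := by
  obtain ⟨b, hb0, hb1, h1, h2⟩ := hf.shift hM hCl
  obtain ⟨c, hc0, hc1, h3, h4⟩ := hg.shift hM hCl
  have hmin : 0 < min b c := lt_min hb0 hc0
  obtain ⟨k, hk, hk'⟩ := h2 (min b c / 2) (by linarith) (by
    have := min_le_left b c
    linarith)
  obtain ⟨l, hl, hl'⟩ := h4 (min b c / 2) (by linarith) (by
    have := min_le_right b c
    linarith)
  refine ⟨F.mul_mem hf.1 hg.1, min b c / 2, min b c, by linarith, by linarith,
    lt_of_le_of_lt (min_le_left _ _) hb1, fun x hx => ?_, k * l, M.mul_mem hk hl, fun x hx => ?_⟩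
  · rw [RelIso.mul_apply, h3 x (hx.trans (min_le_right _ _)), h1 x (hx.trans (min_le_left _ _))]
  · rw [RelIso.mul_apply, RelIso.mul_apply, hl' x hx]
    apply hk'
    have h5 : g (min b c / 2) ≤ g x := g.monotone hx
    rw [h3 _ (by have := min_le_right b c; linarith)] at h5
    exact h5

lemma InR.inv {f : Q} (hf : InR M f) : InR M f⁻¹ := by
  obtain ⟨hf, a, b, ha, hab, hb, h1, k, hk, h2⟩ := hf
  refine ⟨F.inv_mem hf, a, b, ha, hab, hb, fun x hx => ?_, k⁻¹, M.inv_mem hk, fun x hx => ?_⟩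
  · conv_lhs => rw [← h1 x hx]
    exact RelIso.inv_apply_self _ _
  · have h3 : a ≤ f⁻¹ x := by
      have : f⁻¹ a ≤ f⁻¹ x := (f⁻¹).monotone hx
      rw [← h1 a hab.le, RelIso.inv_apply_self] at this
      exact this
    have h4 := h2 _ h3
    rw [RelIso.apply_inv_self] at h4
    conv_lhs => rw [← h4]
    rw [RelIso.inv_apply_self]

lemma InR.conj (hM : MaxSub M) {f m : Q} (hf : InR M f) (hm : m ∈ M) : InR M (m * f * m⁻¹) := by
  obtain ⟨hf, a, b, ha, hab, hb, h1, k, hk, h2⟩ := hf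
  refine ⟨F.mul_mem (F.mul_mem (hM.le hm) hf) (F.inv_mem (hM.le hm)), m a, m b,
    F.pos (hM.le hm) ha, m.strictMono hab, F.lt_one (hM.le hm) hb, fun x hx => ?_, m * k * m⁻¹,
    M.mul_mem (M.mul_mem hm hk) (M.inv_mem hm), fun x hx => ?_⟩
  · have h3 : m⁻¹ x ≤ b := by
      rw [← RelIso.inv_apply_self m b]; exact (m⁻¹).monotone hx
    rw [RelIso.mul_apply, RelIso.mul_apply, h1 _ h3, RelIso.apply_inv_self]
  · have h3 : a ≤ m⁻¹ x := by
      rw [← RelIso.inv_apply_self m a]; exact (m⁻¹).monotone hx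
    rw [RelIso.mul_apply, RelIso.mul_apply, RelIso.mul_apply, RelIso.mul_apply, h2 _ h3]

lemma InR.of_mem (hM : MaxSub M) {m : Q} (hm : m ∈ M) {b : ℚ} (hb0 : 0 < b) (h : ∀ x, x ≤ b → m x = x) :
    InR M m := by
  have h1 : 0 < min b (1/2) := lt_min hb0 (by norm_num)
  refine ⟨hM.le hm, min b (1/2) / 2, min b (1/2), by linarith, by linarith, ?_, fun x hx => ?_,
    m, hm, fun _ _ => rfl⟩
  · exact lt_of_le_of_lt (min_le_right _ _) (by norm_num)
  · exact h x (hx.trans (min_le_left _ _))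

/-- decomposition by end slopes -/
lemma MaxSub.decomp (hM : MaxSub M) {m : Q} (hm : m ∈ M) : ∃ m1 ∈ M, ∃ m0 ∈ M, m = m1 * m0 ∧
    (∃ c, 0 < c ∧ c < 1 ∧ ∀ x, c ≤ x → m1 x = x) ∧ (∃ b, 0 < b ∧ b < 1 ∧ ∀ x, x ≤ b → m0 x = x) := by
  have d2 : Dy (1/2 : ℚ) := by simpa using dy_zpow (-1)
  obtain ⟨f1, hf1, f1a, _, f1c⟩ := exists_F_ls d2 dy_one (by norm_num) (by norm_num) le_rfl (ls m 1)
  obtain ⟨m0, hm0, m0a, m0b⟩ := hM.exists_slopes hf1
  have e1 : rs f1 0 = 0 := by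
    have := rs_congr (f := f1) (g := 1) (F.le_P hf1) (a := 0) (b := 1/2) (by norm_num)
      (fun x _ hx => f1a x hx)
    rw [this, rs_one]
  obtain ⟨b, hb, H⟩ := P.hasRS (F.le_P (hM.le hm0)) 0
  rw [m0a, e1, F.zero (hM.le hm0) le_rfl] at H
  have hml : ls (m * m0⁻¹) 1 = 0 := by
    rw [ls_mul (F.le_P (hM.le hm)) (P.inv_mem (F.le_P (hM.le hm0))),
      F.one (F.inv_mem (hM.le hm0)) le_rfl]
    have h2 := ls_inv (F.le_P (hM.le hm0)) 1
    rw [F.one (hM.le hm0) le_rfl] at h2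
    rw [h2, m0b, f1c]; ring
  have hm1 : m * m0⁻¹ ∈ M := M.mul_mem hm (M.inv_mem hm0)
  obtain ⟨c, hc, G⟩ := P.hasLS (F.le_P (hM.le hm1)) 1
  rw [hml, F.one (hM.le hm1) le_rfl] at G
  refine ⟨m * m0⁻¹, hm1, m0, hm0, by simp only [mul_assoc, mul_inv_rev, inv_inv, inv_mul_cancel_left, mul_inv_cancel_left,
      inv_mul_cancel, mul_inv_cancel, mul_one, one_mul], ⟨max c (1/2), ?_, max_lt hc (by norm_num), ?_⟩,
    ⟨min b (1/2), lt_min hb (by norm_num), ?_, ?_⟩⟩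
  · exact lt_of_lt_of_le (by norm_num) (le_max_right _ _)
  · intro x hx
    rcases le_total x 1 with h | h
    · rw [G x ((le_max_left _ _).trans hx) h]; norm_num
    · exact F.one (hM.le hm1) h
  · exact lt_of_le_of_lt (min_le_right _ _) (by norm_num)
  · intro x hx
    rcases le_total x 0 with h | h
    · exact F.zero (hM.le hm0) h
    · rw [H x h (hx.trans (min_le_left _ _))]; norm_num

lemma conj_eq {r k s : Q} {b c : ℚ} (hcb : c < b) (hr : ∀ x, x ≤ b → r x = x)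
    (hk : ∀ x, c ≤ x → k x = r x) (hs : ∀ x, x ≤ b → s x = x) : r * s * r⁻¹ = k * s * k⁻¹ := by
  rw [mul_inv_eq_iff_eq_mul]
  ext x
  rw [RelIso.mul_apply, RelIso.mul_apply, RelIso.mul_apply, RelIso.mul_apply]
  rcases le_or_gt c x with h | h
  · have h3 : k x = r x := hk x h
    rw [← h3, RelIso.inv_apply_self]
    have h4 : c ≤ s x := by
      have := s.monotone h
      rw [hs _ hcb.le] at this
      exact this
    rw [hk _ h4]
  · have h3 : r x = x := hr x (h.trans hcb).le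
    have h4 : k⁻¹ x < c := by
      have h5 : k c = c := by rw [hk _ le_rfl, hr _ hcb.le]
      have h6 : k⁻¹ x < k⁻¹ c := (k⁻¹).strictMono h
      have h7 : k⁻¹ c = c := by
        conv_lhs => rw [← h5]
        exact RelIso.inv_apply_self _ _
      rw [h7] at h6
      exact h6
    rw [hs x (h.trans hcb).le, h3, hs _ (h4.trans hcb).le, RelIso.apply_inv_self]

/-- Claim 1: M normalised by R -/
lemma InR.normalizes (hM : MaxSub M) (hCl : Cl M = F) {r m : Q} (hr : InR M r) (hm : m ∈ M) :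
    r * m * r⁻¹ ∈ M := by
  -- case of m trivial near 0
  have case0 : ∀ r, InR M r → ∀ m ∈ M, (∃ b, 0 < b ∧ b < 1 ∧ ∀ x, x ≤ b → m x = x) →
      r * m * r⁻¹ ∈ M := by
    rintro r hr m hm ⟨b0, hb0, -, hmb⟩
    obtain ⟨b, hb, hb1, h1, h2⟩ := hr.shift hM hCl
    have hmin : 0 < min b b0 := lt_min hb hb0
    have q1 := min_le_left b b0
    have q2 := min_le_right b b0
    obtain ⟨k, hk, hk'⟩ := h2 (min b b0 / 2) (by linarith) (by linarith)
    have e : r * m * r⁻¹ = k * m * k⁻¹ := conj_eq (b := min b b0) (c := min b b0 / 2)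
      (by linarith) (fun x hx => h1 x (hx.trans q1)) hk' (fun x hx => hmb x (hx.trans q2))
    rw [e]
    exact M.mul_mem (M.mul_mem hk hm) (M.inv_mem hk)
  obtain ⟨m1, hm1, m0, hm0, rfl, ⟨c, hc0, hc1, hc⟩, hb⟩ := hM.decomp hm
  have c0 := case0 r hr m0 hm0 hb
  suffices h : r * m1 * r⁻¹ ∈ M by
    have := M.mul_mem h c0
    have e : r * m1 * r⁻¹ * (r * m0 * r⁻¹) = r * (m1 * m0) * r⁻¹ := by simp only [mul_assoc, mul_inv_rev, inv_inv, inv_mul_cancel_left, mul_inv_cancel_left,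
      inv_mul_cancel, mul_inv_cancel, mul_one, one_mul]
    rwa [e] at this
  obtain ⟨-, a, b, ha, hab, hb1, h1, -⟩ := id hr
  obtain ⟨w, ⟨hw, w', hw', hww⟩, h2⟩ := dense_W hM hCl ha hab hb1 hc1
  have hw0 : ∃ b, 0 < b ∧ b < 1 ∧ ∀ x, x ≤ b → w x = x :=
    ⟨a, ha, by linarith, fun x hx => hww x (by linarith)⟩
  -- r' = w r w⁻¹ commutes with m1
  have comm : (w * r * w⁻¹) * m1 = m1 * (w * r * w⁻¹) := by
    have hr' : ∀ x, x ≤ w b → (w * r * w⁻¹) x = x := by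
      intro x hx
      have h3 : w⁻¹ x ≤ b := by
        rw [← RelIso.inv_apply_self w b]; exact (w⁻¹).monotone hx
      rw [RelIso.mul_apply, RelIso.mul_apply, h1 _ h3, RelIso.apply_inv_self]
    ext x
    rw [RelIso.mul_apply (w * r * w⁻¹) m1, RelIso.mul_apply m1 (w * r * w⁻¹)]
    rcases le_total x c with h | h
    · have h3 : m1 x ≤ c := by
        have := m1.monotone h
        rw [hc c le_rfl] at this
        exact this
      rw [hr' x (by linarith), hr' (m1 x) (by linarith)]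
    · have h3 : c ≤ (w * r * w⁻¹) x := by
        have := (w * r * w⁻¹).monotone h
        rw [hr' c h2.le] at this
        exact this
      rw [hc x h, hc _ h3]
  have g1 : r * w * r⁻¹ ∈ M := case0 r hr w hw hw0
  have g2 : r * w * r⁻¹ * w⁻¹ ∈ M := M.mul_mem g1 (M.inv_mem hw)
  have e : r * m1 * r⁻¹ = (r * w * r⁻¹ * w⁻¹) * m1 * (r * w * r⁻¹ * w⁻¹)⁻¹ := by
    have e1 : r = (r * w * r⁻¹ * w⁻¹) * (w * r * w⁻¹) := by simp only [mul_assoc, mul_inv_rev, inv_inv, inv_mul_cancel_left, mul_inv_cancel_left,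
      inv_mul_cancel, mul_inv_cancel, mul_one, one_mul]
    have e2 : (w * r * w⁻¹) * m1 * (w * r * w⁻¹)⁻¹ = m1 := by
      rw [comm]; simp only [mul_assoc, mul_inv_rev, inv_inv, inv_mul_cancel_left, mul_inv_cancel_left,
      inv_mul_cancel, mul_inv_cancel, mul_one, one_mul]
    calc r * m1 * r⁻¹ = ((r * w * r⁻¹ * w⁻¹) * (w * r * w⁻¹)) * m1 *
          ((r * w * r⁻¹ * w⁻¹) * (w * r * w⁻¹))⁻¹ := by rw [← e1]
      _ = (r * w * r⁻¹ * w⁻¹) * ((w * r * w⁻¹) * m1 * (w * r * w⁻¹)⁻¹) *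
          (r * w * r⁻¹ * w⁻¹)⁻¹ := by simp only [mul_assoc, mul_inv_rev, inv_inv, inv_mul_cancel_left, mul_inv_cancel_left,
      inv_mul_cancel, mul_inv_cancel, mul_one, one_mul]
      _ = _ := by rw [e2]
  rw [e]
  exact M.mul_mem (M.mul_mem g2 hm1) (M.inv_mem g2)

/-- Claim 2: R commutes modulo M -/
lemma InR.comm_mod (hM : MaxSub M) (hCl : Cl M = F) {r r' : Q} (hr : InR M r) (hr' : InR M r') :
    r * r' * r⁻¹ * r'⁻¹ ∈ M := by
  obtain ⟨b, hb, hb1, h1, h2⟩ := hr.shift hM hCl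
  obtain ⟨-, a', b', ha', hab', hb1', h1', -⟩ := id hr'
  obtain ⟨w, ⟨hw, w', hw', hww⟩, h3⟩ := dense_W hM hCl ha' hab' hb1' hb1
  -- r'' = w r' w⁻¹ is trivial left of b
  have hr'' : InR M (w * r' * w⁻¹) := hr'.conj hM hw
  have htriv : ∀ x, x ≤ b → (w * r' * w⁻¹) x = x := by
    intro x hx
    have h3 : w⁻¹ x ≤ b' := by
      rw [← RelIso.inv_apply_self w b']; exact (w⁻¹).monotone (by linarith)
    rw [RelIso.mul_apply, RelIso.mul_apply, h1' _ h3, RelIso.apply_inv_self]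
  have hg : r' * w * r'⁻¹ * w⁻¹ ∈ M := M.mul_mem (hr'.normalizes hM hCl hw) (M.inv_mem hw)
  obtain ⟨k, hk, hk'⟩ := h2 (b/2) (by linarith) (by linarith)
  obtain ⟨s, hs⟩ : ∃ s, s = w * r' * w⁻¹ := ⟨_, rfl⟩
  rw [← hs] at hr'' htriv
  have e : r * s * r⁻¹ = k * s * k⁻¹ := conj_eq (b := b) (c := b/2) (by linarith) h1 hk' htriv
  have h5 : s * k⁻¹ * s⁻¹ ∈ M := hr''.normalizes hM hCl (M.inv_mem hk)
  -- r s r⁻¹ s⁻¹ = k (s k⁻¹ s⁻¹)
  have h6 : r * s * r⁻¹ * s⁻¹ ∈ M := by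
    rw [e]
    have := M.mul_mem hk h5
    have e' : k * (s * k⁻¹ * s⁻¹) = k * s * k⁻¹ * s⁻¹ := by simp only [mul_assoc, mul_inv_rev, inv_inv, inv_mul_cancel_left, mul_inv_cancel_left,
      inv_mul_cancel, mul_inv_cancel, mul_one, one_mul]
    rwa [e'] at this
  -- r' = g s
  have e1 : r' = (r' * w * r'⁻¹ * w⁻¹) * s := by
    rw [hs]; simp only [mul_assoc, mul_inv_rev, inv_inv, inv_mul_cancel_left, mul_inv_cancel_left,
      inv_mul_cancel, mul_inv_cancel, mul_one, one_mul]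
  have h7 := hr.normalizes hM hCl hg
  have e2 : r * r' * r⁻¹ * r'⁻¹ = (r * (r' * w * r'⁻¹ * w⁻¹) * r⁻¹) * (r * s * r⁻¹ * s⁻¹) *
      (r' * w * r'⁻¹ * w⁻¹)⁻¹ := by
    calc r * r' * r⁻¹ * r'⁻¹ = r * ((r' * w * r'⁻¹ * w⁻¹) * s) * r⁻¹ *
          ((r' * w * r'⁻¹ * w⁻¹) * s)⁻¹ := by rw [← e1]
      _ = _ := by simp only [mul_assoc, mul_inv_rev, inv_inv, inv_mul_cancel_left, mul_inv_cancel_left,
      inv_mul_cancel, mul_inv_cancel, mul_one, one_mul]
  rw [e2]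
  exact M.mul_mem (M.mul_mem h7 h6) (M.inv_mem hg)

/-- elements of R lie in M -/
theorem InR.mem (hM : MaxSub M) (hCl : Cl M = F) {r : Q} (hr : InR M r) : r ∈ M := by
  let K : Subgroup Q :=
    { carrier := {f | ∃ r, InR M r ∧ ∃ m ∈ M, f = r * m}
      one_mem' := ⟨1, InR.of_mem hM M.one_mem (b := 1) (by norm_num) (fun _ _ => rfl), 1, M.one_mem,
        by simp⟩
      mul_mem' := by
        rintro f g ⟨r, hr, m, hm, rfl⟩ ⟨r', hr', m', hm', rfl⟩
        refine ⟨r * (m * r' * m⁻¹), hr.mul hM hCl (hr'.conj hM hm), m * m', M.mul_mem hm hm', ?_⟩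
        simp only [mul_assoc, mul_inv_rev, inv_inv, inv_mul_cancel_left, mul_inv_cancel_left,
      inv_mul_cancel, mul_inv_cancel, mul_one, one_mul]
      inv_mem' := by
        rintro f ⟨r, hr, m, hm, rfl⟩
        refine ⟨m⁻¹ * r⁻¹ * (m⁻¹)⁻¹, hr.inv.conj hM (M.inv_mem hm), m⁻¹, M.inv_mem hm, ?_⟩
        simp only [mul_assoc, mul_inv_rev, inv_inv, inv_mul_cancel_left, mul_inv_cancel_left,
      inv_mul_cancel, mul_inv_cancel, mul_one, one_mul] }
  have hMK : M ≤ K := fun m hm => ⟨1, InR.of_mem hM M.one_mem (b := 1) (by norm_num)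
    (fun _ _ => rfl), m, hm, by simp⟩
  have hKF : K ≤ F := by
    rintro f ⟨r, hr, m, hm, rfl⟩
    exact F.mul_mem hr.1 (hM.le hm)
  have hrK : r ∈ K := ⟨r, hr, 1, M.one_mem, by simp⟩
  rcases hM.maxi K hMK hKF with h | h
  · rwa [h] at hrK
  · exfalso
    apply hM.notComm
    intro f hf g hg
    rw [← h] at hf hg
    obtain ⟨r, hr, m, hm, rfl⟩ := hf
    obtain ⟨s, hs, n, hn, rfl⟩ := hg
    have hA : (s⁻¹ * m * (s⁻¹)⁻¹) * n ∈ M := M.mul_mem (hs.inv.normalizes hM hCl hm) hn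
    have hB : (r⁻¹ * n * (r⁻¹)⁻¹) * m ∈ M := M.mul_mem (hr.inv.normalizes hM hCl hn) hm
    have h1 := hr.comm_mod hM hCl hs
    have h2 := (hs.mul hM hCl hr).normalizes hM hCl (M.mul_mem hA (M.inv_mem hB))
    have e : r * m * (s * n) * (r * m)⁻¹ * (s * n)⁻¹ = (r * s * r⁻¹ * s⁻¹) *
        (s * r * (s⁻¹ * m * (s⁻¹)⁻¹ * n * (r⁻¹ * n * (r⁻¹)⁻¹ * m)⁻¹) * (s * r)⁻¹) := by simp only [mul_assoc, mul_inv_rev, inv_inv, inv_mul_cancel_left, mul_inv_cancel_left,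
      inv_mul_cancel, mul_inv_cancel, mul_one, one_mul]
    rw [e]
    exact M.mul_mem h1 h2

/-- if k in M is trivial on [a,b] then its right part is in M -/
lemma split_near (hM : MaxSub M) (hCl : Cl M = F) {k : Q} (hk : k ∈ M) {a b : ℚ} (ha : 0 < a)
    (hab : a < b) (hb : b < 1) (hkab : ∀ x, a ≤ x → x ≤ b → k x = x) {f : Q} (hf : f ∈ F)
    (hf0 : ∀ x, x ≤ b → f x = x) (hf1 : ∀ x, b ≤ x → f x = k x) : f ∈ M := by
  apply InR.mem hM hCl
  refine ⟨hf, a, b, ha, hab, hb, hf0, k, hk, fun x hx => ?_⟩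
  rcases le_total x b with h | h
  · rw [hkab x hx h, hf0 x h]
  · rw [hf1 x h]

end

end Pool.Agent.ThF
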