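import Pool.Agent.Lib.MP_a06c1e_al.Phase1

set_option autoImplicit false
set_option linter.unusedSimpArgs false

namespace Pool.Agent.ThF
open Vx

section
variable {M : Subgroup Q}

lemma dy_half : Dy (1/2 : ℚ) := by simpa using dy_zpow (-1)

/-- slope pairs at 1/2 of elements of M fixing 1/2 -/
def slopePairs (M : Subgroup Q) (hM : M ≤ F) : AddSubgroup (ℤ × ℤ) where
  carrier := {p | ∃ m ∈ M, m (1/2) = 1/2 ∧ ls m (1/2) = p.1 ∧ rs m (1/2) = p.2}
  zero_mem' := ⟨1, M.one_mem, rfl, ls_one _, rs_one _⟩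
  add_mem' := by
    rintro p q ⟨m, hm, h1, h2, h3⟩ ⟨m', hm', h1', h2', h3'⟩
    refine ⟨m * m', M.mul_mem hm hm', ?_, ?_, ?_⟩
    · rw [RelIso.mul_apply, h1', h1]
    · rw [ls_mul (F.le_P (hM hm)) (F.le_P (hM hm')), h1', h2, h2']; rfl
    · rw [rs_mul (F.le_P (hM hm)) (F.le_P (hM hm')), h1', h3, h3']; rfl
  neg_mem' := by
    rintro p ⟨m, hm, h1, h2, h3⟩
    refine ⟨m⁻¹, M.inv_mem hm, ?_, ?_, ?_⟩
    · conv_lhs => rw [← h1]
      exact RelIso.inv_apply_self _ _
    · have := ls_inv (F.le_P (hM hm)) (1/2)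
      rw [h1] at this
      rw [this, h2]; rfl
    · have := rs_inv (F.le_P (hM hm)) (1/2)
      rw [h1] at this
      rw [this, h3]; rfl

lemma mem_slopePairs (hM : M ≤ F) {p : ℤ × ℤ} : p ∈ slopePairs M hM ↔
    ∃ m ∈ M, m (1/2) = 1/2 ∧ ls m (1/2) = p.1 ∧ rs m (1/2) = p.2 := Iff.rfl

/-- the pair of slopes -/
noncomputable def sl (f : Q) (a : ℚ) : ℤ × ℤ := (ls f a, rs f a)

lemma sl_mul {f g : Q} (hf : f ∈ P) (hg : g ∈ P) (a : ℚ) : sl (f * g) a = sl f (g a) + sl g a := by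
  simp only [sl, ls_mul hf hg, rs_mul hf hg, Prod.mk_add_mk]

lemma sl_congr {f g : Q} (hf : f ∈ P) {a b c : ℚ} (hb : b < a) (hc : a < c)
    (h : ∀ x, b ≤ x → x ≤ c → f x = g x) : sl f a = sl g a := by
  rw [sl, sl, ls_congr hf hb (fun x h1 h2 => h x h1 (h2.trans hc.le)),
    rs_congr hf hc (fun x h1 h2 => h x (hb.le.trans h1) h2)]

/-- the local defect -/
noncomputable def defect (M : Subgroup Q) (hM : M ≤ F) (r : ℚ → Q) (f : Q) (z : ℚ) :
    (ℤ × ℤ) ⧸ slopePairs M hM := by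
  classical exact if Dy z ∧ 0 < z ∧ z < 1 then
    QuotientAddGroup.mk (sl ((r (f z))⁻¹ * f * r z) (1/2)) else 0

/-- the germ lemma: M contains an element with slopes (1, 2) at 1/2 -/
theorem germ_lemma (hM : MaxSub M) (hCl : Cl M = F) (j : ℤ) :
    ((0, j) : ℤ × ℤ) ∈ slopePairs M hM.le := by
  have hr : ∀ z : ℚ, ∃ m, m ∈ M ∧ (Dy z → 0 < z → z < 1 → m (1/2) = z) := by
    intro z
    by_cases h : Dy z ∧ 0 < z ∧ z < 1
    · obtain ⟨m, hm, hmz⟩ := dense_trans hCl dy_half h.1 (by norm_num) (by norm_num) h.2.1 h.2.2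
      exact ⟨m, hm, fun _ _ _ => hmz⟩
    · exact ⟨1, M.one_mem, fun h1 h2 h3 => absurd ⟨h1, h2, h3⟩ h⟩
  choose r hrM hrz using hr
  have hrP : ∀ z, r z ∈ P := fun z => F.le_P (hM.le (hrM z))
  set e := defect M hM.le r with he
  -- elements of M have no defect
  have heM : ∀ m ∈ M, ∀ z, e m z = 0 := by
    intro m hm z
    rw [he, defect]
    split_ifs with h
    · rw [QuotientAddGroup.eq_zero_iff, mem_slopePairs]
      refine ⟨_, M.mul_mem (M.mul_mem (M.inv_mem (hrM (m z))) hm) (hrM z), ?_, rfl, rfl⟩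
      obtain ⟨h1, h2, h3⟩ := h
      rw [RelIso.mul_apply, RelIso.mul_apply, hrz z h1 h2 h3]
      exact inv_of_eq
        (hrz (m z) (P.dy (F.le_P (hM.le hm)) h1) (F.pos (hM.le hm) h2) (F.lt_one (hM.le hm) h3))
    · rfl
  -- local equality
  have hecongr : ∀ f ∈ F, ∀ g ∈ F, ∀ z b c, b < z → z < c → (∀ x, b ≤ x → x ≤ c → f x = g x) →
      e f z = e g z := by
    intro f hf g hg z b c hb hc hfg
    rw [he, defect, defect]
    split_ifs with h
    · obtain ⟨h1, h2, h3⟩ := h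
      congr 1
      rw [← hfg z hb.le hc.le]
      have h4 := hrz z h1 h2 h3
      have h5 : (r z)⁻¹ z = 1/2 := inv_of_eq h4
      refine sl_congr (b := (r z)⁻¹ b) (c := (r z)⁻¹ c) (P.mul_mem (P.mul_mem (P.inv_mem (hrP _))
        (F.le_P hf)) (hrP z)) ?_ ?_ ?_
      · have := (r z)⁻¹.strictMono hb; rwa [h5] at this
      · have := (r z)⁻¹.strictMono hc; rwa [h5] at this
      · intro x h6 h7
        have h8 : b ≤ r z x := by
          rw [← RelIso.apply_inv_self (r z) b]; exact (r z).monotone h6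
        have h9 : r z x ≤ c := by
          rw [← RelIso.apply_inv_self (r z) c]; exact (r z).monotone h7
        simp only [RelIso.mul_apply]
        rw [hfg _ h8 h9]
    · rfl
  -- cocycle
  have hecoc : ∀ f ∈ F, ∀ g ∈ F, ∀ z, e (f * g) z = e f (g z) + e g z := by
    intro f hf g hg z
    rw [he, defect, defect, defect]
    by_cases h : Dy z ∧ 0 < z ∧ z < 1
    · obtain ⟨h1, h2, h3⟩ := h
      have h4 : Dy (g z) ∧ 0 < g z ∧ g z < 1 :=
        ⟨P.dy (F.le_P hg) h1, F.pos hg h2, F.lt_one hg h3⟩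
      rw [if_pos ⟨h1, h2, h3⟩, if_pos h4, if_pos ⟨h1, h2, h3⟩, ← QuotientAddGroup.mk_add]
      congr 1
      have e1 : (r ((f * g) z))⁻¹ * (f * g) * r z =
          ((r (f (g z)))⁻¹ * f * r (g z)) * ((r (g z))⁻¹ * g * r z) := by
        rw [RelIso.mul_apply]
        simp only [mul_assoc, mul_inv_cancel_left]
      rw [e1, sl_mul (P.mul_mem (P.mul_mem (P.inv_mem (hrP _)) (F.le_P hf)) (hrP _))
        (P.mul_mem (P.mul_mem (P.inv_mem (hrP _)) (F.le_P hg)) (hrP _))]
      congr 2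
      rw [RelIso.mul_apply, RelIso.mul_apply, hrz z h1 h2 h3]
      exact inv_of_eq (hrz (g z) h4.1 h4.2.1 h4.2.2)
    · have h4 : ¬ (Dy (g z) ∧ 0 < g z ∧ g z < 1) := by
        intro h4
        apply h
        refine ⟨(P.dy_iff (F.le_P hg)).1 h4.1, ?_, ?_⟩
        · have := F.pos (F.inv_mem hg) h4.2.1
          rwa [RelIso.inv_apply_self] at this
        · have := F.lt_one (F.inv_mem hg) h4.2.2
          rwa [RelIso.inv_apply_self] at this
      rw [if_neg h, if_neg h4, if_neg h, add_zero]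
  -- finite support
  have hfin : ∀ f ∈ F, (Function.support (e f)).Finite := by
    intro f hf
    have hf' := hf
    rw [← hCl] at hf'
    obtain ⟨-, N, hN⟩ := hf'
    obtain ⟨K, hK⟩ : ∃ K : ℕ, N ≤ K := ⟨N.toNat, Int.self_le_toNat N⟩
    refine Set.Finite.subset (s := (fun i : ℕ => Vx.lo ⟨K, i⟩) '' (Finset.range (2 ^ K) : Set ℕ))
      (Set.Finite.image _ (Finset.finite_toSet _)) ?_
    intro z hz
    obtain ⟨v, hv, h0, h1⟩ := Vx.exists_mem (K:ℤ) z
    have hzd : Dy z ∧ 0 < z ∧ z < 1 := by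
      by_contra h
      apply hz
      rw [he, defect, if_neg h]
    rcases eq_or_lt_of_le h0 with h2 | h2
    · have h3 : z = v.i * (2:ℚ) ^ (-(K:ℤ)) := by
        rw [← h2, Vx.lo, Vx.pt, hv, add_zero]
      have h4 : 0 < v.i := by
        have := hzd.2.1
        rw [h3] at this
        exact_mod_cast (mul_pos_iff_of_pos_right (two_zpow_pos (-(K:ℤ)))).1 this
      have h5 : v.i < 2 ^ K := by
        have := hzd.2.2
        rw [h3, zpow_neg, zpow_natCast, ← div_eq_mul_inv, div_lt_one (by positivity)] at this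
        exact_mod_cast this
      refine ⟨v.i.toNat, ?_, ?_⟩
      · simp only [Finset.coe_range, Set.mem_Iio]
        have : (v.i.toNat : ℤ) < ((2 ^ K : ℕ) : ℤ) := by
          rw [Int.toNat_of_nonneg h4.le]; push_cast; exact h5
        exact_mod_cast this
      · simp only
        rw [← h2]
        congr 1
        ext
        · exact hv.symm
        · simp [Int.toNat_of_nonneg h4.le]
    · exfalso
      apply hz
      obtain ⟨m, hm, h3⟩ := hN v (by rw [hv]; exact hK)
      rw [hecongr f hf m (hM.le hm) z v.lo v.hi h2 h1 (fun x h4 h5 => h3 x ⟨h4, h5⟩)]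
      exact heM m hm z
  -- total defect
  have hE : ∀ f ∈ F, ∑ᶠ z, e f z = 0 := by
    refine hM.hom_zero (fun f => ∑ᶠ z, e f z) ?_ ?_
    · intro f hf g hg
      have h1 : (fun z => e (f * g) z) = fun z => e f (g z) + e g z := by
        funext z; exact hecoc f hf g hg z
      have h2 : (Function.support fun z => e f (g z)).Finite := by
        have : (Function.support fun z => e f (g z)) = g ⁻¹' (Function.support (e f)) := rfl
        rw [this]
        exact (hfin f hf).preimage (g.injective.injOn)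
      simp only [h1]
      rw [finsum_add_distrib h2 (hfin g hg)]
      congr 1
      exact finsum_comp_equiv g.toEquiv
    · intro m hm
      simp only [heM m hm, finsum_zero]
  -- a test element
  obtain ⟨f, hf, hf1, hf2, hf3⟩ := exists_F_rs dy_half dy_one (by norm_num) (by norm_num) le_rfl j
  have hf' := hf
  rw [← hCl] at hf'
  obtain ⟨k, hk, b, hb, hkb⟩ := Cl.right hf' (1/2)
  have hkh : k (1/2) = 1/2 := by rw [← hkb _ le_rfl hb.le, hf1 _ le_rfl]
  have hkr : rs k (1/2) = j := by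
    rw [← rs_congr (F.le_P hf) hb hkb, hf3]
  have hgl : (1:Q) (1/2) = k (1/2) := by rw [hkh]; rfl
  have hkR : glue 1 k (1/2) hgl ∈ F := glue_mem_F hgl F.one_mem (hM.le hk) dy_half
  have h0 := hE _ hkR
  have h1 : ∀ z, z ≠ 1/2 → e (glue 1 k (1/2) hgl) z = 0 := by
    intro z hz
    rcases lt_or_gt_of_ne hz with h | h
    · rw [hecongr _ hkR 1 F.one_mem z (z - 1) (1/2) (by linarith) h
        (fun x _ hx => glue_of_le _ hx)]
      exact heM 1 M.one_mem z
    · rw [hecongr _ hkR k (hM.le hk) z (1/2) (z + 1) h (by linarith)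
        (fun x hx _ => glue_of_ge _ hx)]
      exact heM k hk z
  rw [finsum_eq_single _ (1/2) h1] at h0
  -- compute the defect at 1/2
  have h2 : glue 1 k (1/2) hgl (1/2) = 1/2 := by rw [glue_of_le _ le_rfl]; rfl
  rw [he, defect, if_pos ⟨dy_half, by norm_num, by norm_num⟩, QuotientAddGroup.eq_zero_iff, h2] at h0
  have h3 : r (1/2) (1/2) = 1/2 := hrz _ dy_half (by norm_num) (by norm_num)
  rw [sl_mul (P.mul_mem (P.inv_mem (hrP _)) (F.le_P hkR)) (hrP _), h3,
    sl_mul (P.inv_mem (hrP _)) (F.le_P hkR), h2] at h0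
  have h4 : sl (r (1/2))⁻¹ (1/2) + sl (r (1/2)) (1/2) = 0 := by
    have := sl_mul (P.inv_mem (hrP (1/2))) (hrP (1/2)) (1/2)
    rw [inv_mul_cancel, h3] at this
    rw [← this, sl, ls_one, rs_one]; rfl
  have h5 : sl (r (1/2))⁻¹ (1/2) + sl (glue 1 k (1/2) hgl) (1/2) + sl (r (1/2)) (1/2) =
      sl (glue 1 k (1/2) hgl) (1/2) := by
    rw [add_right_comm, h4, zero_add]
  rw [h5] at h0
  have h6 : sl (glue 1 k (1/2) hgl) (1/2) = (0, j) := by
    rw [sl, ← hkr]
    congr 1
    · rw [ls_congr (F.le_P hkR) (b := 0) (a := 1/2) (g := 1) (by norm_num)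
        (fun x _ hx => glue_of_le _ hx), ls_one]
    · exact rs_congr (F.le_P hkR) (b := 1) (by norm_num) (fun x hx _ => glue_of_ge _ hx)
  rw [h6] at h0
  exact h0

/-- splitting of elements of M at a fixed dyadic point -/
lemma split_of_dense (hM : MaxSub M) (hCl : Cl M = F) {a : ℚ} (ha : Dy a) (ha0 : 0 < a) (ha1 : a < 1)
    {k : Q} (hk : k ∈ M) (hka : k a = a) : glue 1 k a (show (1:Q) a = k a from hka.symm) ∈ M := by
  -- an element g with slopes (0, j)
  obtain ⟨g, hg, hga, hgl, hgr⟩ : ∃ g ∈ M, g a = a ∧ ls g a = 0 ∧ rs g a = rs k a := by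
    obtain ⟨g, hg, h1, h2, h3⟩ := germ_lemma hM hCl (rs k a)
    obtain ⟨r, hr, hra⟩ := dense_trans hCl dy_half ha (by norm_num) (by norm_num) ha0 ha1
    have hrP := F.le_P (hM.le hr)
    have hgP := F.le_P (hM.le hg)
    have hri : r⁻¹ a = 1/2 := by
      conv_lhs => rw [← hra]
      exact RelIso.inv_apply_self _ _
    refine ⟨r * g * r⁻¹, M.mul_mem (M.mul_mem hr hg) (M.inv_mem hr), ?_, ?_, ?_⟩
    · rw [RelIso.mul_apply, RelIso.mul_apply, hri, h1, hra]
    · rw [ls_mul (P.mul_mem hrP hgP) (P.inv_mem hrP), hri, ls_mul hrP hgP, h1, h2]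
      have := ls_inv hrP (1/2)
      rw [hra] at this
      rw [this]; simp
    · rw [rs_mul (P.mul_mem hrP hgP) (P.inv_mem hrP), hri, rs_mul hrP hgP, h1, h3]
      have := rs_inv hrP (1/2)
      rw [hra] at this
      rw [this]; simp
  have hgP := F.le_P (hM.le hg)
  have hkP := F.le_P (hM.le hk)
  -- right part of g
  have e1 : (1:Q) a = g a := hga.symm
  have hgRF : glue 1 g a e1 ∈ F := glue_mem_F e1 F.one_mem (hM.le hg) ha
  have hgR : glue 1 g a e1 ∈ M := by
    obtain ⟨b, hb, h1⟩ := eq_left_of_ls hgP P.one_mem (a := a) e1.symm (by rw [hgl, ls_one])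
    refine split_near hM hCl hg (a := max b (a/2)) (b := a) ?_ (max_lt hb (by linarith)) ha1
      (fun x h2 h3 => h1 x ((le_max_left _ _).trans h2) h3) hgRF (fun x hx => glue_of_le _ hx)
      (fun x hx => glue_of_ge _ hx)
    exact lt_of_lt_of_le (by linarith) (le_max_right _ _)
  -- k'' = k gR⁻¹ is trivial right of a
  obtain ⟨g', hg'⟩ : ∃ g', g' = glue 1 g a e1 := ⟨_, rfl⟩
  rw [← hg'] at hgR hgRF
  have hg'a : g' a = a := by rw [hg', glue_of_le _ le_rfl]; rfl
  have hg'rs : rs g' a = rs k a := by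
    rw [hg', rs_congr (F.le_P (glue_mem_F e1 F.one_mem (hM.le hg) ha)) (b := a + 1) (g := g)
      (by linarith) (fun x hx _ => glue_of_ge _ hx), hgr]
  obtain ⟨c', hc', h1⟩ := eq_right_of_rs (F.le_P (hM.le hgR)) hkP (hg'a.trans hka.symm) hg'rs
  obtain ⟨c0, hc0, hac0, hc0'⟩ := exists_dy_between (lt_min hc' ha1)
  have hc0c' : c0 < c' := lt_of_lt_of_le hc0' (min_le_left _ _)
  have hc01 : c0 < 1 := lt_of_lt_of_le hc0' (min_le_right _ _)
  -- c = g' c0
  obtain ⟨c, hc⟩ : ∃ c, c = g' c0 := ⟨_, rfl⟩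
  have hcd : Dy c := by rw [hc]; exact P.dy (F.le_P (hM.le hgR)) hc0
  have hac : a < c := by rw [hc, ← hg'a]; exact g'.strictMono hac0
  have hc1 : c < 1 := by rw [hc]; exact F.lt_one (hM.le hgR) hc01
  have hk'' : k * g'⁻¹ ∈ M := M.mul_mem hk (M.inv_mem hgR)
  have hid : ∀ x, a ≤ x → x ≤ c → (k * g'⁻¹) x = x := by
    intro x h2 h3
    rw [RelIso.mul_apply]
    have h4 : a ≤ g'⁻¹ x := by
      have := (g'⁻¹).monotone h2
      conv_lhs at this => rw [← hg'a]
      rwa [RelIso.inv_apply_self] at this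
    have h5 : g'⁻¹ x ≤ c0 := by
      have := (g'⁻¹).monotone h3
      rw [hc, RelIso.inv_apply_self] at this
      exact this
    rw [← h1 _ h4 (by linarith), RelIso.apply_inv_self]
  have e2 : (1:Q) c = (k * g'⁻¹) c := (hid c hac.le le_rfl).symm
  have hf'' : glue 1 (k * g'⁻¹) c e2 ∈ M :=
    split_near hM hCl hk'' ha0 hac hc1 hid (glue_mem_F e2 F.one_mem (hM.le hk'') hcd)
      (fun x hx => glue_of_le _ hx) (fun x hx => glue_of_ge _ hx)
  have efin : glue 1 k a (show (1:Q) a = k a from hka.symm) = glue 1 (k * g'⁻¹) c e2 * g' := by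
    ext x
    rw [RelIso.mul_apply]
    rcases le_total x a with h | h
    · have h2 : g' x = x := by rw [hg', glue_of_le _ h]; rfl
      rw [glue_of_le _ h, h2, glue_of_le _ (h.trans hac.le)]
    · rw [glue_of_ge _ h]
      have h2 : a ≤ g' x := by rw [← hg'a]; exact g'.monotone h
      rcases le_total (g' x) c with h3 | h3
      · have h4 := hid _ h2 h3
        rw [RelIso.mul_apply, RelIso.inv_apply_self] at h4
        rw [glue_of_le _ h3, h4]; rfl
      · rw [glue_of_ge _ h3, RelIso.mul_apply, RelIso.inv_apply_self]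
  rw [efin]
  exact M.mul_mem hf'' hgR

/-- a subgroup closed under splitting at dyadic points is closed -/
lemma Cl_le_of_split (hMF : M ≤ F)
    (hsp : ∀ a, Dy a → 0 < a → a < 1 → ∀ k ∈ M, ∀ h : k a = a,
      glue 1 k a (show (1:Q) a = k a from h.symm) ∈ M) : Cl M ≤ M := by
  rintro f ⟨hf, N, hN⟩
  obtain ⟨K, hK⟩ : ∃ K : ℕ, N ≤ K := ⟨N.toNat, Int.self_le_toNat N⟩
  have grid : ∀ i : ℕ, i ≤ 2 ^ K → ∃ h ∈ M, ∀ x, x ≤ Vx.lo ⟨K, i⟩ → f x = h x := by
    intro i
    induction i with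
    | zero =>
      intro _
      refine ⟨1, M.one_mem, fun x hx => ?_⟩
      have : Vx.lo ⟨K, ((0:ℕ):ℤ)⟩ = 0 := by simp [Vx.lo, Vx.pt]
      rw [this] at hx
      exact F.zero hf hx
    | succ i ih =>
      intro hi
      obtain ⟨h, hh, h1⟩ := ih (by omega)
      obtain ⟨m, hm, h2⟩ := hN ⟨K, i⟩ hK
      have e : Vx.hi ⟨K, i⟩ = Vx.lo ⟨K, ((i + 1 : ℕ) : ℤ)⟩ := by simp [Vx.hi, Vx.lo, Vx.pt]
      obtain ⟨a, ha⟩ : ∃ a, a = Vx.lo ⟨K, (i:ℤ)⟩ := ⟨_, rfl⟩
      have haD : Dy a := by rw [ha]; exact Vx.dy_lo _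
      have ha' : a = i * (2:ℚ) ^ (-(K:ℤ)) := by rw [ha, Vx.lo, Vx.pt]; simp
      rw [← ha] at h1
      have hlt : a < Vx.lo ⟨K, ((i + 1 : ℕ) : ℤ)⟩ := by rw [ha, ← e]; exact Vx.lo_lt_hi _
      have h2' : ∀ x, a ≤ x → x ≤ Vx.lo ⟨K, ((i + 1 : ℕ) : ℤ)⟩ → f x = m x := fun x h3 h4 =>
        h2 x ⟨by rw [← ha]; exact h3, by rw [e]; exact h4⟩
      rcases Nat.eq_zero_or_pos i with hi0 | hi0
      · refine ⟨m, hm, fun x hx => ?_⟩
        have ha0 : a = 0 := by rw [ha', hi0]; simp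
        rcases le_total x a with h3 | h3
        · rw [F.zero hf (by linarith), F.zero (hMF hm) (by linarith)]
        · exact h2' x h3 hx
      · have ha0 : 0 < a := by
          rw [ha']; exact mul_pos (by exact_mod_cast hi0) (two_zpow_pos _)
        have ha1 : a < 1 := by
          rw [ha', zpow_neg, zpow_natCast, ← div_eq_mul_inv, div_lt_one (by positivity)]
          have : i < 2 ^ K := by omega
          exact_mod_cast this
        have hk : h⁻¹ * m ∈ M := M.mul_mem (M.inv_mem hh) hm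
        have hka : (h⁻¹ * m) a = a := by
          rw [RelIso.mul_apply, ← h2' a le_rfl hlt.le, h1 a le_rfl, RelIso.inv_apply_self]
        refine ⟨h * glue 1 (h⁻¹ * m) a hka.symm, M.mul_mem hh (hsp a haD ha0 ha1 _ hk hka),
          fun x hx => ?_⟩
        rw [RelIso.mul_apply]
        rcases le_total x a with h3 | h3
        · rw [glue_of_le _ h3, h1 x h3]; rfl
        · rw [glue_of_ge _ h3, RelIso.mul_apply, RelIso.apply_inv_self, h2' x h3 hx]
  obtain ⟨h, hh, h1⟩ := grid (2 ^ K) le_rfl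
  have e : Vx.lo ⟨K, ((2 ^ K : ℕ) : ℤ)⟩ = 1 := by
    simp only [Vx.lo, Vx.pt, zpow_neg, zpow_natCast]
    push_cast
    field_simp
    ring
  rw [e] at h1
  have : f = h := by
    ext x
    rcases le_total x 1 with h2 | h2
    · rw [h1 x h2]
    · rw [F.one hf h2, F.one (hMF hh) h2]
  rw [this]; exact hh

/-- Theorem (closedness of maximal subgroups) -/
theorem MaxSub.closed (hM : MaxSub M) : Cl M = M := by
  rcases hM.maxi (Cl M) (le_Cl hM.le) (Cl.le_F M) with h | h
  · exact h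
  · exfalso
    apply hM.ne
    apply le_antisymm hM.le
    rw [← h]
    exact Cl_le_of_split hM.le (fun a ha h0 h1 k hk hka => split_of_dense hM h ha h0 h1 hk hka)

end

end Pool.Agent.ThF
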