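import Pool.Agent.Lib.MP_a06c1e_al.FP

set_option autoImplicit false

namespace Pool.Agent.ThF
open Vx BT

/-- the relators -/
abbrev R0 : Set (FreeGroup (Fin 2)) :=
      ({ (FreeGroup.of (0 : Fin 2) * (FreeGroup.of (1 : Fin 2))⁻¹) *
          ((FreeGroup.of (0 : Fin 2))⁻¹ * FreeGroup.of (1 : Fin 2) * FreeGroup.of (0 : Fin 2)) *
          (FreeGroup.of (0 : Fin 2) * (FreeGroup.of (1 : Fin 2))⁻¹)⁻¹ *
          ((FreeGroup.of (0 : Fin 2))⁻¹ * FreeGroup.of (1 : Fin 2) * FreeGroup.of (0 : Fin 2))⁻¹,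
         (FreeGroup.of (0 : Fin 2) * (FreeGroup.of (1 : Fin 2))⁻¹) *
          (((FreeGroup.of (0 : Fin 2)) ^ 2)⁻¹ * FreeGroup.of (1 : Fin 2) * (FreeGroup.of (0 : Fin 2)) ^ 2) *
          (FreeGroup.of (0 : Fin 2) * (FreeGroup.of (1 : Fin 2))⁻¹)⁻¹ *
          (((FreeGroup.of (0 : Fin 2)) ^ 2)⁻¹ * FreeGroup.of (1 : Fin 2) * (FreeGroup.of (0 : Fin 2)) ^ 2)⁻¹ }
        : Set (FreeGroup (Fin 2)))

/-- the presented group -/
abbrev E0 := PresentedGroup R0

/-- x0 -/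
def e0 : E0 := PresentedGroup.of 0
/-- x1 -/
def e1 : E0 := PresentedGroup.of 1

lemma rel1 : Commute (e0 * e1⁻¹) (e0⁻¹ * e1 * e0) := by
  have h : PresentedGroup.mk R0 _ = 1 := PresentedGroup.one_of_mem (rels := R0) (Or.inl rfl)
  simp only [map_mul, map_inv] at h
  have h2 := mul_inv_eq_one.1 h
  rw [mul_inv_eq_iff_eq_mul] at h2
  exact h2

lemma rel2 : Commute (e0 * e1⁻¹) ((e0 ^ 2)⁻¹ * e1 * e0 ^ 2) := by
  have h : PresentedGroup.mk R0 _ = 1 := PresentedGroup.one_of_mem (rels := R0) (Or.inr rfl)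
  simp only [map_mul, map_inv, map_pow] at h
  have h2 := mul_inv_eq_one.1 h
  rw [mul_inv_eq_iff_eq_mul] at h2
  exact h2

section Rel
variable {E : Type*} [Group E]

/-- x_{k+1} -/
def xk (a b : E) (k : ℕ) : E := (a ^ k)⁻¹ * b * a ^ k

lemma xk_conj (a b : E) (k : ℕ) : a⁻¹ * xk a b k * a = xk a b (k + 1) := by
  rw [xk, xk, pow_succ]
  simp only [mul_assoc, mul_inv_rev]

lemma xk_conj' (a b : E) (k j : ℕ) : (a ^ j)⁻¹ * xk a b k * a ^ j = xk a b (k + j) := by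
  rw [xk, xk, pow_add]
  simp only [mul_assoc, mul_inv_rev]

lemma comm_iff (a b x : E) : Commute (a * b⁻¹) x ↔ b⁻¹ * x * b = a⁻¹ * x * a := by
  constructor
  · intro h
    have h1 : a * b⁻¹ * x = x * (a * b⁻¹) := h
    have h2 : a⁻¹ * (a * b⁻¹ * x) * b = a⁻¹ * (x * (a * b⁻¹)) * b := by rw [h1]
    simpa only [mul_assoc, inv_mul_cancel_left, inv_mul_cancel, mul_one] using h2
  · intro h
    have h2 : a * (b⁻¹ * x * b) * b⁻¹ = a * (a⁻¹ * x * a) * b⁻¹ := by rw [h]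
    show a * b⁻¹ * x = x * (a * b⁻¹)
    simpa only [mul_assoc, mul_inv_cancel_left, mul_inv_cancel, mul_one] using h2

lemma xk_rel {a b : E} (h1 : Commute (a * b⁻¹) (xk a b 1)) (h2 : Commute (a * b⁻¹) (xk a b 2)) :
    ∀ k : ℕ, Commute (a * b⁻¹) (xk a b (k + 1)) := by
  -- x_i⁻¹ x_{i+1} x_i = x_{i+2}
  have hb : xk a b 0 = b := by simp [xk]
  have base : b⁻¹ * xk a b 1 * b = xk a b 2 := by
    rw [(comm_iff a b _).1 h1, xk_conj]
  have fam : ∀ i : ℕ, (xk a b i)⁻¹ * xk a b (i + 1) * xk a b i = xk a b (i + 2) := by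
    intro i
    have e1 := xk_conj' a b 1 i
    have e2 := xk_conj' a b 2 i
    have e3 := xk_conj' a b 0 i
    rw [hb, zero_add] at e3
    rw [add_comm i 1, add_comm i 2, ← e1, ← e2, ← e3, ← base]
    simp only [mul_assoc, mul_inv_rev, inv_inv, mul_inv_cancel_left]
  have main : ∀ k : ℕ, b⁻¹ * xk a b (k + 1) * b = xk a b (k + 2) ∧
      b⁻¹ * xk a b (k + 2) * b = xk a b (k + 3) := by
    intro k
    induction k with
    | zero => exact ⟨base, by rw [(comm_iff a b _).1 h2, xk_conj]⟩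
    | succ k ih =>
      refine ⟨ih.2, ?_⟩
      have f1 := fam (k + 1)
      have f2 := fam (k + 2)
      have e : b⁻¹ * xk a b (k + 3) * b =
          (b⁻¹ * xk a b (k + 1) * b)⁻¹ * (b⁻¹ * xk a b (k + 2) * b) * (b⁻¹ * xk a b (k + 1) * b) := by
        rw [← f1]
        simp only [mul_assoc, mul_inv_rev, inv_inv, mul_inv_cancel_left]
      show b⁻¹ * xk a b (k + 3) * b = xk a b (k + 4)
      rw [e, ih.1, ih.2]
      exact f2
  intro k
  rw [comm_iff, (main k).1, xk_conj]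

end Rel

lemma comm_e (k : ℕ) : Commute (e0 * e1⁻¹) (xk e0 e1 (k + 1)) := by
  refine xk_rel ?_ ?_ k
  · have := rel1
    rwa [show e0⁻¹ * e1 * e0 = xk e0 e1 1 by simp [xk]] at this
  · exact rel2

/-- colours: whether lo = 0, whether hi = 1 -/
abbrev S4 := Bool × Bool

/-- left child -/
def u0 (s : S4) : S4 := (s.1, false)
/-- right child -/
def u1 (s : S4) : S4 := (false, s.2)

/-- A -/
def A4 {E : Type*} [Group E] (a : E) : S4 → E
  | (false, false) => a⁻¹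
  | _ => 1

/-- Z -/
def Z4 {E : Type*} [Group E] (a b : E) : S4 → E
  | (false, false) => a ^ 2 * b⁻¹ * a⁻¹
  | (true, false) => a
  | (_, true) => 1

/-- D -/
def D4 : Subgroup E0 := Subgroup.closure (Set.range (xk e0 e1))

/-- V minus -/
def Vm4 : S4 → Subgroup E0
  | (true, _) => ⊥
  | (false, _) => D4

/-- V plus -/
def Vp4 : S4 → Subgroup E0
  | (_, true) => ⊤
  | (_, false) => D4

lemma D4_conj {v : E0} (hv : v ∈ D4) : e0⁻¹ * v * e0 ∈ D4 := by
  have : D4 ≤ D4.comap (MulAut.conj e0⁻¹).toMonoidHom := by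
    conv_lhs => rw [D4]
    rw [Subgroup.closure_le]
    rintro _ ⟨k, rfl⟩
    show e0⁻¹ * xk e0 e1 k * e0⁻¹⁻¹ ∈ D4
    rw [inv_inv, xk_conj]
    exact Subgroup.subset_closure ⟨k + 1, rfl⟩
  have h := this hv
  have h' : e0⁻¹ * v * e0⁻¹⁻¹ ∈ D4 := h
  rwa [inv_inv] at h'

lemma D4_comm {v : E0} (hv : v ∈ D4) : Commute (e0 ^ 2 * e1⁻¹ * e0⁻¹) v := by
  have h : D4 ≤ Subgroup.centralizer {e0 ^ 2 * e1⁻¹ * e0⁻¹} := by
    rw [D4, Subgroup.closure_le]
    rintro _ ⟨k, rfl⟩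
    show xk e0 e1 k ∈ Subgroup.centralizer {e0 ^ 2 * e1⁻¹ * e0⁻¹}
    rw [Subgroup.mem_centralizer_iff]
    intro y hy
    rw [Set.mem_singleton_iff] at hy
    rw [hy]
    have h1 : e0 * e1⁻¹ * xk e0 e1 (k + 1) = xk e0 e1 (k + 1) * (e0 * e1⁻¹) := comm_e k
    rw [← xk_conj] at h1
    have h2 : e0 * (e0 * e1⁻¹ * (e0⁻¹ * xk e0 e1 k * e0)) * e0⁻¹ =
      e0 * (e0⁻¹ * xk e0 e1 k * e0 * (e0 * e1⁻¹)) * e0⁻¹ := by rw [h1]
    simpa only [pow_two, mul_assoc, mul_inv_cancel_left, mul_inv_cancel, mul_one] using h2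
  have h3 := h hv
  rw [Subgroup.mem_centralizer_iff] at h3
  exact h3 _ rfl

lemma good4 : Good u0 u1 (A4 e0) (Z4 e0 e1) Vm4 Vp4 := by
  refine ⟨?_, ?_, ?_, ?_, ?_, ?_⟩
  · rintro ⟨a, b⟩; cases a <;> rfl
  · rintro ⟨a, b⟩; rfl
  · rintro ⟨a, b⟩; cases b <;> rfl
  · rintro ⟨a, b⟩ v hv
    cases a with
    | true =>
      have : v = 1 := Subgroup.mem_bot.1 hv
      rw [this, mul_one, mul_inv_cancel]; exact Subgroup.one_mem _
    | false =>
      cases b with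
      | true => exact Subgroup.mem_top _
      | false =>
        show e0⁻¹ * v * e0⁻¹⁻¹ ∈ D4
        rw [inv_inv]; exact D4_conj hv
  · rintro ⟨a, b⟩ v hv
    cases a with
    | true =>
      have : v = 1 := Subgroup.mem_bot.1 hv
      rw [this, mul_one, one_mul]
    | false =>
      cases b with
      | true =>
        show 1 * v = v * 1
        rw [mul_one, one_mul]
      | false => exact D4_comm hv
  · rintro ⟨a, b⟩
    cases b with
    | true => exact Subgroup.mem_top _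
    | false =>
      cases a with
      | true =>
        show e0⁻¹ * 1 * e0 * 1⁻¹ ∈ D4
        rw [mul_one, inv_mul_cancel, inv_one, mul_one]; exact D4.one_mem
      | false =>
        show e0⁻¹ * e0⁻¹ * (e0 ^ 2 * e1⁻¹ * e0⁻¹) * e0⁻¹⁻¹ ∈ D4
        have e : e0⁻¹ * e0⁻¹ * (e0 ^ 2 * e1⁻¹ * e0⁻¹) * e0⁻¹⁻¹ = e1⁻¹ := by
          simp only [pow_two, mul_assoc, inv_mul_cancel_left, inv_inv, inv_mul_cancel, mul_one]
        rw [e]
        apply D4.inv_mem
        exact Subgroup.subset_closure ⟨0, by simp [xk]⟩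

/-- colour of a vertex -/
def c4 (v : Vx) : S4 := (decide (v.lo = 0), decide (v.hi = 1))

lemma coloring4 : Coloring F u0 u1 c4 where
  le := le_rfl
  c0 v hv := by
    have h : v.c0.hi ≠ 1 := by
      rw [c0_hi_eq]
      have := v.c1.lo_lt_hi
      rw [c1_hi] at this
      exact (lt_of_lt_of_le this hv.2).ne
    simp only [c4, u0, c0_lo, h, decide_false]
  c1 v hv := by
    have h : v.c1.lo ≠ 0 := by
      rw [← c0_hi_eq]
      have := v.c0.lo_lt_hi
      rw [c0_lo] at this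
      exact (lt_of_le_of_lt hv.1 this).ne'
    simp only [c4, u1, c1_hi, h, decide_false]
  inv g hg v w hv h := by
    have h1 : v.lo = 0 ↔ w.lo = 0 := by
      rw [← h.lo]
      conv_rhs => rw [← F.zero hg le_rfl]
      exact g.injective.eq_iff.symm
    have h2 : v.hi = 1 ↔ w.hi = 1 := by
      rw [← h.hi]
      conv_rhs => rw [← F.one hg le_rfl]
      exact g.injective.eq_iff.symm
    simp only [c4, h1, h2]

/-- target vertices -/
def τ4 : S4 → Vx
  | (false, false) => ⟨2, 2⟩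
  | (true, false) => ⟨1, 0⟩
  | (false, true) => ⟨1, 1⟩
  | (true, true) => ⟨0, 0⟩

end Pool.Agent.ThF
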