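import Pool.Agent.Lib.MP_a06c1e_al.Pres

set_option autoImplicit false

namespace Pool.Agent.ThF
open Vx BT

/-- the scaled standard generator -/
lemma exists_Y {a : ℚ} (ha : Dy a) (ha0 : 0 < a) (ha1 : a ≤ 1) : ∃ y ∈ F,
    (∀ x, 0 ≤ x → x ≤ a / 4 → y x = 2 * x) ∧
    (∀ x, a / 4 ≤ x → x ≤ a / 2 → y x = x + a / 4) ∧
    (∀ x, a / 2 ≤ x → x ≤ a → y x = x / 2 + a / 2) ∧ (∀ x, a ≤ x → y x = x) := by
  have d4 : Dy (a / 4) := by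
    have := Dy.zmul (-2) ha
    rw [zpow_neg] at this
    norm_num at this
    rw [div_eq_mul_inv, mul_comm]; simpa using this
  have d2 : Dy (a / 2) := by
    have := Dy.zmul (-1) ha
    rw [zpow_neg] at this
    norm_num at this
    rw [div_eq_mul_inv, mul_comm]; simpa using this
  have f1 : ∀ x, aff 1 0 x = 2 * x := fun x => by rw [aff_apply]; norm_num
  have f2 : ∀ x, aff 0 (a / 4) x = x + a / 4 := fun x => by rw [aff_apply]; norm_num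
  have f3 : ∀ x, aff (-1) (a / 2) x = x / 2 + a / 2 := fun x => by
    rw [aff_apply, zpow_neg, zpow_one]; ring
  have e1 : (1:Q) 0 = aff 1 0 0 := by rw [f1, mul_zero]; rfl
  obtain ⟨g1, hg1, g1a, g1b⟩ : ∃ g ∈ P, (∀ x, x ≤ 0 → g x = x) ∧ (∀ x, 0 ≤ x → g x = 2 * x) :=
    ⟨glue 1 (aff 1 0) 0 e1, glue_mem_P _ P.one_mem (aff_mem_P _ dy_zero) dy_zero,
      fun x hx => by rw [glue_of_le _ hx]; rfl, fun x hx => by rw [glue_of_ge _ hx, f1]⟩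
  have e2 : g1 (a / 4) = aff 0 (a / 4) (a / 4) := by rw [g1b _ (by linarith), f2]; ring
  obtain ⟨g2, hg2, g2a, g2b⟩ : ∃ g ∈ P, (∀ x, x ≤ a / 4 → g x = g1 x) ∧
      (∀ x, a / 4 ≤ x → g x = x + a / 4) :=
    ⟨glue g1 (aff 0 (a / 4)) (a / 4) e2, glue_mem_P _ hg1 (aff_mem_P _ d4) d4,
      fun x hx => by rw [glue_of_le _ hx], fun x hx => by rw [glue_of_ge _ hx, f2]⟩
  have e3 : g2 (a / 2) = aff (-1) (a / 2) (a / 2) := by rw [g2b _ (by linarith), f3]; ring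
  obtain ⟨g3, hg3, g3a, g3b⟩ : ∃ g ∈ P, (∀ x, x ≤ a / 2 → g x = g2 x) ∧
      (∀ x, a / 2 ≤ x → g x = x / 2 + a / 2) :=
    ⟨glue g2 (aff (-1) (a / 2)) (a / 2) e3, glue_mem_P _ hg2 (aff_mem_P _ d2) d2,
      fun x hx => by rw [glue_of_le _ hx], fun x hx => by rw [glue_of_ge _ hx, f3]⟩
  have e4 : g3 a = (1:Q) a := by rw [g3b _ (by linarith)]; show a / 2 + a / 2 = a; ring
  obtain ⟨g4, hg4, g4a, g4b⟩ : ∃ g ∈ P, (∀ x, x ≤ a → g x = g3 x) ∧ (∀ x, a ≤ x → g x = x) :=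
    ⟨glue g3 1 a e4, glue_mem_P _ hg3 P.one_mem ha,
      fun x hx => by rw [glue_of_le _ hx], fun x hx => by rw [glue_of_ge _ hx]; rfl⟩
  refine ⟨g4, mem_F hg4 (fun x hx => ?_) (fun x hx => g4b x (by linarith)), fun x h0 h1 => ?_,
    fun x h0 h1 => ?_, fun x h0 h1 => ?_, g4b⟩
  · rw [g4a x (by linarith), g3a x (by linarith), g2a x (by linarith), g1a x hx]
  · rw [g4a x (by linarith), g3a x (by linarith), g2a x h1, g1b x h0]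
  · rw [g4a x (by linarith), g3a x h1, g2b x h0]
  · rw [g4a x h1, g3b x h0]

/-- elements of F mapping one standard interval to another -/
lemma exists_lin_F {v w : Vx} (hv : v.In) (hw : w.In) (h0 : v.lo = 0 ↔ w.lo = 0)
    (h1 : v.hi = 1 ↔ w.hi = 1) : ∃ f ∈ F, Lin f v w := by
  obtain ⟨α, hα, hαl⟩ : ∃ α ∈ P, Lin α v w := by
    refine ⟨aff (v.n - w.n) (w.lo - (2:ℚ) ^ (v.n - w.n) * v.lo),
      aff_mem_P _ (w.dy_lo.sub (Dy.zmul _ v.dy_lo)), fun t _ _ => ?_⟩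
    have e : (2:ℚ) ^ (-w.n) = (2:ℚ) ^ (v.n - w.n) * (2:ℚ) ^ (-v.n) := by
      rw [← zpow_add₀ (by norm_num)]; congr 1; ring
    rw [aff_apply]
    simp only [Vx.lo, Vx.pt, e]
    ring
  obtain ⟨f1, hf1, f1a, f1b⟩ : ∃ f ∈ P, (∀ x, x ≤ 0 → f x = x) ∧ f v.lo = w.lo := by
    by_cases h : v.lo = 0
    · exact ⟨1, P.one_mem, fun x _ => rfl, by rw [h, h0.1 h]; rfl⟩
    · have hv0 : 0 < v.lo := lt_of_le_of_ne hv.1 (Ne.symm h)
      have hw0 : 0 < w.lo := lt_of_le_of_ne hw.1 (fun h' => h (h0.2 h'.symm))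
      obtain ⟨g, hg, g0, g1⟩ := exists_P dy_zero v.dy_lo dy_zero w.dy_lo hv0 hw0
      have e : (1:Q) 0 = g 0 := by rw [g0]; rfl
      exact ⟨glue 1 g 0 e, glue_mem_P _ P.one_mem hg dy_zero,
        fun x hx => by rw [glue_of_le _ hx]; rfl, by rw [glue_of_ge _ hv0.le, g1]⟩
  obtain ⟨f2, hf2, f2a, f2b⟩ : ∃ f ∈ P, (∀ x, 1 ≤ x → f x = x) ∧ f v.hi = w.hi := by
    by_cases h : v.hi = 1
    · exact ⟨1, P.one_mem, fun x _ => rfl, by rw [h, h1.1 h]; rfl⟩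
    · have hv0 : v.hi < 1 := lt_of_le_of_ne hv.2 h
      have hw0 : w.hi < 1 := lt_of_le_of_ne hw.2 (fun h' => h (h1.2 h'))
      obtain ⟨g, hg, g0, g1⟩ := exists_P v.dy_hi dy_one w.dy_hi dy_one hv0 hw0
      have e : g 1 = (1:Q) 1 := by rw [g1]; rfl
      exact ⟨glue g 1 1 e, glue_mem_P _ hg P.one_mem dy_one,
        fun x hx => by rw [glue_of_ge _ hx]; rfl, by rw [glue_of_le _ hv0.le, g0]⟩
  have e1 : f1 v.lo = α v.lo := by rw [f1b, hαl.lo]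
  have e2 : (glue f1 α v.lo e1) v.hi = f2 v.hi := by
    rw [glue_of_ge _ v.lo_lt_hi.le, hαl.hi, f2b]
  refine ⟨glue (glue f1 α v.lo e1) f2 v.hi e2, mem_F (glue_mem_P _ (glue_mem_P _ hf1 hα v.dy_lo)
    hf2 v.dy_hi) (fun x hx => ?_) (fun x hx => ?_), fun t ht0 ht1 => ?_⟩
  · have h3 : x ≤ v.lo := hx.trans hv.1
    rw [glue_of_le _ (h3.trans v.lo_lt_hi.le), glue_of_le _ h3, f1a x hx]
  · rw [glue_of_ge _ (hv.2.trans hx), f2a x hx]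
  · have h3 : v.pt t ≤ v.hi := v.pt_le_pt.2 ht1
    have h4 : v.lo ≤ v.pt t := v.pt_le_pt.2 ht0
    rw [glue_of_le _ h3, glue_of_ge _ h4, hαl t ht0 ht1]

lemma τ4_in (s : S4) : (τ4 s).In := by
  rcases s with ⟨a, b⟩
  cases a <;> cases b <;> simp only [τ4, Vx.In, Vx.lo, Vx.hi, Vx.pt] <;> norm_num

lemma τ4_lo (s : S4) : (τ4 s).lo = if s.1 then 0 else 1/2 := by
  rcases s with ⟨a, b⟩
  cases a <;> cases b <;> simp only [τ4, Vx.lo, Vx.pt] <;> norm_num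

lemma τ4_hi (s : S4) : (τ4 s).hi = if s.2 then 1 else if s.1 then 1/2 else 3/4 := by
  rcases s with ⟨a, b⟩
  cases a <;> cases b <;> simp only [τ4, Vx.hi, Vx.pt] <;> norm_num

lemma exists_K4 (v : Vx) : ∃ f ∈ F, v.In → Lin f v (τ4 (c4 v)) := by
  by_cases hv : v.In
  · obtain ⟨f, hf, h⟩ := exists_lin_F hv (τ4_in (c4 v)) (by
      rw [τ4_lo]
      simp only [c4, decide_eq_true_eq]
      split_ifs with h <;> simp [h]) (by
      rw [τ4_hi]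
      simp only [c4, decide_eq_true_eq]
      split_ifs with h h' <;> simp [h] <;> norm_num)
    exact ⟨f, hf, fun _ => h⟩
  · exact ⟨1, F.one_mem, fun h => absurd h hv⟩

/-- the data of the two generators -/
structure Gens (y0 y1 : Q) : Prop where
  m0 : y0 ∈ F
  m1 : y1 ∈ F
  a1 : ∀ x, 0 ≤ x → x ≤ 1 / 4 → y0 x = 2 * x
  a2 : ∀ x, 1 / 4 ≤ x → x ≤ 1 / 2 → y0 x = x + 1 / 4
  a3 : ∀ x, 1 / 2 ≤ x → x ≤ 1 → y0 x = x / 2 + 1 / 2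
  b1 : ∀ x, 0 ≤ x → x ≤ 1 / 8 → y1 x = 2 * x
  b2 : ∀ x, 1 / 8 ≤ x → x ≤ 1 / 4 → y1 x = x + 1 / 8
  b3 : ∀ x, 1 / 4 ≤ x → x ≤ 1 / 2 → y1 x = x / 2 + 1 / 4
  b4 : ∀ x, 1 / 2 ≤ x → y1 x = x

lemma exists_gens : ∃ y0 y1, Gens y0 y1 := by
  obtain ⟨y0, m0, a1, a2, a3, a4⟩ := exists_Y dy_one one_pos le_rfl
  have dh : Dy (1/2) := by
    have := dy_zpow (-1)
    rwa [zpow_neg, zpow_one, ← one_div] at this
  obtain ⟨y1, m1, b1, b2, b3, b4⟩ := exists_Y dh (by norm_num) (by norm_num)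
  norm_num at b1 b2 b3 b4
  refine ⟨y0, y1, m0, m1, a1, a2, ?_, ?_, ?_, ?_, ?_⟩
  · intro x h1 h2; rw [a3 x (by linarith) h2]
  · intro x h1 h2; exact b1 x h1 (by linarith)
  · intro x h1 h2; rw [b2 x (by linarith) (by linarith)]
  · intro x h1 h2; rw [b3 x (by linarith) (by linarith)]
  · intro x h1; exact b4 x (by linarith)

section
variable {y0 y1 : Q}

lemma Gens.i1 (h : Gens y0 y1) {x : ℚ} (h0 : 0 ≤ x) (h1 : x ≤ 1 / 2) : y0⁻¹ x = x / 2 := by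
  apply inv_of_eq; rw [h.a1 _ (by linarith) (by linarith)]; ring
lemma Gens.i2 (h : Gens y0 y1) {x : ℚ} (h0 : 1 / 2 ≤ x) (h1 : x ≤ 3 / 4) : y0⁻¹ x = x - 1 / 4 := by
  apply inv_of_eq; rw [h.a2 _ (by linarith) (by linarith)]; ring
lemma Gens.i3 (h : Gens y0 y1) {x : ℚ} (h0 : 3 / 4 ≤ x) (h1 : x ≤ 1) : y0⁻¹ x = 2 * x - 1 := by
  apply inv_of_eq; rw [h.a3 _ (by linarith) (by linarith)]; ring
lemma Gens.j1 (h : Gens y0 y1) {x : ℚ} (h0 : 0 ≤ x) (h1 : x ≤ 1 / 4) : y1⁻¹ x = x / 2 := by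
  apply inv_of_eq; rw [h.b1 _ (by linarith) (by linarith)]; ring
lemma Gens.j2 (h : Gens y0 y1) {x : ℚ} (h0 : 1 / 4 ≤ x) (h1 : x ≤ 3 / 8) : y1⁻¹ x = x - 1 / 8 := by
  apply inv_of_eq; rw [h.b2 _ (by linarith) (by linarith)]; ring
lemma Gens.j3 (h : Gens y0 y1) {x : ℚ} (h0 : 3 / 8 ≤ x) (h1 : x ≤ 1 / 2) :
    y1⁻¹ x = 2 * x - 1 / 2 := by
  apply inv_of_eq; rw [h.b3 _ (by linarith) (by linarith)]; ring
lemma Gens.j4 (h : Gens y0 y1) {x : ℚ} (h0 : 1 / 2 ≤ x) : y1⁻¹ x = x := inv_of_eq (h.b4 x h0)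

end

end Pool.Agent.ThF
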