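import Pool.Agent.Lib.MP_a06c1e_al.Pres2

set_option autoImplicit false

namespace Pool.Agent.ThF
open Vx BT

section
variable {y0 y1 : Q}

lemma pt_m (t : ℚ) : (τ4 (false, false)).pt t = 1 / 2 + t / 4 := by
  simp only [τ4, Vx.pt]; norm_num; ring
lemma pt_l (t : ℚ) : (τ4 (true, false)).pt t = t / 2 := by
  simp only [τ4, Vx.pt]; norm_num; ring
lemma pt_r (t : ℚ) : (τ4 (false, true)).pt t = 1 / 2 + t / 2 := by
  simp only [τ4, Vx.pt]; norm_num; ring
lemma pt_i (t : ℚ) : (τ4 (true, true)).pt t = t := by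
  simp only [τ4, Vx.pt]; norm_num

lemma Gens.L0 (h : Gens y0 y1) (s : S4) : Lin (Z4 y0 y1 s) (τ4 s).c0 (τ4 (u0 s)) := by
  rcases s with ⟨a, b⟩
  intro t h0 h1
  rw [pt_c0]
  cases a with
  | true =>
    cases b with
    | true =>
      show (1:Q) ((τ4 (true, true)).pt (t / 2)) = (τ4 (true, false)).pt t
      rw [pt_i, pt_l]; rfl
    | false =>
      show y0 ((τ4 (true, false)).pt (t / 2)) = (τ4 (true, false)).pt t
      rw [pt_l, pt_l, h.a1 _ (by linarith) (by linarith)]; ring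
  | false =>
    cases b with
    | true =>
      show (1:Q) ((τ4 (false, true)).pt (t / 2)) = (τ4 (false, false)).pt t
      rw [pt_r, pt_m]
      show 1 / 2 + t / 2 / 2 = _
      ring
    | false =>
      show (y0 ^ 2 * y1⁻¹ * y0⁻¹) ((τ4 (false, false)).pt (t / 2)) = (τ4 (false, false)).pt t
      rw [pow_two, RelIso.mul_apply, RelIso.mul_apply, RelIso.mul_apply, pt_m, pt_m,
        h.i2 (by linarith) (by linarith), h.j2 (by linarith) (by linarith),
        h.a1 (1 / 2 + t / 2 / 4 - 1 / 4 - 1 / 8) (by linarith) (by linarith),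
        h.a2 _ (by linarith) (by linarith)]
      ring

lemma Gens.L1 (h : Gens y0 y1) (s : S4) :
    Lin (A4 y0 (u0 s) * Z4 y0 y1 s) (τ4 s).c1 (τ4 (u1 s)) := by
  rcases s with ⟨a, b⟩
  intro t h0 h1
  rw [pt_c1]
  cases a with
  | true =>
    cases b with
    | true =>
      show ((1:Q) * (1:Q)) ((τ4 (true, true)).pt ((1 + t) / 2)) = (τ4 (false, true)).pt t
      rw [pt_i, pt_r, mul_one]
      show (1 + t) / 2 = _
      ring
    | false =>
      show ((1:Q) * y0) ((τ4 (true, false)).pt ((1 + t) / 2)) = (τ4 (false, false)).pt t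
      rw [pt_l, pt_m, one_mul, h.a2 _ (by linarith) (by linarith)]; ring
  | false =>
    cases b with
    | true =>
      show (y0⁻¹ * (1:Q)) ((τ4 (false, true)).pt ((1 + t) / 2)) = (τ4 (false, true)).pt t
      rw [pt_r, pt_r, mul_one, h.i3 (by linarith) (by linarith)]
      ring
    | false =>
      show (y0⁻¹ * (y0 ^ 2 * y1⁻¹ * y0⁻¹)) ((τ4 (false, false)).pt ((1 + t) / 2)) =
        (τ4 (false, false)).pt t
      rw [show y0⁻¹ * (y0 ^ 2 * y1⁻¹ * y0⁻¹) = y0 * y1⁻¹ * y0⁻¹ by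
        simp only [pow_two, mul_assoc, inv_mul_cancel_left], RelIso.mul_apply, RelIso.mul_apply,
        pt_m, pt_m, h.i2 (by linarith) (by linarith), h.j3 (by linarith) (by linarith),
        h.a2 _ (by linarith) (by linarith)]
      ring

/-- right base point -/
lemma Gens.hb (h : Gens y0 y1) (s : S4) : A4 y0 s (τ4 s).hi = if s.2 then 1 else 1 / 2 := by
  rcases s with ⟨a, b⟩
  rw [τ4_hi]
  cases a <;> cases b
  · show y0⁻¹ (3/4) = 1/2
    rw [h.i2 (by norm_num) (by norm_num)]; norm_num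
  · rfl
  · rfl
  · rfl

lemma A4_mem (h : Gens y0 y1) (s : S4) : A4 y0 s ∈ F := by
  rcases s with ⟨a, b⟩
  cases a <;> cases b
  · exact F.inv_mem h.m0
  · exact F.one_mem
  · exact F.one_mem
  · exact F.one_mem

lemma Z4_mem (h : Gens y0 y1) (s : S4) : Z4 y0 y1 s ∈ F := by
  rcases s with ⟨a, b⟩
  cases a <;> cases b
  · exact F.mul_mem (F.mul_mem (F.pow_mem h.m0 2) (F.inv_mem h.m1)) (F.inv_mem h.m0)
  · exact F.one_mem
  · exact h.m0
  · exact F.one_mem

lemma Z4_low (h : Gens y0 y1) (s : S4) {x : ℚ} (hx : x ≤ (τ4 s).lo) : Z4 y0 y1 s x = x := by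
  rcases lt_or_ge x 0 with h0 | h0
  · exact F.zero (Z4_mem h s) h0.le
  · rcases s with ⟨a, b⟩
    rw [τ4_lo] at hx
    cases a with
    | true =>
      have : x = 0 := le_antisymm hx h0
      rw [this]
      exact F.zero (Z4_mem h _) le_rfl
    | false =>
      have hx' : x ≤ 1 / 2 := hx
      cases b with
      | true => rfl
      | false =>
        show (y0 ^ 2 * y1⁻¹ * y0⁻¹) x = x
        rw [pow_two, RelIso.mul_apply, RelIso.mul_apply, RelIso.mul_apply,
          h.i1 h0 hx', h.j1 (by linarith) (by linarith),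
          h.a1 (x / 2 / 2) (by linarith) (by linarith),
          h.a1 (2 * (x / 2 / 2)) (by linarith) (by linarith)]
        ring

lemma mp4 (h : Gens y0 y1) (s : S4) {x : ℚ} (hx : A4 y0 s (τ4 s).hi ≤ x) :
    A4 y0 (u1 s) (A4 y0 (u0 s) (Z4 y0 y1 s ((A4 y0 s)⁻¹ x))) = x := by
  rcases lt_or_ge x 1 with h1 | h1
  · rcases s with ⟨a, b⟩
    rw [h.hb] at hx
    cases b with
    | true =>
      have : (1:ℚ) ≤ x := hx
      linarith
    | false =>
      have hx' : 1 / 2 ≤ x := hx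
      cases a with
      | true =>
        show y0⁻¹ ((1:Q) (y0 ((1:Q)⁻¹ x))) = x
        rw [inv_one]
        exact RelIso.inv_apply_self _ _
      | false =>
        show y0⁻¹ (y0⁻¹ ((y0 ^ 2 * y1⁻¹ * y0⁻¹) (y0⁻¹⁻¹ x))) = x
        rw [pow_two, RelIso.mul_apply, RelIso.mul_apply, RelIso.mul_apply, RelIso.inv_apply_self,
          RelIso.inv_apply_self, inv_inv, RelIso.inv_apply_self, h.j4 hx']
  · have e : A4 y0 (u1 s) (A4 y0 (u0 s) (Z4 y0 y1 s ((A4 y0 s)⁻¹ x))) =
      (A4 y0 (u1 s) * A4 y0 (u0 s) * Z4 y0 y1 s * (A4 y0 s)⁻¹) x := rfl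
    rw [e]
    exact F.one (F.mul_mem (F.mul_mem (F.mul_mem (A4_mem h _) (A4_mem h _)) (Z4_mem h _))
      (F.inv_mem (A4_mem h _))) h1

theorem conc4 (h : Gens y0 y1) : ∃ H K : Vx → Q, K root = 1 ∧
    Conc F c4 (A4 y0) (Z4 y0 y1) H K := by
  choose K hKF hK using exists_K4
  have hr : K root = 1 := by
    have hl := hK root root_in
    have e : τ4 (c4 root) = root := by
      rw [c4, root_lo, root_hi]; rfl
    rw [e] at hl
    ext x
    rcases lt_or_ge x 0 with h0 | h0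
    · exact F.zero (hKF root) h0.le
    · rcases le_total x 1 with h1 | h1
      · have e2 : root.pt x = x := by simp [root, Vx.pt]
        have := hl x h0 h1
        rwa [e2] at this
      · exact F.one (hKF root) h1
  refine ⟨fun v => A4 y0 (c4 v) * K v, K, hr, ?_⟩
  have cc := coloring4
  have hKlo : ∀ v : Vx, v.In → K v v.lo = (τ4 (c4 v)).lo := fun v hv => (hK v hv).lo
  have hKhi : ∀ v : Vx, v.In → K v v.hi = (τ4 (c4 v)).hi := fun v hv => (hK v hv).hi
  exact {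
    hHK := fun v _ => rfl
    hinv := fun g hg v w hv hl x hx => by
      obtain ⟨t, h0, h1, rfl⟩ := (v.mem_iff x).1 hx
      rw [hl t h0 h1, hK w (hl.in hg hv) t h0 h1, hK v hv t h0 h1, cc.inv g hg v w hv hl]
    hZ0 := fun v hv x hx => by
      obtain ⟨t, h0, h1, rfl⟩ := (v.c0.mem_iff x).1 hx
      rw [(hK v hv).c0 t h0 h1, h.L0 _ t h0 h1, hK v.c0 hv.c0 t h0 h1, cc.c0 v hv]
    hZ1 := fun v hv x hx => by
      obtain ⟨t, h0, h1, rfl⟩ := (v.c1.mem_iff x).1 hx
      have e := h.L1 (c4 v) t h0 h1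
      rw [RelIso.mul_apply] at e
      rw [(hK v hv).c1 t h0 h1, cc.c0 v hv, e, hK v.c1 hv.c1 t h0 h1, cc.c1 v hv]
    b1 := fun v hv => by
      rw [RelIso.mul_apply, hKhi _ hv.c0, hKlo _ hv.c1, h.hb, τ4_lo, cc.c0 v hv, cc.c1 v hv]; rfl
    b2 := fun v hv => by
      rw [hKlo _ hv.c0, hKlo _ hv, cc.c0 v hv, τ4_lo, τ4_lo]; rfl
    b3 := fun v hv => by
      rw [RelIso.mul_apply, RelIso.mul_apply, hKhi _ hv.c1, hKhi _ hv, h.hb, h.hb, cc.c1 v hv]; rfl
    zm := fun v hv x hx => by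
      rw [hKlo v hv] at hx
      exact Z4_low h _ hx
    mp := fun v hv x hx => by
      rw [RelIso.mul_apply, hKhi v hv] at hx
      rw [cc.c0 v hv, cc.c1 v hv]
      exact mp4 h _ hx
    AF := A4_mem h
    ZF := Z4_mem h
    KF := hKF root }

end

lemma c4_root : c4 root = (true, true) := by rw [c4, root_lo, root_hi]; rfl

/-- the isomorphism between the presented group and F -/
theorem iso_F : Nonempty (E0 ≃* F) := by
  obtain ⟨y0, y1, h⟩ := exists_gens
  obtain ⟨H, K, hK, C⟩ := conc4 h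
  obtain ⟨σ, hσ⟩ := exists_hom good4 coloring4
  -- the map π
  let q : Fin 2 → F := ![⟨y0, h.m0⟩, ⟨y1, h.m1⟩]
  have q0 : ((q 0 : F) : Q) = y0 := rfl
  have q1 : ((q 1 : F) : Q) = y1 := rfl
  have low : ∀ x : ℚ, x ≤ 0 → y0 x = x ∧ y1 x = x ∧ y0⁻¹ x = x ∧ y1⁻¹ x = x := fun x hx =>
    ⟨F.zero h.m0 hx, F.zero h.m1 hx, inv_of_eq (F.zero h.m0 hx), inv_of_eq (F.zero h.m1 hx)⟩
  -- y0 y1⁻¹ is trivial on (-∞, 1/4]
  have t1 : ∀ x : ℚ, x ≤ 1 / 4 → (y0 * y1⁻¹) x = x := by
    intro x hx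
    rw [RelIso.mul_apply]
    rcases lt_or_ge x 0 with h0 | h0
    · rw [(low x h0.le).2.2.2, (low x h0.le).1]
    · rw [h.j1 h0 hx, h.a1 _ (by linarith) (by linarith)]; ring
  -- conjugates of y1 are trivial on [1/4, ∞)
  have t2 : ∀ x : ℚ, 1 / 4 ≤ x → (y0⁻¹ * y1 * y0) x = x := by
    intro x hx
    rw [RelIso.mul_apply, RelIso.mul_apply]
    have : 1 / 2 ≤ y0 x := by
      have := y0.monotone hx
      rw [h.a1 _ (by norm_num) (by norm_num)] at this
      linarith
    rw [h.b4 _ this, RelIso.inv_apply_self]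
  have t3 : ∀ x : ℚ, 1 / 4 ≤ x → ((y0 ^ 2)⁻¹ * y1 * y0 ^ 2) x = x := by
    intro x hx
    rw [pow_two, mul_inv_rev]
    have e : (y0⁻¹ * y0⁻¹ * y1 * (y0 * y0)) x = y0⁻¹ ((y0⁻¹ * y1 * y0) (y0 x)) := rfl
    rw [e, t2, RelIso.inv_apply_self]
    have := y0.monotone hx
    rw [h.a1 _ (by norm_num) (by norm_num)] at this
    linarith
  have comm : ∀ f g : Q, (∀ x : ℚ, x ≤ 1 / 4 → f x = x) → (∀ x : ℚ, 1 / 4 ≤ x → g x = x) →
      f * g = g * f := by
    intro f g hf hg
    ext x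
    rw [RelIso.mul_apply, RelIso.mul_apply]
    rcases le_total x (1/4) with hx | hx
    · have h1 : g x ≤ 1 / 4 := by rw [← hg (1/4) le_rfl]; exact g.monotone hx
      rw [hf _ h1, hf _ hx]
    · have h1 : 1 / 4 ≤ f x := by rw [← hf (1/4) le_rfl]; exact f.monotone hx
      rw [hg _ h1, hg _ hx]
  have hrel : ∀ r ∈ R0, FreeGroup.lift q r = 1 := by
    rintro r (rfl | rfl)
    · simp only [map_mul, map_inv, FreeGroup.lift_apply_of]
      apply Subtype.ext
      simp only [Subgroup.coe_mul, Subgroup.coe_inv, Subgroup.coe_one, q0, q1]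
      rw [comm _ _ t1 t2, mul_inv_cancel_right, mul_inv_cancel]
    · simp only [map_mul, map_inv, map_pow, FreeGroup.lift_apply_of]
      apply Subtype.ext
      simp only [Subgroup.coe_mul, Subgroup.coe_inv, Subgroup.coe_one, Subgroup.coe_pow, q0, q1]
      rw [comm _ _ t1 t3, mul_inv_cancel_right, mul_inv_cancel]
  let π : E0 →* F := PresentedGroup.toGroup (f := q) hrel
  have π0 : π e0 = ⟨y0, h.m0⟩ := PresentedGroup.toGroup.of hrel
  have π1 : π e1 = ⟨y1, h.m1⟩ := PresentedGroup.toGroup.of hrel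
  -- π σ = id
  have hA : (fun s => ((π (A4 e0 s) : F) : Q)) = A4 y0 := by
    funext s
    rcases s with ⟨a, b⟩
    cases a <;> cases b
    · show ((π e0⁻¹ : F) : Q) = y0⁻¹
      rw [map_inv, π0]; rfl
    · show ((π 1 : F) : Q) = 1
      rw [map_one]; rfl
    · show ((π 1 : F) : Q) = 1
      rw [map_one]; rfl
    · show ((π 1 : F) : Q) = 1
      rw [map_one]; rfl
  have hZ : (fun s => ((π (Z4 e0 e1 s) : F) : Q)) = Z4 y0 y1 := by
    funext s
    rcases s with ⟨a, b⟩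
    cases a <;> cases b
    · show ((π (e0 ^ 2 * e1⁻¹ * e0⁻¹) : F) : Q) = y0 ^ 2 * y1⁻¹ * y0⁻¹
      rw [map_mul, map_mul, map_pow, map_inv, map_inv, π0, π1]; rfl
    · show ((π 1 : F) : Q) = 1
      rw [map_one]; rfl
    · show ((π e0 : F) : Q) = y0
      rw [π0]
    · show ((π 1 : F) : Q) = 1
      rw [map_one]; rfl
  have h1 : ∀ g : F, π (σ g) = g := by
    intro g
    obtain ⟨T, T', hT⟩ := exists_maps g.2
    have k1 := C.main coloring4 g.2 hT
    rw [hK, one_mul, inv_one, mul_one] at k1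
    apply Subtype.ext
    rw [hσ g T T' hT, ← k1]
    have k2 := map_tv u0 u1 (A4 e0) (Z4 e0 e1) (F.subtype.comp π) c4 T T'
    have k3 : (F.subtype.comp π) (tv u0 u1 (A4 e0) (Z4 e0 e1) c4 T T') =
      tv u0 u1 (fun s => ((π (A4 e0 s) : F) : Q)) (fun s => ((π (Z4 e0 e1 s) : F) : Q)) c4 T T' := k2
    rw [hA, hZ] at k3
    exact k3
  -- σ of the generators
  have lin0 : Maps y0⁻¹ (nd lf (nd lf lf)) (nd (nd lf lf) lf) := by
    rw [Maps]
    simp only [leaves, List.cons_append, List.nil_append]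
    refine List.Forall₂.cons (fun t h0 h1 => ?_) (List.Forall₂.cons (fun t h0 h1 => ?_)
      (List.Forall₂.cons (fun t h0 h1 => ?_) List.Forall₂.nil))
    · simp only [root, Vx.c0, Vx.c1, Vx.pt]
      norm_num
      rw [h.i1 (by linarith) (by linarith)]; ring
    · simp only [root, Vx.c0, Vx.c1, Vx.pt]
      norm_num
      rw [h.i2 (by linarith) (by linarith)]; ring
    · simp only [root, Vx.c0, Vx.c1, Vx.pt]
      norm_num
      rw [h.i3 (by linarith) (by linarith)]; ring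
  have lin1 : Maps y1⁻¹ (nd (nd lf (nd lf lf)) lf) (nd (nd (nd lf lf) lf) lf) := by
    rw [Maps]
    simp only [leaves, List.cons_append, List.nil_append]
    refine List.Forall₂.cons (fun t h0 h1 => ?_) (List.Forall₂.cons (fun t h0 h1 => ?_)
      (List.Forall₂.cons (fun t h0 h1 => ?_) (List.Forall₂.cons (fun t h0 h1 => ?_)
      List.Forall₂.nil)))
    · simp only [root, Vx.c0, Vx.c1, Vx.pt]
      norm_num
      rw [h.j1 (by linarith) (by linarith)]; ring
    · simp only [root, Vx.c0, Vx.c1, Vx.pt]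
      norm_num
      rw [h.j2 (by linarith) (by linarith)]; ring
    · simp only [root, Vx.c0, Vx.c1, Vx.pt]
      norm_num
      rw [h.j3 (by linarith) (by linarith)]; ring
    · simp only [root, Vx.c0, Vx.c1, Vx.pt]
      norm_num
      rw [h.j4 (by linarith)]
  have s0 : σ ⟨y0, h.m0⟩ = e0 := by
    have e : σ (⟨y0, h.m0⟩ : F)⁻¹ = e0⁻¹ := by
      rw [hσ _ _ _ lin0, tv, c4_root]
      show ((1:E0) * (e0⁻¹ * 1 * e0) * 1)⁻¹ * ((1 * e0⁻¹ * 1) * 1 * 1) = e0⁻¹
      simp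
    rw [map_inv] at e
    exact inv_injective e
  have s1 : σ ⟨y1, h.m1⟩ = e1 := by
    have e : σ (⟨y1, h.m1⟩ : F)⁻¹ = e1⁻¹ := by
      rw [hσ _ _ _ lin1, tv, c4_root]
      show ((1:E0) * (e0⁻¹ * (e0⁻¹ * 1 * e0) * e0) * 1)⁻¹ *
        (1 * ((e0⁻¹ * e0⁻¹ * (e0 ^ 2 * e1⁻¹ * e0⁻¹)) * 1 * e0) * 1) = e1⁻¹
      simp [pow_two, mul_assoc]
    rw [map_inv] at e
    exact inv_injective e
  have h2 : ∀ x : E0, σ (π x) = x := by
    intro x
    have : σ.comp π = MonoidHom.id E0 := by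
      apply PresentedGroup.ext
      intro i
      fin_cases i
      · show σ (π e0) = e0
        rw [π0, s0]
      · show σ (π e1) = e1
        rw [π1, s1]
    exact DFunLike.congr_fun this x
  exact ⟨{ toFun := π, invFun := σ, left_inv := h2, right_inv := h1, map_mul' := map_mul π }⟩

end Pool.Agent.ThF
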