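import Pool.Agent.Lib.MP_a06c1e_al.Orbits

set_option autoImplicit false

namespace Pool.Agent.ThF
open Vx

/-- finite binary trees -/
inductive BT : Type
  | lf : BT
  | nd : BT → BT → BT

namespace BT

/-- number of leaves -/
def nl : BT → ℕ
  | lf => 1
  | nd a b => nl a + nl b

lemma nl_pos : ∀ T : BT, 0 < nl T
  | lf => Nat.one_pos
  | nd a _ => Nat.add_pos_left (nl_pos a) _

/-- depth -/
def dp : BT → ℕ
  | lf => 0
  | nd a b => max (dp a) (dp b) + 1

/-- full binary tree -/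
def full : ℕ → BT
  | 0 => lf
  | k + 1 => nd (full k) (full k)

/-- graft trees on the leaves -/
def graft : BT → List BT → BT
  | lf, Fs => Fs.headD lf
  | nd a b, Fs => nd (graft a (Fs.take (nl a))) (graft b (Fs.drop (nl a)))

lemma exists_graft_full : ∀ (T : BT) (K : ℕ), dp T ≤ K → ∃ Fs : List BT, Fs.length = nl T ∧
    graft T Fs = full K
  | lf, K, _ => ⟨[full K], rfl, rfl⟩
  | nd a b, 0, h => by simp [dp] at h
  | nd a b, K + 1, h => by
    simp only [dp, add_le_add_iff_right, max_le_iff] at h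
    obtain ⟨Fa, ha, ha'⟩ := exists_graft_full a K h.1
    obtain ⟨Fb, hb, hb'⟩ := exists_graft_full b K h.2
    refine ⟨Fa ++ Fb, by rw [List.length_append, ha, hb]; rfl, ?_⟩
    rw [graft, full]
    congr 1
    · rw [List.take_left' ha, ha']
    · rw [List.drop_left' ha, hb']

end BT

open BT

/-- list of leaves of a tree placed at a vertex -/
def leaves : Vx → BT → List Vx
  | v, lf => [v]
  | v, nd a b => leaves v.c0 a ++ leaves v.c1 b

lemma length_leaves : ∀ (T : BT) (v : Vx), (leaves v T).length = nl T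
  | lf, v => rfl
  | nd a b, v => by rw [leaves, List.length_append, length_leaves, length_leaves]; rfl

/-- chains of consecutive intervals -/
def Chn : ℚ → List Vx → ℚ → Prop
  | a, [], b => a = b
  | a, w :: L, b => w.lo = a ∧ Chn w.hi L b

lemma Chn.append : ∀ {L L' : List Vx} {a b c : ℚ}, Chn a L b → Chn b L' c → Chn a (L ++ L') c
  | [], L', a, b, c, h, h' => by
    have : a = b := h
    rw [this]; exact h'
  | w :: L, L', a, b, c, h, h' => ⟨h.1, Chn.append h.2 h'⟩

lemma leaves_chain : ∀ (T : BT) (v : Vx), Chn v.lo (leaves v T) v.hi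
  | lf, v => ⟨rfl, rfl⟩
  | nd a b, v => by
    have h1 := leaves_chain a v.c0
    have h2 := leaves_chain b v.c1
    rw [c0_lo, c0_hi_eq] at h1
    rw [c1_hi] at h2
    exact h1.append h2

lemma Chn.le : ∀ {L : List Vx} {a b : ℚ}, Chn a L b → a ≤ b
  | [], a, b, h => le_of_eq h
  | w :: L, a, b, h => by
    obtain ⟨h1, h2⟩ := h
    rw [← h1]
    exact w.lo_lt_hi.le.trans h2.le

lemma Chn.bounds : ∀ {L : List Vx} {a b : ℚ}, Chn a L b → ∀ w ∈ L, a ≤ w.lo ∧ w.hi ≤ b
  | [], a, b, h => by simp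
  | w :: L, a, b, h => by
    obtain ⟨h1, h2⟩ := h
    intro u hu
    rcases List.mem_cons.1 hu with rfl | hu
    · exact ⟨h1.ge, h2.le⟩
    · have := h2.bounds u hu
      exact ⟨h1 ▸ w.lo_lt_hi.le.trans this.1, this.2⟩

lemma Chn.exists_mem : ∀ {L : List Vx} {a b : ℚ}, Chn a L b → ∀ x, a ≤ x → x < b →
    ∃ w ∈ L, w.lo ≤ x ∧ x < w.hi
  | [], a, b, h => by
    intro x h1 h2
    have : a = b := h
    linarith
  | w :: L, a, b, h => by
    obtain ⟨h1, h2⟩ := h
    intro x h3 h4
    rcases lt_or_ge x w.hi with h5 | h5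
    · exact ⟨w, List.mem_cons_self, by rw [h1]; exact h3, h5⟩
    · obtain ⟨u, hu, h6⟩ := h2.exists_mem x h5 h4
      exact ⟨u, List.mem_cons_of_mem _ hu, h6⟩

lemma Chn.split : ∀ {L : List Vx} {a b m : ℚ}, Chn a L b → a ≤ m → m ≤ b →
    (∀ w ∈ L, w.hi ≤ m ∨ m ≤ w.lo) → ∃ L0 L1, L = L0 ++ L1 ∧ Chn a L0 m ∧ Chn m L1 b
  | [], a, b, m, h, h1, h2, _ => by
    have : a = b := h
    have : a = m := le_antisymm h1 (by linarith)
    exact ⟨[], [], rfl, this, le_antisymm h2 (by linarith)⟩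
  | w :: L, a, b, m, h, h1, h2, h3 => by
    obtain ⟨h4, h5⟩ := h
    rcases h3 w List.mem_cons_self with h6 | h6
    · obtain ⟨L0, L1, e, h7, h8⟩ := h5.split h6 h2 (fun u hu => h3 u (List.mem_cons_of_mem _ hu))
      exact ⟨w :: L0, L1, by rw [e]; rfl, ⟨h4, h7⟩, h8⟩
    · have : a = m := le_antisymm h1 (by rw [← h4]; exact h6)
      exact ⟨[], w :: L, rfl, this, ⟨by rw [h4, this], h5⟩⟩

lemma Chn.nil_of_eq {L : List Vx} {a : ℚ} (h : Chn a L a) : L = [] := by
  cases L with
  | nil => rfl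
  | cons w L =>
    exfalso
    obtain ⟨h1, h2⟩ := h
    have := h2.le
    have := w.lo_lt_hi
    linarith

lemma vx_len_le {v w : Vx} (h : w.n ≤ v.n) : v.hi - v.lo ≤ w.hi - w.lo := by
  rw [hi_sub_lo, hi_sub_lo]
  exact zpow_le_zpow_right₀ (by norm_num) (by linarith)

/-- a subdivision by standard intervals is a tree -/
lemma exists_tree : ∀ (d : ℕ) (u : Vx) (L : List Vx), Chn u.lo L u.hi →
    (∀ w ∈ L, w.n ≤ u.n + d) → ∃ T, leaves u T = L := by
  intro d
  have single : ∀ (u : Vx) (L : List Vx), Chn u.lo L u.hi → (∃ w ∈ L, w.n ≤ u.n) → L = [u] := by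
    intro u L hL ⟨w, hw, hwn⟩
    have h1 := hL.bounds w hw
    have h2 := vx_len_le hwn
    have hwu : w = u := Vx.eq_of_lo_hi (by linarith) (by linarith)
    obtain ⟨L0, L1, rfl⟩ := List.append_of_mem hw
    rw [hwu] at hL ⊢
    -- L0 and L1 are empty
    have key : ∀ (L0 : List Vx) (a : ℚ), Chn a (L0 ++ u :: L1) u.hi → u.lo ≤ a → L0 = [] ∧ L1 = [] := by
      intro L0
      cases L0 with
      | nil =>
        intro a h _
        obtain ⟨-, h3⟩ := h
        exact ⟨rfl, h3.nil_of_eq⟩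
      | cons x L0 =>
        intro a h ha
        exfalso
        obtain ⟨h3, h4⟩ := h
        have h5 := h4.bounds u (by simp)
        have := x.lo_lt_hi
        linarith
    obtain ⟨e0, e1⟩ := key L0 _ hL le_rfl
    rw [e0, e1]; rfl
  induction d with
  | zero =>
    intro u L hL hd
    refine ⟨lf, ?_⟩
    symm
    apply single u L hL
    cases L with
    | nil =>
      exfalso
      have : u.lo = u.hi := hL
      have := u.lo_lt_hi
      linarith
    | cons w L => exact ⟨w, List.mem_cons_self, by simpa using hd w List.mem_cons_self⟩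
  | succ d ih =>
    intro u L hL hd
    by_cases h : ∃ w ∈ L, w.n ≤ u.n
    · exact ⟨lf, (single u L hL h).symm⟩
    · push Not at h
      have hm0 : u.lo ≤ u.c0.hi := by rw [← c0_lo]; exact u.c0.lo_lt_hi.le
      have hm1 : u.c0.hi ≤ u.hi := by rw [c0_hi_eq, ← c1_hi]; exact u.c1.lo_lt_hi.le
      obtain ⟨L0, L1, rfl, h0, h1⟩ := hL.split hm0 hm1 (fun w hw => by
        have hwn := h w hw
        obtain ⟨k, hk⟩ := Int.le.dest (show u.n + 1 ≤ w.n by linarith)
        have e1 : u.c0.hi = ((2 * u.i + 1) * 2 ^ k : ℤ) * (2:ℚ) ^ (-w.n) := by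
          have := pt_desc u.c1 k 0 0
          simp only [Vx.desc, Int.cast_zero, add_zero, zero_div, Vx.pt, Vx.c1] at this
          rw [c0_hi_eq, Vx.lo, Vx.pt, add_zero, Vx.c1, ← this, ← hk]
        rcases lt_or_ge w.i ((2 * u.i + 1) * 2 ^ k) with h3 | h3
        · left
          rw [e1, Vx.hi, Vx.pt, mul_le_mul_iff_left₀ (two_zpow_pos _)]
          exact_mod_cast h3
        · right
          rw [e1, Vx.lo, Vx.pt, add_zero, mul_le_mul_iff_left₀ (two_zpow_pos _)]
          exact_mod_cast h3)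
      rw [← c0_lo] at h0
      rw [c0_hi_eq, ← c1_hi] at h1
      obtain ⟨T0, hT0⟩ := ih u.c0 L0 h0 (fun w hw => by
        have := hd w (List.mem_append_left _ hw)
        simp only [Vx.c0]; push_cast at this; linarith)
      obtain ⟨T1, hT1⟩ := ih u.c1 L1 h1 (fun w hw => by
        have := hd w (List.mem_append_right _ hw)
        simp only [Vx.c1]; push_cast at this; linarith)
      exact ⟨nd T0 T1, by rw [leaves, hT0, hT1]⟩

lemma leaves_inj : ∀ (T T' : BT) (v : Vx), leaves v T = leaves v T' → T = T'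
  | lf, lf, v, _ => rfl
  | lf, nd a b, v, h => by
    exfalso
    have h1 := congrArg List.length h
    rw [length_leaves, length_leaves] at h1
    simp only [nl] at h1
    have := nl_pos a
    have := nl_pos b
    omega
  | nd a b, lf, v, h => by
    exfalso
    have h1 := congrArg List.length h
    rw [length_leaves, length_leaves] at h1
    simp only [nl] at h1
    have := nl_pos a
    have := nl_pos b
    omega
  | nd a b, nd a' b', v, h => by
    have key : ∀ a b : BT, (leaves v.c0 a ++ leaves v.c1 b).filter (fun w => decide (w.hi ≤ v.c0.hi)) =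
        leaves v.c0 a := by
      intro a b
      rw [List.filter_append]
      have h1 : (leaves v.c0 a).filter (fun w => decide (w.hi ≤ v.c0.hi)) = leaves v.c0 a := by
        rw [List.filter_eq_self]
        intro w hw
        simpa using ((leaves_chain a v.c0).bounds w hw).2
      have h2 : (leaves v.c1 b).filter (fun w => decide (w.hi ≤ v.c0.hi)) = [] := by
        rw [List.filter_eq_nil_iff]
        intro w hw
        have h3 := ((leaves_chain b v.c1).bounds w hw).1
        have h4 := w.lo_lt_hi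
        rw [← c0_hi_eq] at h3
        simp only [decide_eq_true_eq, not_le]
        linarith
      rw [h1, h2, List.append_nil]
    have h0 : leaves v.c0 a = leaves v.c0 a' := by
      rw [← key a b, ← key a' b']
      exact congrArg _ h
    have h1 : leaves v.c1 b = leaves v.c1 b' := by
      have h' : leaves v.c0 a ++ leaves v.c1 b = leaves v.c0 a' ++ leaves v.c1 b' := h
      rw [h0] at h'
      exact List.append_cancel_left h'
    rw [leaves_inj a a' _ h0, leaves_inj b b' _ h1]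

/-- the root vertex -/
def root : Vx := ⟨0, 0⟩

lemma root_lo : root.lo = 0 := by simp [root, Vx.lo, Vx.pt]
lemma root_hi : root.hi = 1 := by simp [root, Vx.hi, Vx.pt]
lemma root_in : root.In := by rw [Vx.In, root_lo, root_hi]; norm_num

/-- `f` maps the leaves of T to the leaves of T' -/
def Maps (f : Q) (T T' : BT) : Prop := List.Forall₂ (Lin f) (leaves root T) (leaves root T')

lemma forall2_lin_leaves : ∀ (T : BT) {f : Q} {v w : Vx}, Lin f v w →
    List.Forall₂ (Lin f) (leaves v T) (leaves w T)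
  | lf, f, v, w, h => List.Forall₂.cons h List.Forall₂.nil
  | nd a b, f, v, w, h => by
    rw [leaves, leaves]
    exact List.rel_append (forall2_lin_leaves a h.c0) (forall2_lin_leaves b h.c1)

lemma leaves_graft : ∀ (T : BT) (v : Vx) (Fs : List BT), Fs.length = nl T →
    leaves v (graft T Fs) = (List.zipWith leaves (leaves v T) Fs).flatten
  | lf, v, Fs, h => by
    rw [nl] at h
    obtain ⟨F, rfl⟩ := List.length_eq_one_iff.1 h
    simp [graft, leaves]
  | nd a b, v, Fs, h => by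
    rw [nl] at h
    rw [graft, leaves, leaves_graft a _ _ (by rw [List.length_take]; omega),
      leaves_graft b _ _ (by rw [List.length_drop]; omega), leaves]
    conv_rhs => rw [← List.take_append_drop (nl a) Fs]
    rw [List.zipWith_append (by rw [length_leaves, List.length_take]; omega), List.flatten_append]

lemma forall2_flatten {f : Q} : ∀ {L L' : List Vx} (Fs : List BT), List.Forall₂ (Lin f) L L' →
    List.Forall₂ (Lin f) (List.zipWith leaves L Fs).flatten (List.zipWith leaves L' Fs).flatten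
  | [], _, Fs, .nil => by simp
  | v :: L, w :: L', [], .cons h h' => by simp
  | v :: L, w :: L', F :: Fs, .cons h h' => by
    simp only [List.zipWith_cons_cons, List.flatten_cons]
    exact List.rel_append (forall2_lin_leaves F h) (forall2_flatten Fs h')

lemma Maps.nl_eq {f : Q} {T T' : BT} (h : Maps f T T') : nl T = nl T' := by
  have := h.length_eq
  rwa [length_leaves, length_leaves] at this

lemma Maps.graft {f : Q} {T T' : BT} (h : Maps f T T') (Fs : List BT) (hF : Fs.length = nl T) :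
    Maps f (graft T Fs) (BT.graft T' Fs) := by
  have hF' : Fs.length = nl T' := by rw [hF, h.nl_eq]
  rw [Maps, leaves_graft _ _ _ hF, leaves_graft _ _ _ hF']
  exact forall2_flatten Fs h

lemma forall2_comp {f g : Q} : ∀ {L1 L2 L3 : List Vx}, List.Forall₂ (Lin g) L1 L2 →
    List.Forall₂ (Lin f) L2 L3 → List.Forall₂ (Lin (f * g)) L1 L3
  | _, _, _, .nil, .nil => .nil
  | _, _, _, .cons h hs, .cons h' hs' => .cons (h'.mul h) (forall2_comp hs hs')

lemma Maps.mul {f g : Q} {T1 T2 T3 : BT} (h : Maps g T1 T2) (h' : Maps f T2 T3) :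
    Maps (f * g) T1 T3 := forall2_comp h h'

lemma forall2_unique {f : Q} : ∀ {L L1 L2 : List Vx}, List.Forall₂ (Lin f) L L1 →
    List.Forall₂ (Lin f) L L2 → L1 = L2
  | _, _, _, .nil, .nil => rfl
  | _, _, _, .cons h hs, .cons h' hs' => by rw [h.unique h', forall2_unique hs hs']

lemma Maps.unique {f : Q} {T T1 T2 : BT} (h1 : Maps f T T1) (h2 : Maps f T T2) : T1 = T2 :=
  leaves_inj _ _ root (forall2_unique h1 h2)

lemma leaves_full_level : ∀ (K : ℕ) (v w : Vx), w ∈ leaves v (full K) → w.n = v.n + K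
  | 0, v, w, h => by
    simp only [full, leaves, List.mem_singleton] at h
    rw [h]; simp
  | K + 1, v, w, h => by
    simp only [full, leaves, List.mem_append] at h
    rcases h with h | h
    · rw [leaves_full_level K _ _ h]; simp only [Vx.c0]; push_cast; ring
    · rw [leaves_full_level K _ _ h]; simp only [Vx.c1]; push_cast; ring

lemma forall2_chain {f : Q} : ∀ {L L' : List Vx} {a b : ℚ}, List.Forall₂ (Lin f) L L' → Chn a L b →
    Chn (f a) L' (f b)
  | _, _, a, b, .nil, h => by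
    have : a = b := h
    rw [this]; rfl
  | _, _, a, b, .cons h hs, h' => by
    obtain ⟨h1, h2⟩ := h'
    refine ⟨by rw [← h1, h.lo], ?_⟩
    have := forall2_chain hs h2
    rwa [h.hi] at this

lemma exists_forall2 {f : Q} : ∀ {L : List Vx}, (∀ v ∈ L, ∃ w, Lin f v w) →
    ∃ L', List.Forall₂ (Lin f) L L'
  | [], _ => ⟨[], .nil⟩
  | v :: L, h => by
    obtain ⟨w, hw⟩ := h v List.mem_cons_self
    obtain ⟨L', hL'⟩ := exists_forall2 (fun u hu => h u (List.mem_cons_of_mem _ hu))
    exact ⟨w :: L', .cons hw hL'⟩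

lemma exists_maps_full {f : Q} (hf : f ∈ F) : ∃ K0 : ℕ, ∀ K, K0 ≤ K → ∃ T', Maps f (full K) T' := by
  obtain ⟨N, hN⟩ := P.level (F.le_P hf)
  refine ⟨N.toNat, fun K hK => ?_⟩
  have hNK : N ≤ K := (Int.self_le_toNat N).trans (by exact_mod_cast hK)
  obtain ⟨L', hL'⟩ := exists_forall2 (f := f) (L := leaves root (full K)) (fun v hv => by
    apply hN
    rw [leaves_full_level K _ _ hv]
    simpa [root] using hNK)
  have hch := forall2_chain hL' (leaves_chain (full K) root)
  rw [root_lo, root_hi, F.zero hf le_rfl, F.one hf le_rfl] at hch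
  -- depth bound
  obtain ⟨d, hd⟩ : ∃ d : ℕ, ∀ w ∈ L', w.n ≤ d := by
    clear hL' hch
    induction L' with
    | nil => exact ⟨0, by simp⟩
    | cons w L ih =>
      obtain ⟨d, hd⟩ := ih
      refine ⟨max d w.n.toNat, fun u hu => ?_⟩
      rcases List.mem_cons.1 hu with rfl | hu
      · exact (Int.self_le_toNat _).trans (by exact_mod_cast le_max_right _ _)
      · exact (hd u hu).trans (by exact_mod_cast le_max_left _ _)
  obtain ⟨T', hT'⟩ := exists_tree d root L' (by rw [root_lo, root_hi]; exact hch)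
    (fun w hw => by simpa [root] using hd w hw)
  exact ⟨T', by rw [Maps, hT']; exact hL'⟩

lemma exists_maps_graft {f : Q} (hf : f ∈ F) (T0 : BT) :
    ∃ Fs : List BT, Fs.length = nl T0 ∧ ∃ T', Maps f (graft T0 Fs) T' := by
  obtain ⟨K0, hK0⟩ := exists_maps_full hf
  obtain ⟨T', hT'⟩ := hK0 (max K0 (dp T0)) (le_max_left _ _)
  obtain ⟨Fs, hFs, hFs'⟩ := exists_graft_full T0 (max K0 (dp T0)) (le_max_right _ _)
  exact ⟨Fs, hFs, T', by rw [hFs']; exact hT'⟩

lemma exists_maps {f : Q} (hf : f ∈ F) : ∃ T T', Maps f T T' := by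
  obtain ⟨Fs, -, T', h⟩ := exists_maps_graft hf lf
  exact ⟨_, T', h⟩

lemma leaves_in : ∀ (T : BT) (v : Vx), v.In → ∀ w ∈ leaves v T, w.In := by
  intro T v hv w hw
  have := (leaves_chain T v).bounds w hw
  exact ⟨hv.1.trans this.1, this.2.trans hv.2⟩

lemma Vx.In.c0 {v : Vx} (h : v.In) : v.c0.In :=
  ⟨by rw [c0_lo]; exact h.1, by rw [c0_hi_eq]; exact (v.c1.lo_lt_hi.le).trans (by rw [c1_hi]; exact h.2)⟩

lemma Vx.In.c1 {v : Vx} (h : v.In) : v.c1.In :=
  ⟨by rw [← c0_hi_eq]; exact h.c0.1.trans v.c0.lo_lt_hi.le, by rw [c1_hi]; exact h.2⟩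

/-! ### the algebra of labelled trees -/

section Algebra

variable {S : Type*} (s0 s1 : S → S)

/-- labels of the leaves -/
def lab : S → BT → List S
  | s, lf => [s]
  | s, nd a b => lab (s0 s) a ++ lab (s1 s) b

lemma length_lab : ∀ (T : BT) (s : S), (lab s0 s1 s T).length = nl T
  | lf, s => rfl
  | nd a b, s => by rw [lab, List.length_append, length_lab, length_lab]; rfl

variable {E : Type*} [Group E] (A Z : S → E)

/-- the multiplicative functional on trees -/
def Om : S → BT → E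
  | s, lf => A s
  | s, nd a b => Om (s1 s) b * Om (s0 s) a * Z s

/-- product of A over a word, last letter leftmost -/
def Ap : List S → E
  | [] => 1
  | w :: ws => Ap ws * A w

lemma Ap_append : ∀ l1 l2 : List S, Ap A (l1 ++ l2) = Ap A l2 * Ap A l1
  | [], l2 => by simp [Ap]
  | w :: ws, l2 => by rw [List.cons_append, Ap, Ap_append ws l2, Ap, mul_assoc]

/-- the expansion element -/
def Th : List S → List BT → E
  | w :: ws, F :: Fs => Th ws Fs * (Ap A ws * (Om s0 s1 A Z w F * (A w)⁻¹) * (Ap A ws)⁻¹)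
  | _, _ => 1

lemma Th_append : ∀ (l1 l2 : List S) (F1 F2 : List BT), l1.length = F1.length →
    Th s0 s1 A Z (l1 ++ l2) (F1 ++ F2) =
      Th s0 s1 A Z l2 F2 * (Ap A l2 * Th s0 s1 A Z l1 F1 * (Ap A l2)⁻¹)
  | [], l2, [], F2, _ => by simp [Th]
  | [], l2, F :: F1, F2, h => by simp at h
  | w :: ws, l2, [], F2, h => by simp at h
  | w :: ws, l2, F :: F1, F2, h => by
    rw [List.cons_append, List.cons_append, Th, Th_append ws l2 F1 F2 (by simpa using h), Th,
      Ap_append]
    simp only [mul_assoc, mul_inv_rev, inv_mul_cancel_left]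

/-- hypotheses for the homomorphism lemma -/
structure Good (Vm Vp : S → Subgroup E) : Prop where
  vm0 : ∀ s, Vm (s0 s) = Vm s
  vp0 : ∀ s, Vp (s0 s) = Vm (s1 s)
  vp1 : ∀ s, Vp (s1 s) = Vp s
  h1 : ∀ s, ∀ v ∈ Vm s, A s * v * (A s)⁻¹ ∈ Vp s
  h2 : ∀ s, ∀ v ∈ Vm s, Z s * v = v * Z s
  h3 : ∀ s, A (s1 s) * A (s0 s) * Z s * (A s)⁻¹ ∈ Vp s

variable {s0 s1 A Z} {Vm Vp : S → Subgroup E}

lemma Good.p1 (H : Good s0 s1 A Z Vm Vp) : ∀ (T : BT) (s : S),
    Om s0 s1 A Z s T * (A s)⁻¹ ∈ Vp s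
  | lf, s => by rw [Om, mul_inv_cancel]; exact (Vp s).one_mem
  | nd a b, s => by
    have ha := H.p1 a (s0 s)
    have hb := H.p1 b (s1 s)
    rw [H.vp0] at ha
    rw [H.vp1] at hb
    have h4 := H.h1 (s1 s) _ ha
    rw [H.vp1] at h4
    have h5 := (Vp s).mul_mem ((Vp s).mul_mem hb h4) (H.h3 s)
    have e : Om s0 s1 A Z (s1 s) b * (A (s1 s))⁻¹ *
        (A (s1 s) * (Om s0 s1 A Z (s0 s) a * (A (s0 s))⁻¹) * (A (s1 s))⁻¹) *
        (A (s1 s) * A (s0 s) * Z s * (A s)⁻¹) = Om s0 s1 A Z s (nd a b) * (A s)⁻¹ := by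
      rw [Om]
      simp only [mul_assoc, inv_mul_cancel_left]
    rwa [e] at h5

lemma Good.p3 (H : Good s0 s1 A Z Vm Vp) : ∀ (T : BT) (s : S), ∀ v ∈ Vm s,
    Ap A (lab s0 s1 s T) * v * (Ap A (lab s0 s1 s T))⁻¹ ∈ Vp s
  | lf, s, v, hv => by
    rw [lab, Ap, Ap, one_mul]; exact H.h1 s v hv
  | nd a b, s, v, hv => by
    rw [lab, Ap_append]
    have ha := H.p3 a (s0 s) v (by rw [H.vm0]; exact hv)
    rw [H.vp0] at ha
    have hb := H.p3 b (s1 s) _ ha
    rw [H.vp1] at hb
    simpa only [mul_assoc, mul_inv_rev] using hb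

lemma Good.p2 (H : Good s0 s1 A Z Vm Vp) : ∀ (T : BT) (s : S), ∀ v ∈ Vm s,
    Om s0 s1 A Z s T * v = Ap A (lab s0 s1 s T) * v * (Ap A (lab s0 s1 s T))⁻¹ * Om s0 s1 A Z s T
  | lf, s, v, hv => by
    rw [lab, Ap, Ap, one_mul, Om]; simp
  | nd a b, s, v, hv => by
    have hv' : v ∈ Vm (s0 s) := by rw [H.vm0]; exact hv
    have ha := H.p2 a (s0 s) v hv'
    have ha3 := H.p3 a (s0 s) v hv'
    rw [H.vp0] at ha3
    have hb := H.p2 b (s1 s) _ ha3
    rw [Om, lab, Ap_append]
    calc Om s0 s1 A Z (s1 s) b * Om s0 s1 A Z (s0 s) a * Z s * v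
        = Om s0 s1 A Z (s1 s) b * (Om s0 s1 A Z (s0 s) a * v) * Z s := by
          simp only [mul_assoc]; rw [H.h2 s v hv]
      _ = (Om s0 s1 A Z (s1 s) b * (Ap A (lab s0 s1 (s0 s) a) * v * (Ap A (lab s0 s1 (s0 s) a))⁻¹)) *
            Om s0 s1 A Z (s0 s) a * Z s := by rw [ha]; simp only [mul_assoc]
      _ = _ := by rw [hb]; simp only [mul_assoc, mul_inv_rev]

lemma Good.core (H : Good s0 s1 A Z Vm Vp) : ∀ (T : BT) (s : S) (Fs : List BT), Fs.length = nl T →
    Om s0 s1 A Z s (graft T Fs) = Th s0 s1 A Z (lab s0 s1 s T) Fs * Om s0 s1 A Z s T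
  | lf, s, Fs, h => by
    rw [nl] at h
    obtain ⟨F, rfl⟩ := List.length_eq_one_iff.1 h
    simp [graft, lab, Th, Ap, Om]
  | nd a b, s, Fs, h => by
    rw [nl] at h
    have la : (Fs.take (nl a)).length = nl a := by rw [List.length_take]; omega
    have lb : (Fs.drop (nl a)).length = nl b := by rw [List.length_drop]; omega
    have ha := H.core a (s0 s) _ la
    have hb := H.core b (s1 s) _ lb
    -- Th for the left part lies in Vp (s0 s)
    have hTh : Th s0 s1 A Z (lab s0 s1 (s0 s) a) (Fs.take (nl a)) ∈ Vm (s1 s) := by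
      rw [← H.vp0]
      have h1 := H.p1 (graft a (Fs.take (nl a))) (s0 s)
      have h2 := H.p1 a (s0 s)
      have h3 := (Vp (s0 s)).mul_mem h1 ((Vp (s0 s)).inv_mem h2)
      rw [ha] at h3
      simpa only [mul_assoc, mul_inv_rev, inv_inv, inv_mul_cancel_left, mul_inv_cancel, mul_one] using h3
    have hp2 := H.p2 b (s1 s) _ hTh
    rw [graft, Om, ha, hb, lab]
    conv_rhs => rw [← List.take_append_drop (nl a) Fs]
    rw [Th_append _ _ _ _ _ _ _ _ (by rw [length_lab, la]), Om]
    calc Th s0 s1 A Z (lab s0 s1 (s1 s) b) (Fs.drop (nl a)) * Om s0 s1 A Z (s1 s) b *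
          (Th s0 s1 A Z (lab s0 s1 (s0 s) a) (Fs.take (nl a)) * Om s0 s1 A Z (s0 s) a) * Z s
        = Th s0 s1 A Z (lab s0 s1 (s1 s) b) (Fs.drop (nl a)) * (Om s0 s1 A Z (s1 s) b *
          Th s0 s1 A Z (lab s0 s1 (s0 s) a) (Fs.take (nl a))) * Om s0 s1 A Z (s0 s) a * Z s := by
          simp only [mul_assoc]
      _ = _ := by rw [hp2]; simp only [mul_assoc]

end Algebra

/-- a colouring of vertices compatible with children and invariant under G -/
structure Coloring (G : Subgroup Q) {S : Type*} (s0 s1 : S → S) (c : Vx → S) : Prop where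
  le : G ≤ F
  c0 : ∀ v : Vx, v.In → c v.c0 = s0 (c v)
  c1 : ∀ v : Vx, v.In → c v.c1 = s1 (c v)
  inv : ∀ g ∈ G, ∀ v w : Vx, v.In → Lin g v w → c v = c w

section Hom

variable {S : Type*} {s0 s1 : S → S} {E : Type*} [Group E] {A Z : S → E} {Vm Vp : S → Subgroup E}
variable {G : Subgroup Q} {c : Vx → S}

lemma Coloring.lab_eq (hc : Coloring G s0 s1 c) : ∀ (T : BT) (v : Vx), v.In →
    lab s0 s1 (c v) T = (leaves v T).map c
  | lf, v, _ => rfl
  | nd a b, v, hv => by
    rw [lab, leaves, List.map_append, ← hc.c0 v hv, ← hc.c1 v hv, hc.lab_eq a _ hv.c0,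
      hc.lab_eq b _ hv.c1]

lemma Coloring.map_eq (hc : Coloring G s0 s1 c) {g : Q} (hg : g ∈ G) : ∀ {L L' : List Vx},
    (∀ v ∈ L, v.In) → List.Forall₂ (Lin g) L L' → L.map c = L'.map c
  | _, _, _, .nil => rfl
  | _, _, h, .cons h1 hs => by
    rw [List.map_cons, List.map_cons, hc.inv g hg _ _ (h _ List.mem_cons_self) h1,
      hc.map_eq hg (fun v hv => h v (List.mem_cons_of_mem _ hv)) hs]

lemma Coloring.lab_maps (hc : Coloring G s0 s1 c) {g : Q} (hg : g ∈ G) {T T' : BT}
    (h : Maps g T T') : lab s0 s1 (c root) T = lab s0 s1 (c root) T' := by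
  rw [hc.lab_eq T root root_in, hc.lab_eq T' root root_in]
  exact hc.map_eq hg (leaves_in T root root_in) h

/-- the value of the homomorphism on a tree pair -/
def tv (s0 s1 : S → S) (A Z : S → E) (c : Vx → S) (T T' : BT) : E :=
  (Om s0 s1 A Z (c root) T')⁻¹ * Om s0 s1 A Z (c root) T

lemma tv_graft (H : Good s0 s1 A Z Vm Vp) (hc : Coloring G s0 s1 c) {g : Q} (hg : g ∈ G)
    {T T' : BT} (h : Maps g T T') (Fs : List BT) (hF : Fs.length = nl T) :
    tv s0 s1 A Z c (graft T Fs) (graft T' Fs) = tv s0 s1 A Z c T T' := by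
  rw [tv, tv, H.core T _ Fs hF, H.core T' _ Fs (by rw [hF, h.nl_eq]), hc.lab_maps hg h]
  simp only [mul_assoc, mul_inv_rev, inv_mul_cancel_left]

lemma tv_indep (H : Good s0 s1 A Z Vm Vp) (hc : Coloring G s0 s1 c) {g : Q} (hg : g ∈ G)
    {T T' U U' : BT} (h : Maps g T T') (h' : Maps g U U') :
    tv s0 s1 A Z c T T' = tv s0 s1 A Z c U U' := by
  obtain ⟨Fs, hFs, hFs'⟩ := exists_graft_full T (max (dp T) (dp U)) (le_max_left _ _)
  obtain ⟨Gs, hGs, hGs'⟩ := exists_graft_full U (max (dp T) (dp U)) (le_max_right _ _)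
  rw [← tv_graft H hc hg h Fs hFs, ← tv_graft H hc hg h' Gs hGs]
  have m1 := h.graft Fs hFs
  have m2 := h'.graft Gs hGs
  rw [hFs'] at m1 ⊢
  rw [hGs'] at m2 ⊢
  rw [m1.unique m2]

/-- the homomorphism lemma -/
theorem exists_hom (H : Good s0 s1 A Z Vm Vp) (hc : Coloring G s0 s1 c) :
    ∃ σ : G →* E, ∀ g : G, ∀ T T', Maps (g : Q) T T' → σ g = tv s0 s1 A Z c T T' := by
  classical
  have hex : ∀ g : G, ∃ p : BT × BT, Maps (g : Q) p.1 p.2 := fun g => by
    obtain ⟨T, T', h⟩ := exists_maps (hc.le g.2)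
    exact ⟨(T, T'), h⟩
  choose p hp using hex
  have hval : ∀ g : G, ∀ T T', Maps (g : Q) T T' → tv s0 s1 A Z c (p g).1 (p g).2 =
      tv s0 s1 A Z c T T' := fun g T T' h => tv_indep H hc g.2 (hp g) h
  refine ⟨MonoidHom.mk' (fun g => tv s0 s1 A Z c (p g).1 (p g).2) ?_, fun g T T' h => hval g T T' h⟩
  intro f g
  obtain ⟨T, T', h⟩ := exists_maps (hc.le g.2)
  obtain ⟨Fs, hFs, U, hU⟩ := exists_maps_graft (hc.le f.2) T'
  have hFs' : Fs.length = nl T := by rw [hFs, h.nl_eq]
  have h' := h.graft Fs hFs'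
  rw [hval g _ _ h', hval f _ _ hU, hval (f * g) _ _ (h'.mul hU)]
  simp only [tv, mul_assoc, mul_inv_cancel_left]

end Hom

end Pool.Agent.ThF
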